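import Pool.Agent.RokProd.Defs

open MeasureTheory
open scoped ENNReal

namespace Pool.Agent.RokProd

variable {G Z : Type*} [Group G] [MulAction G Z] [MeasurableSpace Z] [MeasurableConstSMul G Z]

private def Good (P : Measure Z) (α : Z → ℕ) (S : Set (G → ℕ)) : Prop :=
  ∀ δ : ℝ≥0∞, δ ≠ 0 → ∃ (S' : Set (G → ℕ)) (η : ℝ≥0∞), MeasurableSet S' ∧ η ≠ 0 ∧
      ∀ α' : Z → ℕ, Measurable α' → P {z | α z ≠ α' z} ≤ η →
        P (symmDiff {z | (fun g : G => α (g • z)) ∈ S} {z | (fun g : G => α' (g • z)) ∈ S'})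
          ≤ δ

private theorem half_ne {δ : ℝ≥0∞} (h : δ ≠ 0) : δ / 2 ≠ 0 := ENNReal.div_ne_zero.2 ⟨h, by simp⟩

omit [MeasurableConstSMul G Z] in
private theorem good_union {P : Measure Z} {α : Z → ℕ} {S T : Set (G → ℕ)} (hS : Good P α S) (hT : Good P α T) :
    Good P α (S ∪ T) := by
  intro δ hδ
  obtain ⟨S', η, h1, h2, h3⟩ := hS (δ / 2) (half_ne hδ)
  obtain ⟨T', η', h1', h2', h3'⟩ := hT (δ / 2) (half_ne hδ)
  refine ⟨S' ∪ T', min η η', h1.union h1', ?_, ?_⟩
  · rcases min_choice η η' with h | h <;> rw [h] <;> assumption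
  · intro α' hα' hle
    have h4 := h3 α' hα' (hle.trans (min_le_left _ _))
    have h5 := h3' α' hα' (hle.trans (min_le_right _ _))
    refine le_trans (measure_mono ?_) (le_trans (measure_union_le _ _) (le_trans (add_le_add h4 h5) (le_of_eq (ENNReal.add_halves δ))))
    intro z hz
    simp only [Set.mem_symmDiff, Set.mem_ofPred_eq, Set.mem_union] at hz ⊢
    tauto

omit [MeasurableConstSMul G Z] in
private theorem good_empty {P : Measure Z} {α : Z → ℕ} : Good (G := G) P α ∅ := by
  intro δ _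
  refine ⟨∅, 1, MeasurableSet.empty, one_ne_zero, ?_⟩
  intro α' _ _
  simp

omit [MeasurableConstSMul G Z] in
private theorem good_finite {P : Measure Z} {α : Z → ℕ} {T : ℕ → Set (G → ℕ)} (hT : ∀ n, Good P α (T n)) :
    ∀ N : ℕ, Good P α (⋃ n ∈ Finset.range N, T n)
  | 0 => by simpa using good_empty
  | N + 1 => by
    rw [Finset.range_add_one, Finset.set_biUnion_insert]
    exact good_union (hT N) (good_finite hT N)

/-- Sets given by the itinerary of `α` are approximated by sets given by the itinerary of any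
`α'` close to `α`. -/
theorem approx_itinerary (P : Measure Z) [IsProbabilityMeasure P] [SMulInvariantMeasure G Z P]
    (α : Z → ℕ) (hα : Measurable α) (S : Set (G → ℕ)) (hS : MeasurableSet S)
    (δ : ℝ≥0∞) (hδ : δ ≠ 0) :
    ∃ (S' : Set (G → ℕ)) (η : ℝ≥0∞), MeasurableSet S' ∧ η ≠ 0 ∧
      ∀ α' : Z → ℕ, Measurable α' → P {z | α z ≠ α' z} ≤ η →
        P (symmDiff {z | (fun g : G => α (g • z)) ∈ S} {z | (fun g : G => α' (g • z)) ∈ S'})
          ≤ δ := by
  have hit : Measurable fun z : Z => fun g : G => α (g • z) :=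
    measurable_pi_iff.2 fun g => hα.comp (measurable_const_smul g)
  suffices h : Good P α S from h δ hδ
  rw [MeasurableSpace.pi_eq_generateFrom_projections] at hS
  induction S, hS using MeasurableSpace.generateFrom_induction with
  | hC t ht _ =>
    obtain ⟨g, A, hA, rfl⟩ := ht
    intro δ hδ
    refine ⟨Function.eval g ⁻¹' A, δ, measurable_pi_apply g hA, hδ, ?_⟩
    intro α' hα' hle
    refine le_trans (measure_mono ?_) (le_trans (le_of_eq (measure_preimage_smul (μ := P) g {z | α z ≠ α' z})) hle)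
    intro z hz
    simp only [Set.mem_symmDiff, Set.mem_ofPred_eq, Set.mem_preimage, Function.eval] at hz ⊢
    intro h
    rw [h] at hz
    tauto
  | empty => exact good_empty
  | compl t ht ih =>
    intro δ hδ
    obtain ⟨S', η, h1, h2, h3⟩ := ih δ hδ
    refine ⟨S'ᶜ, η, h1.compl, h2, ?_⟩
    intro α' hα' hle
    refine le_trans (measure_mono ?_) (h3 α' hα' hle)
    intro z hz
    simp only [Set.mem_symmDiff, Set.mem_ofPred_eq, Set.mem_compl_iff] at hz ⊢
    tauto
  | iUnion T hT ih =>
    intro δ hδ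
    have hT' : ∀ n, MeasurableSet (T n) := by
      intro n
      have := hT n
      rwa [← MeasurableSpace.pi_eq_generateFrom_projections] at this
    -- the tails
    let V : ℕ → Set Z := fun N => {z | (fun g : G => α (g • z)) ∈ (⋃ n, T n) \ ⋃ n ∈ Finset.range N, T n}
    have hVm : ∀ N, MeasurableSet (V N) := fun N =>
      hit ((MeasurableSet.iUnion hT').diff (Finset.measurableSet_biUnion _ fun n _ => hT' n))
    have hanti : Antitone V := by
      intro M N hMN z hz
      refine ⟨hz.1, fun h => hz.2 ?_⟩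
      simp only [Set.mem_iUnion, Finset.mem_range] at h ⊢
      obtain ⟨n, hn, h⟩ := h
      exact ⟨n, by omega, h⟩
    have hinter : ⋂ N, V N = ∅ := by
      rw [Set.eq_empty_iff_forall_notMem]
      intro z hz
      rw [Set.mem_iInter] at hz
      obtain ⟨n, hn⟩ := Set.mem_iUnion.1 (hz 0).1
      refine (hz (n + 1)).2 ?_
      simp only [Set.mem_iUnion, Finset.mem_range]
      exact ⟨n, by omega, hn⟩
    have htend := tendsto_measure_iInter_atTop (μ := P) (fun N => (hVm N).nullMeasurableSet) hanti ⟨0, measure_ne_top _ _⟩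
    rw [hinter, measure_empty] at htend
    obtain ⟨N, hN⟩ := (htend.eventually (gt_mem_nhds (pos_iff_ne_zero.2 (half_ne hδ)))).exists
    obtain ⟨S', η, h1, h2, h3⟩ := good_finite ih N (δ / 2) (half_ne hδ)
    refine ⟨S', η, h1, h2, ?_⟩
    intro α' hα' hle
    have h4 := h3 α' hα' hle
    refine le_trans (measure_mono ?_) (le_trans (measure_union_le (V N) _) (le_trans (add_le_add hN.le h4) (le_of_eq (ENNReal.add_halves δ))))
    intro z hz
    have hsub : (⋃ n ∈ Finset.range N, T n) ⊆ ⋃ n, T n := Set.iUnion₂_subset fun n _ => Set.subset_iUnion T n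
    have hsub' := @hsub (fun g : G => α (g • z))
    simp only [V, Set.mem_symmDiff, Set.mem_ofPred_eq, Set.mem_union, Set.mem_sdiff] at hz ⊢
    tauto

/-- Combining finitely many sets into one finite-valued map. -/
theorem combine {Z : Type*} (m : MeasurableSpace Z) {K : ℕ} (C : Fin (K + 1) → Set Z)
    (hC : ∀ j, MeasurableSet (C j)) :
    ∃ v : Z → Fin (K + 1), Measurable v ∧
      ∀ z (j : Fin (K + 1)), (∀ i, z ∈ C i ↔ j = i) → v z = j := by
  classical
  let p : ℕ → Z → Prop := fun n z => (∃ h : n < K + 1, z ∈ C ⟨n, h⟩) ∨ n = K + 1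
  have hp : ∀ z, ∃ n, p n z := fun z => ⟨K + 1, Or.inr rfl⟩
  have hpm : ∀ n, MeasurableSet {z | p n z} := by
    intro n
    by_cases h1 : n < K + 1
    · have : {z | p n z} = C ⟨n, h1⟩ := by
        ext z
        simp only [p, Set.mem_ofPred_eq]
        constructor
        · rintro (⟨h, hz⟩ | h)
          · exact hz
          · omega
        · exact fun hz => Or.inl ⟨h1, hz⟩
      rw [this]
      exact hC _
    · by_cases h2 : n = K + 1
      · have : {z | p n z} = Set.univ := by
          ext z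
          simp [p, h2]
        rw [this]
        exact MeasurableSet.univ
      · have : {z | p n z} = ∅ := by
          ext z
          simp only [p, Set.mem_ofPred_eq, Set.mem_empty_iff_false, iff_false]
          rintro (⟨h, -⟩ | h)
          · exact h1 h
          · exact h2 h
        rw [this]
        exact MeasurableSet.empty
  let f : ℕ → Z → Fin (K + 1) := fun n _ => if h : n < K + 1 then ⟨n, h⟩ else 0
  refine ⟨fun z => f (Nat.find (hp z)) z, Measurable.find (f := f) (fun n => (measurable_const : Measurable (f n))) hpm hp, ?_⟩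
  intro z j hj
  have h1 : Nat.find (hp z) = j := by
    rw [Nat.find_eq_iff]
    refine ⟨Or.inl ⟨j.2, (hj j).2 rfl⟩, ?_⟩
    rintro n hn (⟨h, hz⟩ | h)
    · have h2 := (hj ⟨n, h⟩).1 hz
      rw [h2] at hn
      exact absurd hn (lt_irrefl _)
    · have := j.2
      omega
  simp only [h1, f]
  rw [dif_pos j.2]

/-- A finite-valued map measurable for a generating partition `α` is approximated by a fixed
measurable function of the itinerary of any `α'` close to `α`. -/
theorem approx_function (P : Measure Z) [IsProbabilityMeasure P] [SMulInvariantMeasure G Z P]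
    (α : Z → ℕ) (hα : Measurable α) (hgen : Generating G P α) {K : ℕ} (b : Z → Fin (K + 1))
    (hb : Measurable b) (δ : ℝ≥0∞) (hδ : δ ≠ 0) :
    ∃ (f : (G → ℕ) → Fin (K + 1)) (η : ℝ≥0∞), Measurable f ∧ η ≠ 0 ∧
      ∀ α' : Z → ℕ, Measurable α' → P {z | α z ≠ α' z} ≤ η →
        P {z | f (fun g : G => α' (g • z)) ≠ b z} ≤ δ := by
  have h1 : ∀ j : Fin (K + 1), ∃ S : Set (G → ℕ), MeasurableSet S ∧
      (b ⁻¹' {j} : Set Z) =ᵐ[P] {z | (fun g : G => α (g • z)) ∈ S} := fun j => hgen _ (hb (MeasurableSet.singleton j))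
  choose S hS hSe using h1
  have hK0 : ((K + 1 : ℕ) : ℝ≥0∞) ≠ 0 := by simp
  have hKt : ((K + 1 : ℕ) : ℝ≥0∞) ≠ ∞ := ENNReal.natCast_ne_top _
  have hδ' : δ / ((K + 1 : ℕ) : ℝ≥0∞) ≠ 0 := ENNReal.div_ne_zero.2 ⟨hδ, hKt⟩
  have h2 := fun j => approx_itinerary P α hα (S j) (hS j) _ hδ'
  choose S' η hS' hη h3 using h2
  obtain ⟨f, hf, hf'⟩ := combine (inferInstance : MeasurableSpace (G → ℕ)) S' hS'
  obtain ⟨i0, hi0⟩ := exists_eq_ciInf_of_finite (f := η)
  refine ⟨f, ⨅ j, η j, hf, by rw [← hi0]; exact hη i0, ?_⟩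
  intro α' hα' hle
  have h4 : ∀ j, P (symmDiff {z | (fun g : G => α (g • z)) ∈ S j} {z | (fun g : G => α' (g • z)) ∈ S' j}) ≤
      δ / ((K + 1 : ℕ) : ℝ≥0∞) := fun j => h3 j α' hα' (hle.trans (iInf_le η j))
  have h5 : P (⋃ j, symmDiff {z | (fun g : G => α (g • z)) ∈ S j} {z | (fun g : G => α' (g • z)) ∈ S' j}) ≤ δ := by
    refine (measure_iUnion_fintype_le P _).trans ((Finset.sum_le_sum fun j _ => h4 j).trans (le_of_eq ?_))
    rw [Finset.sum_const, Finset.card_univ, Fintype.card_fin, nsmul_eq_mul, ENNReal.mul_div_cancel hK0 hKt]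
  have h6 : P (⋃ j, symmDiff (b ⁻¹' {j} : Set Z) {z | (fun g : G => α (g • z)) ∈ S j}) = 0 := by
    rw [measure_iUnion_null_iff]
    intro j
    exact measure_symmDiff_eq_zero_iff.2 (hSe j)
  refine le_trans (measure_mono ?_) (le_trans (measure_union_le
    (⋃ j, symmDiff (b ⁻¹' {j} : Set Z) {z | (fun g : G => α (g • z)) ∈ S j})
    (⋃ j, symmDiff {z | (fun g : G => α (g • z)) ∈ S j} {z | (fun g : G => α' (g • z)) ∈ S' j})) (by rw [h6, zero_add]; exact h5))
  intro z hz
  by_contra hcon
  simp only [Set.mem_union, Set.mem_iUnion, Set.mem_symmDiff, Set.mem_preimage, Set.mem_singleton_iff, Set.mem_ofPred_eq,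
    not_or, not_exists, not_and, not_not] at hcon
  refine hz (hf' _ (b z) fun i => ?_)
  have ha := hcon.1 i
  have hb' := hcon.2 i
  constructor
  · intro h
    exact ha.2 (hb'.2 h)
  · intro h
    exact hb'.1 (ha.1 h)

end Pool.Agent.RokProd
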