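import Pool.Agent.RokProd.Defs

open MeasureTheory
open scoped ENNReal

namespace Pool.Agent.RokProd

variable {Z κ κ' : Type*} [MeasurableSpace Z]

private theorem EntropyA_term {p : ℝ≥0∞} (hp : p ≤ 1) :
    ENNReal.ofReal (Real.negMulLog p.toReal) = p * ENNReal.ofReal (-Real.log p.toReal) := by
  have h : p ≠ ⊤ := ne_top_of_le_ne_top ENNReal.one_ne_top hp
  have h1 : ENNReal.ofReal p.toReal = p := ENNReal.ofReal_toReal h
  have h2 : Real.negMulLog p.toReal = p.toReal * (-Real.log p.toReal) := by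
    rw [Real.negMulLog]
    ring
  rw [h2, ENNReal.ofReal_mul ENNReal.toReal_nonneg, h1]

private theorem EntropyA_sum [Countable κ] (P : Measure Z) (α : Z → κ)
    (hα : ∀ j, MeasurableSet (α ⁻¹' {j})) {A : Set Z} (hA : MeasurableSet A) :
    P A = ∑' j, P (A ∩ α ⁻¹' {j}) := by
  have h1 : A = ⋃ j, A ∩ α ⁻¹' {j} := by
    ext z
    simp
  have h2 : P (⋃ j, A ∩ α ⁻¹' {j}) = ∑' j, P (A ∩ α ⁻¹' {j}) := by
    refine measure_iUnion ?_ fun j => hA.inter (hα j)
    intro i j hij
    refine Set.disjoint_left.2 fun z hz hz' => hij ?_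
    have e1 : α z = i := hz.2
    have e2 : α z = j := hz'.2
    exact e1.symm.trans e2
  rw [← h2, ← h1]

private theorem EntropyA_ineq {p a b : ℝ≥0∞} (ha : a ≤ 1) (hb : b ≤ 1) (hpa : p ≤ a)
    (hpb : p ≤ b) :
    p * ENNReal.ofReal (-Real.log p.toReal) + p ≤
      p * ENNReal.ofReal (-Real.log a.toReal) + p * ENNReal.ofReal (-Real.log b.toReal) + a * b := by
  by_cases h0 : p = 0
  · simp [h0]
  have ha' : a ≠ ⊤ := ne_top_of_le_ne_top ENNReal.one_ne_top ha
  have hb' : b ≠ ⊤ := ne_top_of_le_ne_top ENNReal.one_ne_top hb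
  have hp' : p ≠ ⊤ := ne_top_of_le_ne_top ha' hpa
  obtain ⟨x, hx⟩ : ∃ x : ℝ, x = p.toReal := ⟨_, rfl⟩
  obtain ⟨y, hy⟩ : ∃ y : ℝ, y = a.toReal := ⟨_, rfl⟩
  obtain ⟨z, hz⟩ : ∃ z : ℝ, z = b.toReal := ⟨_, rfl⟩
  have hx0 : 0 < x := by
    rw [hx]
    exact ENNReal.toReal_pos h0 hp'
  have hxy : x ≤ y := by
    rw [hx, hy]
    exact ENNReal.toReal_mono ha' hpa
  have hxz : x ≤ z := by
    rw [hx, hz]
    exact ENNReal.toReal_mono hb' hpb
  have hy1 : y ≤ 1 := by
    rw [hy]
    exact ENNReal.toReal_le_of_le_ofReal zero_le_one (by rwa [ENNReal.ofReal_one])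
  have hz1 : z ≤ 1 := by
    rw [hz]
    exact ENNReal.toReal_le_of_le_ofReal zero_le_one (by rwa [ENNReal.ofReal_one])
  have hy0 : 0 < y := by linarith
  have hz0 : 0 < z := by linarith
  have hlx : 0 ≤ -Real.log x := by
    have := Real.log_nonpos hx0.le (by linarith)
    linarith
  have hly : 0 ≤ -Real.log y := by
    have := Real.log_nonpos hy0.le (by linarith)
    linarith
  have hlz : 0 ≤ -Real.log z := by
    have := Real.log_nonpos hz0.le (by linarith)
    linarith
  have key : x * (-Real.log x) + x ≤ x * (-Real.log y) + x * (-Real.log z) + y * z := by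
    have h1 : Real.log (y * z / x) ≤ y * z / x - 1 :=
      Real.log_le_sub_one_of_pos (by positivity)
    have h2 : Real.log (y * z / x) = Real.log y + Real.log z - Real.log x := by
      rw [Real.log_div (by positivity) hx0.ne', Real.log_mul hy0.ne' hz0.ne']
    rw [h2] at h1
    have h3 := mul_le_mul_of_nonneg_left h1 hx0.le
    have h4 : x * (y * z / x - 1) = y * z - x := by
      field_simp
    rw [h4] at h3
    linarith
  have ep : ENNReal.ofReal x = p := by
    rw [hx]
    exact ENNReal.ofReal_toReal hp'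
  have ea : ENNReal.ofReal y = a := by
    rw [hy]
    exact ENNReal.ofReal_toReal ha'
  have eb : ENNReal.ofReal z = b := by
    rw [hz]
    exact ENNReal.ofReal_toReal hb'
  rw [← hx, ← hy, ← hz]
  calc p * ENNReal.ofReal (-Real.log x) + p
      = ENNReal.ofReal (x * (-Real.log x) + x) := by
        rw [ENNReal.ofReal_add (mul_nonneg hx0.le hlx) hx0.le, ENNReal.ofReal_mul hx0.le, ep]
    _ ≤ ENNReal.ofReal (x * (-Real.log y) + x * (-Real.log z) + y * z) :=
        ENNReal.ofReal_le_ofReal key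
    _ = p * ENNReal.ofReal (-Real.log y) + p * ENNReal.ofReal (-Real.log z) + a * b := by
        rw [ENNReal.ofReal_add (add_nonneg (mul_nonneg hx0.le hly) (mul_nonneg hx0.le hlz))
          (mul_nonneg hy0.le hz0.le), ENNReal.ofReal_add (mul_nonneg hx0.le hly)
          (mul_nonneg hx0.le hlz), ENNReal.ofReal_mul hx0.le, ENNReal.ofReal_mul hx0.le,
          ENNReal.ofReal_mul hy0.le, ep, ea, eb]

/-- Entropy of a coarser partition. -/
theorem shannon_comp_le [Countable κ] [Countable κ'] (P : Measure Z) [IsProbabilityMeasure P]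
    (α : Z → κ) (hα : ∀ j, MeasurableSet (α ⁻¹' {j})) (f : κ → κ') :
    shannon P (fun z => f (α z)) ≤ shannon P α := by
  classical
  have hA : ∀ j', MeasurableSet ((fun z => f (α z)) ⁻¹' {j'}) := by
    intro j'
    have h1 : (fun z => f (α z)) ⁻¹' {j'} = ⋃ j ∈ f ⁻¹' {j'}, α ⁻¹' {j} := by
      ext z
      simp
    rw [h1]
    exact MeasurableSet.biUnion (Set.to_countable _) fun j _ => hα j
  have hterm : ∀ j', ENNReal.ofReal (Real.negMulLog (P ((fun z => f (α z)) ⁻¹' {j'})).toReal) ≤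
      ∑' j, if f j = j' then ENNReal.ofReal (Real.negMulLog (P (α ⁻¹' {j})).toReal) else 0 := by
    intro j'
    obtain ⟨A, hAe⟩ : ∃ A : Set Z, A = (fun z => f (α z)) ⁻¹' {j'} := ⟨_, rfl⟩
    have hAm : MeasurableSet A := by
      rw [hAe]
      exact hA j'
    rw [← hAe, EntropyA_term prob_le_one]
    have h1 := EntropyA_sum P α hα hAm
    calc P A * ENNReal.ofReal (-Real.log (P A).toReal)
        = (∑' j, P (A ∩ α ⁻¹' {j})) * ENNReal.ofReal (-Real.log (P A).toReal) := by rw [← h1]
      _ = ∑' j, P (A ∩ α ⁻¹' {j}) * ENNReal.ofReal (-Real.log (P A).toReal) :=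
          ENNReal.tsum_mul_right.symm
      _ ≤ _ := ENNReal.tsum_le_tsum fun j => ?_
    split_ifs with hj
    · have h2 : α ⁻¹' {j} ⊆ A := by
        intro z hz
        have hz' : α z = j := hz
        rw [hAe]
        change f (α z) = j'
        rw [hz', hj]
      rw [Set.inter_eq_right.2 h2, EntropyA_term prob_le_one]
      by_cases h0 : P (α ⁻¹' {j}) = 0
      · rw [h0]
        simp
      · refine mul_le_mul_right (ENNReal.ofReal_le_ofReal (neg_le_neg ?_)) _
        exact Real.log_le_log (ENNReal.toReal_pos h0 (measure_ne_top _ _))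
          (ENNReal.toReal_mono (measure_ne_top _ _) (measure_mono h2))
    · have h2 : A ∩ α ⁻¹' {j} = ∅ := by
        refine Set.eq_empty_of_forall_notMem ?_
        rintro z ⟨hz, hz'⟩
        have e1 : α z = j := hz'
        rw [hAe] at hz
        have e2 : f (α z) = j' := hz
        rw [e1] at e2
        exact hj e2
      rw [h2, measure_empty, zero_mul]
  calc shannon P (fun z => f (α z))
      ≤ ∑' j', ∑' j, (if f j = j' then ENNReal.ofReal (Real.negMulLog (P (α ⁻¹' {j})).toReal)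
          else 0) := ENNReal.tsum_le_tsum hterm
    _ = ∑' j, ∑' j', (if f j = j' then ENNReal.ofReal (Real.negMulLog (P (α ⁻¹' {j})).toReal)
          else 0) := ENNReal.tsum_comm
    _ = shannon P α := by
        refine tsum_congr fun j => ?_
        rw [tsum_eq_single (f j)]
        · simp
        · intro j' hj'
          rw [if_neg (Ne.symm hj')]

/-- Subadditivity. -/
theorem shannon_prod_le [Countable κ] [Countable κ'] (P : Measure Z) [IsProbabilityMeasure P]
    (α : Z → κ) (hα : ∀ j, MeasurableSet (α ⁻¹' {j}))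
    (β : Z → κ') (hβ : ∀ j, MeasurableSet (β ⁻¹' {j})) :
    shannon P (fun z => (α z, β z)) ≤ shannon P α + shannon P β := by
  have hp1 : ∀ i j, (fun z => (α z, β z)) ⁻¹' {(i, j)} = α ⁻¹' {i} ∩ β ⁻¹' {j} := by
    intro i j
    ext z
    simp
  obtain ⟨L, hL⟩ : ∃ L : ℝ≥0∞ → ℝ≥0∞, L = fun p => ENNReal.ofReal (-Real.log p.toReal) := ⟨_, rfl⟩
  have hLt : ∀ p : ℝ≥0∞, p ≤ 1 → ENNReal.ofReal (Real.negMulLog p.toReal) = p * L p := by
    intro p hp
    rw [hL]
    exact EntropyA_term hp
  obtain ⟨p, hp⟩ : ∃ p : κ → κ' → ℝ≥0∞, p = fun i j => P (α ⁻¹' {i} ∩ β ⁻¹' {j}) := ⟨_, rfl⟩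
  obtain ⟨a, ha⟩ : ∃ a : κ → ℝ≥0∞, a = fun i => P (α ⁻¹' {i}) := ⟨_, rfl⟩
  obtain ⟨b, hb⟩ : ∃ b : κ' → ℝ≥0∞, b = fun j => P (β ⁻¹' {j}) := ⟨_, rfl⟩
  have hpa : ∀ i j, p i j ≤ a i := fun i j => by
    rw [hp, ha]
    exact measure_mono Set.inter_subset_left
  have hpb : ∀ i j, p i j ≤ b j := fun i j => by
    rw [hp, hb]
    exact measure_mono Set.inter_subset_right
  have ha1 : ∀ i, a i ≤ 1 := fun i => by
    rw [ha]
    exact prob_le_one
  have hb1 : ∀ j, b j ≤ 1 := fun j => by
    rw [hb]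
    exact prob_le_one
  have hsa : ∀ i, ∑' j, p i j = a i := fun i => by
    rw [hp, ha]
    exact (EntropyA_sum P β hβ (hα i)).symm
  have hsb : ∀ j, ∑' i, p i j = b j := fun j => by
    rw [hp, hb]
    have h1 := (EntropyA_sum P α hα (hβ j)).symm
    simp only [Set.inter_comm (β ⁻¹' {j})] at h1
    exact h1
  have hta : ∑' i, a i = 1 := by
    rw [ha]
    have h1 := (EntropyA_sum P α hα MeasurableSet.univ).symm
    simp only [Set.univ_inter, measure_univ] at h1
    exact h1
  have htb : ∑' j, b j = 1 := by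
    rw [hb]
    have h1 := (EntropyA_sum P β hβ MeasurableSet.univ).symm
    simp only [Set.univ_inter, measure_univ] at h1
    exact h1
  have hHa : shannon P α = ∑' i, a i * L (a i) := by
    refine tsum_congr fun i => ?_
    rw [← hLt _ (ha1 i), ha]
  have hHb : shannon P β = ∑' j, b j * L (b j) := by
    refine tsum_congr fun j => ?_
    rw [← hLt _ (hb1 j), hb]
  have hH : shannon P (fun z => (α z, β z)) = ∑' i, ∑' j, p i j * L (p i j) := by
    unfold shannon
    rw [ENNReal.tsum_prod']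
    refine tsum_congr fun i => tsum_congr fun j => ?_
    rw [hp1, ← hLt _ ((hpa i j).trans (ha1 i)), hp]
  have e1 : ∑' i, ∑' j, p i j = 1 := by
    rw [← hta]
    exact tsum_congr hsa
  have e2 : ∑' i, ∑' j, p i j * L (a i) = shannon P α := by
    rw [hHa]
    refine tsum_congr fun i => ?_
    rw [ENNReal.tsum_mul_right, hsa]
  have e3 : ∑' i, ∑' j, p i j * L (b j) = shannon P β := by
    rw [hHb, ENNReal.tsum_comm]
    refine tsum_congr fun j => ?_
    rw [ENNReal.tsum_mul_right, hsb]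
  have e4 : ∑' i, ∑' j, a i * b j = 1 := by
    have h1 : ∀ i, ∑' j, a i * b j = a i := fun i => by
      rw [ENNReal.tsum_mul_left, htb, mul_one]
    rw [← hta]
    exact tsum_congr h1
  have key : shannon P (fun z => (α z, β z)) + 1 ≤ shannon P α + shannon P β + 1 := by
    calc shannon P (fun z => (α z, β z)) + 1
        = ∑' i, ∑' j, (p i j * L (p i j) + p i j) := by
          rw [hH, ← e1, ← ENNReal.tsum_add]
          exact tsum_congr fun i => ENNReal.tsum_add.symm
      _ ≤ ∑' i, ∑' j, (p i j * L (a i) + p i j * L (b j) + a i * b j) := by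
          refine ENNReal.tsum_le_tsum fun i => ENNReal.tsum_le_tsum fun j => ?_
          rw [hL]
          exact EntropyA_ineq (ha1 i) (hb1 j) (hpa i j) (hpb i j)
      _ = shannon P α + shannon P β + 1 := by
          have h1 : ∀ i, ∑' j, (p i j * L (a i) + p i j * L (b j) + a i * b j) =
              ∑' j, p i j * L (a i) + ∑' j, p i j * L (b j) + ∑' j, a i * b j := fun i => by
            rw [ENNReal.tsum_add, ENNReal.tsum_add]
          rw [tsum_congr h1, ENNReal.tsum_add, ENNReal.tsum_add, e2, e3, e4]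
  exact (ENNReal.add_le_add_iff_right ENNReal.one_ne_top).1 key

private theorem EntropyA_meas {ι : Type*} (α : ι → Z → κ)
    (hα : ∀ i j, MeasurableSet (α i ⁻¹' {j})) (s : Finset ι) (x : s → κ) :
    MeasurableSet ((fun (z : Z) (i : s) => α i z) ⁻¹' {x}) := by
  have h1 : (fun (z : Z) (i : s) => α i z) ⁻¹' {x} = ⋂ i : s, α i ⁻¹' {x i} := by
    ext z
    simp only [Set.mem_preimage, Set.mem_singleton_iff, Set.mem_iInter]
    exact funext_iff
  rw [h1]
  exact MeasurableSet.iInter fun i => hα i (x i)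

private theorem EntropyA_empty {ι : Type*} (P : Measure Z) [IsProbabilityMeasure P]
    (α : ι → Z → κ) : shannon P (fun (z : Z) (i : (∅ : Finset ι)) => α i z) = 0 := by
  unfold shannon
  refine ENNReal.tsum_eq_zero.2 fun x => ?_
  have h1 : (fun (z : Z) (i : (∅ : Finset ι)) => α i z) ⁻¹' {x} = Set.univ := by
    refine Set.eq_univ_of_forall fun z => ?_
    change (fun i : (∅ : Finset ι) => α i z) = x
    funext i
    exact absurd i.2 (Finset.notMem_empty _)
  rw [h1, measure_univ]
  simp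

private theorem EntropyA_step {ι : Type*} [DecidableEq ι] [Countable κ] (P : Measure Z)
    [IsProbabilityMeasure P] (α : ι → Z → κ) (hα : ∀ i j, MeasurableSet (α i ⁻¹' {j}))
    (a : ι) (s : Finset ι) :
    shannon P (fun (z : Z) (i : ↥(insert a s)) => α i z) ≤
      shannon P (fun (z : Z) (i : s) => α i z) + shannon P (α a) := by
  obtain ⟨F, hF⟩ : ∃ F : (s → κ) × κ → (↥(insert a s) → κ), F = fun x i =>
    if h : i.1 = a then x.2 else x.1 ⟨i.1, Finset.mem_of_mem_insert_of_ne i.2 h⟩ := ⟨_, rfl⟩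
  obtain ⟨γ, hγ⟩ : ∃ γ : Z → (s → κ), γ = fun (z : Z) (i : s) => α i z := ⟨_, rfl⟩
  have h1 : (fun (z : Z) (i : ↥(insert a s)) => α i z) = fun z => F (γ z, α a z) := by
    funext z i
    rw [hF, hγ]
    by_cases h : i.1 = a
    · simp [h]
    · simp [h]
  have h0 : ∀ x : s → κ, MeasurableSet (γ ⁻¹' {x}) := by
    rw [hγ]
    exact EntropyA_meas α hα s
  have h2 : ∀ y : (s → κ) × κ, MeasurableSet ((fun z => (γ z, α a z)) ⁻¹' {y}) := by
    intro y
    have h3 : (fun z => (γ z, α a z)) ⁻¹' {y} = γ ⁻¹' {y.1} ∩ α a ⁻¹' {y.2} := by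
      ext z
      simp only [Set.mem_preimage, Set.mem_singleton_iff, Set.mem_inter_iff, Prod.ext_iff]
    rw [h3]
    exact (h0 y.1).inter (hα a y.2)
  rw [h1, ← hγ]
  exact (shannon_comp_le P (fun z => (γ z, α a z)) h2 F).trans
    (shannon_prod_le P γ h0 (α a) (hα a))

private theorem EntropyA_fin {ι : Type*} [Countable κ] (P : Measure Z)
    [IsProbabilityMeasure P] (α : ι → Z → κ) (hα : ∀ i j, MeasurableSet (α i ⁻¹' {j}))
    (s : Finset ι) :
    shannon P (fun (z : Z) (i : s) => α i z) ≤ ∑ i ∈ s, shannon P (α i) := by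
  classical
  induction s using Finset.induction_on with
  | empty =>
    rw [Finset.sum_empty, EntropyA_empty]
  | insert a s ha ih =>
    rw [Finset.sum_insert ha, add_comm]
    exact (EntropyA_step P α hα a s).trans (by gcongr)

/-- Finite joins. -/
theorem shannon_pi_le {ι : Type*} [Fintype ι] [Countable κ] (P : Measure Z)
    [IsProbabilityMeasure P] (α : ι → Z → κ) (hα : ∀ i j, MeasurableSet (α i ⁻¹' {j})) :
    shannon P (fun z i => α i z) ≤ ∑ i, shannon P (α i) := by
  obtain ⟨G, hG⟩ : ∃ G : (↥(Finset.univ : Finset ι) → κ) → (ι → κ),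
    G = fun x i => x ⟨i, Finset.mem_univ i⟩ := ⟨_, rfl⟩
  obtain ⟨γ, hγ⟩ : ∃ γ : Z → (↥(Finset.univ : Finset ι) → κ),
    γ = fun (z : Z) (i : ↥(Finset.univ : Finset ι)) => α i z := ⟨_, rfl⟩
  have h1 : (fun z i => α i z) = fun z => G (γ z) := by
    rw [hG, hγ]
  have h2 : ∀ x, MeasurableSet (γ ⁻¹' {x}) := by
    rw [hγ]
    exact EntropyA_meas α hα Finset.univ
  have h3 : shannon P γ ≤ ∑ i, shannon P (α i) := by
    rw [hγ]
    exact EntropyA_fin P α hα Finset.univ
  rw [h1]
  exact (shannon_comp_le P γ h2 G).trans h3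

end Pool.Agent.RokProd
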