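import Pool.Agent.RokProd.Defs

open MeasureTheory
open scoped ENNReal

namespace Pool.Agent.RokProd

universe u

private theorem pr_nonneg_le {Z : Type*} [MeasurableSpace Z] (P : Measure Z)
    [IsProbabilityMeasure P] (s : Set Z) : 0 ≤ (P s).toReal ∧ (P s).toReal ≤ 1 := by
  refine ⟨ENNReal.toReal_nonneg, ?_⟩
  have h := ENNReal.toReal_mono ENNReal.one_ne_top (prob_le_one (μ := P) (s := s))
  simpa using h

/-- A finite partition with one cell of measure close to one has small entropy.
Plan: continuity of `Real.negMulLog` at `0` and `1`; every `{ζ = some i}` has measure `≤ δ` and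
`{ζ = none}` has measure `≥ 1 - δ`; the sum is finite (`tsum_fintype`). -/
theorem shannon_small (κ : Type) [Fintype κ] (ε : ℝ≥0∞) (hε : ε ≠ 0) :
    ∃ δ : ℝ≥0∞, δ ≠ 0 ∧ ∀ (Z : Type u) [MeasurableSpace Z] (P : Measure Z)
      [IsProbabilityMeasure P] (ζ : Z → Option κ), (∀ j, MeasurableSet (ζ ⁻¹' {j})) →
      P {z | ζ z ≠ none} ≤ δ → shannon P ζ ≤ ε := by
  classical
  have hnpos : (0 : ℝ) < (Fintype.card κ : ℝ) + 1 := by positivity
  have hmin_top : min ε 1 ≠ (⊤ : ℝ≥0∞) :=
    ne_top_of_le_ne_top ENNReal.one_ne_top (min_le_right _ _)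
  have hmin0 : min ε 1 ≠ 0 := by
    intro h
    rcases min_eq_iff.1 h with h | h
    · exact hε h.1
    · exact one_ne_zero h.1
  have he0 : 0 < (min ε 1).toReal := ENNReal.toReal_pos hmin0 hmin_top
  obtain ⟨e, he⟩ : ∃ e : ℝ, e = (min ε 1).toReal := ⟨_, rfl⟩
  rw [← he] at he0
  have heε : ENNReal.ofReal e ≤ ε := by
    rw [he, ENNReal.ofReal_toReal hmin_top]
    exact min_le_left _ _
  obtain ⟨n, hn⟩ : ∃ n : ℝ, n = (Fintype.card κ : ℝ) + 1 := ⟨_, rfl⟩
  rw [← hn] at hnpos
  have hen : 0 < e / n := div_pos he0 hnpos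
  have h0 : Filter.Tendsto Real.negMulLog (nhds 0) (nhds 0) := by
    have h := Real.continuous_negMulLog.tendsto 0
    rwa [Real.negMulLog_zero] at h
  have h1 : Filter.Tendsto Real.negMulLog (nhds 1) (nhds 0) := by
    have h := Real.continuous_negMulLog.tendsto 1
    rwa [Real.negMulLog_one] at h
  obtain ⟨d0, hd0, H0⟩ := Metric.tendsto_nhds_nhds.1 h0 (e / n) hen
  obtain ⟨d1, hd1, H1⟩ := Metric.tendsto_nhds_nhds.1 h1 (e / n) hen
  obtain ⟨d, hd⟩ : ∃ d : ℝ, d = min d0 d1 / 2 := ⟨_, rfl⟩
  have hdpos : 0 < d := by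
    rw [hd]
    exact half_pos (lt_min hd0 hd1)
  have hdd0 : d < d0 := by
    have := min_le_left d0 d1
    have := min_le_right d0 d1
    linarith
  have hdd1 : d < d1 := by
    have := min_le_left d0 d1
    have := min_le_right d0 d1
    linarith
  refine ⟨ENNReal.ofReal d, ?_, ?_⟩
  · exact (ENNReal.ofReal_pos.2 hdpos).ne'
  intro Z _ P _ ζ hζ hsmall
  have hP1 : ∀ s : Set Z, s ⊆ {z | ζ z ≠ none} → (P s).toReal ≤ d := by
    intro s hs
    have h2 : P s ≤ ENNReal.ofReal d := (measure_mono hs).trans hsmall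
    exact ENNReal.toReal_le_of_le_ofReal hdpos.le h2
  have hb : ∀ j : Option κ,
      ENNReal.ofReal (Real.negMulLog (P (ζ ⁻¹' {j})).toReal) ≤ ENNReal.ofReal (e / n) := by
    intro j
    apply ENNReal.ofReal_le_ofReal
    rcases j with _ | i
    · have hc : {z | ζ z ≠ none} = (ζ ⁻¹' {none})ᶜ := by
        ext z; simp
      have h2 := hP1 _ (le_refl _)
      have h3 : P {z | ζ z ≠ none} = 1 - P (ζ ⁻¹' {none}) := by
        rw [hc, prob_compl_eq_one_sub (hζ none)]
      have h4 : (P {z | ζ z ≠ none}).toReal = 1 - (P (ζ ⁻¹' {none})).toReal := by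
        rw [h3, ENNReal.toReal_sub_of_le prob_le_one ENNReal.one_ne_top]
        simp
      have h5 := pr_nonneg_le P (ζ ⁻¹' {none})
      have h6 : dist (P (ζ ⁻¹' {none})).toReal 1 < d1 := by
        rw [Real.dist_eq, abs_sub_comm, abs_of_nonneg (by linarith)]
        linarith
      have h7 := H1 h6
      rw [Real.dist_eq, sub_zero] at h7
      exact (le_abs_self _).trans h7.le
    · have h2 := hP1 (ζ ⁻¹' {some i}) (by
        intro z hz
        simp only [Set.mem_preimage, Set.mem_singleton_iff] at hz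
        simp [hz])
      have h5 := pr_nonneg_le P (ζ ⁻¹' {some i})
      have h6 : dist (P (ζ ⁻¹' {some i})).toReal 0 < d0 := by
        rw [Real.dist_eq, sub_zero, abs_of_nonneg h5.1]
        linarith
      have h7 := H0 h6
      rw [Real.dist_eq, sub_zero] at h7
      exact (le_abs_self _).trans h7.le
  calc shannon P ζ = ∑ j : Option κ, ENNReal.ofReal (Real.negMulLog (P (ζ ⁻¹' {j})).toReal) := by
        unfold shannon
        exact tsum_fintype _
    _ ≤ ∑ _j : Option κ, ENNReal.ofReal (e / n) := Finset.sum_le_sum fun j _ => hb j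
    _ = ENNReal.ofReal e := by
        rw [Finset.sum_const, Finset.card_univ, Fintype.card_option, nsmul_eq_mul]
        have h8 : ((Fintype.card κ + 1 : ℕ) : ℝ≥0∞) = ENNReal.ofReal n := by
          rw [hn]
          rw [← ENNReal.ofReal_natCast]
          push_cast
          rfl
        rw [h8, ← ENNReal.ofReal_mul hnpos.le, mul_div_cancel₀ _ hnpos.ne']
    _ ≤ ε := heε

/-- The tail of a partition of finite entropy has small entropy.
Plan: the value `0` has probability `P (β < K) → 1` and `negMulLog` is continuous at `1` with value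
`0` there; the other values contribute `∑' j, if K ≤ j then .. else 0`, the tail of a convergent
sum. -/
theorem shannon_tail {Z : Type*} [MeasurableSpace Z] (P : Measure Z) [IsProbabilityMeasure P]
    (β : Z → ℕ) (hβ : Measurable β) (hfin : shannon P β ≠ ⊤) (ε : ℝ≥0∞) (hε : ε ≠ 0) :
    ∃ K : ℕ, shannon P (fun z => if β z < K then 0 else β z + 1) ≤ ε := by
  have key : ∀ K : ℕ, shannon P (fun z => if β z < K then 0 else β z + 1) =
      ENNReal.ofReal (Real.negMulLog (P {z | β z < K}).toReal) +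
      ∑' j, ENNReal.ofReal (Real.negMulLog (P (β ⁻¹' {j + K})).toReal) := by
    intro K
    unfold shannon
    rw [tsum_eq_zero_add' ENNReal.summable]
    have hz : (fun z => if β z < K then 0 else β z + 1) ⁻¹' {0} = {z | β z < K} := by
      ext z
      simp only [Set.mem_preimage, Set.mem_singleton_iff, Set.mem_ofPred_eq]
      by_cases h : β z < K
      · simp [h]
      · simp [h]
    rw [hz]
    congr 1
    rw [← (ENNReal.summable : Summable fun j =>
      ENNReal.ofReal (Real.negMulLog (P ((fun z => if β z < K then 0 else β z + 1) ⁻¹'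
        {j + K + 1})).toReal)).sum_add_tsum_nat_add' (k := K)
        (f := fun j => ENNReal.ofReal (Real.negMulLog (P ((fun z => if β z < K then 0 else
          β z + 1) ⁻¹' {j + 1})).toReal))]
    have h0 : ∑ j ∈ Finset.range K, ENNReal.ofReal (Real.negMulLog (P ((fun z =>
        if β z < K then 0 else β z + 1) ⁻¹' {j + 1})).toReal) = 0 := by
      apply Finset.sum_eq_zero
      intro j hj
      have hjK : j < K := Finset.mem_range.1 hj
      have he : (fun z => if β z < K then 0 else β z + 1) ⁻¹' {j + 1} = (∅ : Set Z) := by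
        ext z
        simp only [Set.mem_preimage, Set.mem_singleton_iff, Set.mem_empty_iff_false, iff_false]
        by_cases h : β z < K
        · simp [h]
        · simp only [h, if_false]
          omega
      rw [he]
      simp
    rw [h0, zero_add]
    apply tsum_congr
    intro j
    have he : (fun z => if β z < K then 0 else β z + 1) ⁻¹' {j + K + 1} = β ⁻¹' {j + K} := by
      ext z
      simp only [Set.mem_preimage, Set.mem_singleton_iff]
      by_cases h : β z < K
      · simp only [h, if_true]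
        omega
      · simp only [h, if_false]
        omega
    rw [he]
  have hmono : Monotone (fun K : ℕ => {z | β z < K}) := by
    intro K L hKL z hz
    simp only [Set.mem_ofPred_eq] at hz ⊢
    omega
  have hun : (⋃ K : ℕ, {z | β z < K}) = (Set.univ : Set Z) := by
    ext z
    simp only [Set.mem_iUnion, Set.mem_ofPred_eq, Set.mem_univ, iff_true]
    exact ⟨β z + 1, Nat.lt_succ_self _⟩
  have hlim : Filter.Tendsto (fun K : ℕ => P {z | β z < K}) Filter.atTop (nhds 1) := by
    have h := tendsto_measure_iUnion_atTop (μ := P) hmono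
    rw [hun, measure_univ] at h
    exact h
  have hlim2 : Filter.Tendsto (fun K : ℕ => (P {z | β z < K}).toReal) Filter.atTop (nhds 1) := by
    have h := (ENNReal.tendsto_toReal ENNReal.one_ne_top).comp hlim
    rw [ENNReal.toReal_one] at h
    exact h
  have hlim3 : Filter.Tendsto (fun K : ℕ => ENNReal.ofReal (Real.negMulLog
      (P {z | β z < K}).toReal)) Filter.atTop (nhds 0) := by
    have h := (ENNReal.continuous_ofReal.tendsto _).comp
      ((Real.continuous_negMulLog.tendsto 1).comp hlim2)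
    rw [Real.negMulLog_one, ENNReal.ofReal_zero] at h
    exact h
  have hlim4 := ENNReal.tendsto_sum_nat_add
    (fun j => ENNReal.ofReal (Real.negMulLog (P (β ⁻¹' {j})).toReal)) hfin
  have hlim5 := hlim3.add hlim4
  rw [add_zero] at hlim5
  have hev := (tendsto_order.1 hlim5).2 ε (pos_iff_ne_zero.2 hε)
  obtain ⟨K, hK⟩ := hev.exists
  exact ⟨K, (key K).le.trans hK.le⟩

/-- Entropy of a partition `β` of `Y` written on a set `A` of measure `1 / k`.
Plan: `(μ.prod ν) (ρ = some j) = ν (β = j) / k`, `(μ.prod ν) (ρ = none) = 1 - 1 / k`, and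
`Real.negMulLog_mul`. -/
theorem shannon_fibre {X Y : Type*} [MeasurableSpace X] [MeasurableSpace Y] (μ : Measure X)
    [IsProbabilityMeasure μ] (ν : Measure Y) [IsProbabilityMeasure ν] (A : Set X)
    (hA : MeasurableSet A) [DecidablePred (· ∈ A)] (β : Y → ℕ) (hβ : Measurable β) :
    shannon (μ.prod ν) (fun z : X × Y => if z.1 ∈ A then some (β z.2) else none) ≤
      ENNReal.ofReal (Real.negMulLog (μ A).toReal) +
      ENNReal.ofReal (Real.negMulLog (1 - (μ A).toReal)) + μ A * shannon ν β := by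
  have hnone : (fun z : X × Y => if z.1 ∈ A then some (β z.2) else none) ⁻¹' {none} =
      Aᶜ ×ˢ Set.univ := by
    ext z
    by_cases h : z.1 ∈ A
    · simp [h]
    · simp [h]
  have hsome : ∀ j : ℕ, (fun z : X × Y => if z.1 ∈ A then some (β z.2) else none) ⁻¹'
      {some j} = A ×ˢ (β ⁻¹' {j}) := by
    intro j
    ext z
    by_cases h : z.1 ∈ A
    · simp [h]
    · simp [h]
  have hPnone : (μ.prod ν) ((fun z : X × Y => if z.1 ∈ A then some (β z.2) else none) ⁻¹'
      {none}) = 1 - μ A := by
    rw [hnone, Measure.prod_prod, measure_univ, mul_one, prob_compl_eq_one_sub hA]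
  have hPsome : ∀ j : ℕ, (μ.prod ν) ((fun z : X × Y => if z.1 ∈ A then some (β z.2) else
      none) ⁻¹' {some j}) = μ A * ν (β ⁻¹' {j}) := by
    intro j
    rw [hsome, Measure.prod_prod]
  have hsplit : shannon (μ.prod ν) (fun z : X × Y => if z.1 ∈ A then some (β z.2) else none) =
      ENNReal.ofReal (Real.negMulLog (1 - μ A).toReal) +
      ∑' j : ℕ, ENNReal.ofReal (Real.negMulLog (μ A * ν (β ⁻¹' {j})).toReal) := by
    unfold shannon
    rw [ENNReal.tsum_eq_add_tsum_ite none, hPnone]
    congr 1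
    rw [← Function.Injective.tsum_eq (Option.some_injective ℕ)]
    · apply tsum_congr
      intro j
      rw [if_neg (Option.some_ne_none j), hPsome]
    · intro o ho
      rcases o with _ | j
      · simp at ho
      · exact ⟨j, rfl⟩
  have hA1 := pr_nonneg_le μ A
  have hterm : ∀ j : ℕ, ENNReal.ofReal (Real.negMulLog (μ A * ν (β ⁻¹' {j})).toReal) =
      ENNReal.ofReal (Real.negMulLog (μ A).toReal) * ν (β ⁻¹' {j}) +
      μ A * ENNReal.ofReal (Real.negMulLog (ν (β ⁻¹' {j})).toReal) := by
    intro j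
    have hb := pr_nonneg_le ν (β ⁻¹' {j})
    have hn1 := Real.negMulLog_nonneg hA1.1 hA1.2
    have hn2 := Real.negMulLog_nonneg hb.1 hb.2
    rw [ENNReal.toReal_mul, Real.negMulLog_mul,
      ENNReal.ofReal_add (mul_nonneg hb.1 hn1) (mul_nonneg hA1.1 hn2),
      ENNReal.ofReal_mul hb.1, ENNReal.ofReal_mul hA1.1,
      ENNReal.ofReal_toReal (measure_ne_top ν _), ENNReal.ofReal_toReal (measure_ne_top μ _)]
    rw [mul_comm (ν (β ⁻¹' {j}))]
  have hone : ∑' j : ℕ, ν (β ⁻¹' {j}) = 1 := by
    rw [← measure_iUnion]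
    · have hU : (⋃ j : ℕ, β ⁻¹' {j}) = (Set.univ : Set Y) := by
        ext y
        simp
      rw [hU, measure_univ]
    · intro i j hij
      refine Set.disjoint_left.2 ?_
      intro y hy hy2
      simp only [Set.mem_preimage, Set.mem_singleton_iff] at hy hy2
      exact hij (hy.symm.trans hy2)
    · intro j
      exact hβ (measurableSet_singleton j)
  rw [hsplit]
  simp_rw [hterm]
  rw [ENNReal.tsum_add, ENNReal.tsum_mul_left, ENNReal.tsum_mul_left, hone, mul_one]
  have hsub : (1 - μ A).toReal = 1 - (μ A).toReal := by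
    rw [ENNReal.toReal_sub_of_le prob_le_one ENNReal.one_ne_top]
    simp
  rw [hsub]
  unfold shannon
  rw [← add_assoc, add_comm (ENNReal.ofReal (Real.negMulLog (1 - (μ A).toReal)))]

/-- Concavity.  Plan: `(μ.prod ν) (ω = j) = (1 / k) ∑ c, ν (W (c, ·) = j)`, concavity of
`Real.negMulLog` (`Real.concaveOn_negMulLog`, `ConcaveOn.le_map_sum`) and summation over `j`
(exchange the finite sum with the `tsum`). -/
theorem sum_shannon_le {X Y C κ : Type*} [MeasurableSpace X] [MeasurableSpace Y] [Fintype C]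
    [Nonempty C] [Countable κ] (μ : Measure X)
    [IsProbabilityMeasure μ] (ν : Measure Y) [IsProbabilityMeasure ν] (π : X → C)
    (hπ : ∀ c, MeasurableSet (π ⁻¹' {c}))
    (hμ : ∀ c, μ (π ⁻¹' {c}) = (Fintype.card C : ℝ≥0∞)⁻¹) (W : C → Y → κ)
    (hW : ∀ c j, MeasurableSet (W c ⁻¹' {j})) :
    ∑ c, shannon ν (W c) ≤
      (Fintype.card C : ℝ≥0∞) * shannon (μ.prod ν) (fun z : X × Y => W (π z.1) z.2) := by
  classical
  have hcard : (0 : ℝ) < Fintype.card C := by
    exact_mod_cast Fintype.card_pos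
  have hcard0 : (Fintype.card C : ℝ≥0∞) ≠ 0 := by
    exact_mod_cast Fintype.card_ne_zero
  have hcardtop : (Fintype.card C : ℝ≥0∞) ≠ ⊤ := ENNReal.natCast_ne_top _
  have hmeas : ∀ j : κ, (μ.prod ν) ((fun z : X × Y => W (π z.1) z.2) ⁻¹' {j}) =
      ∑ c, (Fintype.card C : ℝ≥0∞)⁻¹ * ν (W c ⁻¹' {j}) := by
    intro j
    have hset : (fun z : X × Y => W (π z.1) z.2) ⁻¹' {j} =
        ⋃ c ∈ (Finset.univ : Finset C), (π ⁻¹' {c}) ×ˢ (W c ⁻¹' {j}) := by
      ext z
      simp only [Set.mem_preimage, Set.mem_singleton_iff, Finset.mem_univ, Set.iUnion_true,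
        Set.mem_iUnion, Set.mem_prod]
      constructor
      · intro h
        exact ⟨π z.1, rfl, h⟩
      · rintro ⟨c, rfl, h⟩
        exact h
    rw [hset, measure_biUnion_finset]
    · apply Finset.sum_congr rfl
      intro c _
      rw [Measure.prod_prod, hμ c]
    · intro c _ c' _ hcc
      refine Set.disjoint_left.2 ?_
      rintro z ⟨hz1, _⟩ ⟨hz2, _⟩
      simp only [Set.mem_preimage, Set.mem_singleton_iff] at hz1 hz2
      exact hcc (hz1.symm.trans hz2)
    · intro c _
      exact (hπ c).prod (hW c j)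
  have hreal : ∀ j : κ, ((μ.prod ν) ((fun z : X × Y => W (π z.1) z.2) ⁻¹' {j})).toReal =
      ∑ c, ((Fintype.card C : ℝ)⁻¹) • (ν (W c ⁻¹' {j})).toReal := by
    intro j
    rw [hmeas j, ENNReal.toReal_sum]
    · apply Finset.sum_congr rfl
      intro c _
      rw [ENNReal.toReal_mul, ENNReal.toReal_inv]
      simp
    · intro c _
      exact ENNReal.mul_ne_top (ENNReal.inv_ne_top.2 hcard0) (measure_ne_top _ _)
  have hconc : ∀ j : κ, ∑ c, Real.negMulLog (ν (W c ⁻¹' {j})).toReal ≤
      (Fintype.card C : ℝ) * Real.negMulLog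
        ((μ.prod ν) ((fun z : X × Y => W (π z.1) z.2) ⁻¹' {j})).toReal := by
    intro j
    have h := Real.concaveOn_negMulLog.le_map_sum (t := (Finset.univ : Finset C))
      (w := fun _ => (Fintype.card C : ℝ)⁻¹) (p := fun c => (ν (W c ⁻¹' {j})).toReal)
      (fun c _ => by positivity)
      (by
        rw [Finset.sum_const, Finset.card_univ, nsmul_eq_mul, mul_inv_cancel₀ hcard.ne'])
      (fun c _ => ENNReal.toReal_nonneg)
    rw [← hreal j] at h
    have h2 := mul_le_mul_of_nonneg_left h hcard.le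
    refine le_trans (le_of_eq ?_) h2
    rw [Finset.mul_sum]
    apply Finset.sum_congr rfl
    intro c _
    rw [smul_eq_mul, ← mul_assoc, mul_inv_cancel₀ hcard.ne', one_mul]
  unfold shannon
  rw [← Summable.tsum_finsetSum (fun c _ => ENNReal.summable), ← ENNReal.tsum_mul_left]
  apply ENNReal.tsum_le_tsum
  intro j
  rw [← ENNReal.ofReal_sum_of_nonneg]
  · have h3 : (Fintype.card C : ℝ≥0∞) = ENNReal.ofReal (Fintype.card C : ℝ) :=
      (ENNReal.ofReal_natCast _).symm
    rw [h3, ← ENNReal.ofReal_mul hcard.le]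
    exact ENNReal.ofReal_le_ofReal (hconc j)
  · intro c _
    have hb := pr_nonneg_le ν (W c ⁻¹' {j})
    exact Real.negMulLog_nonneg hb.1 hb.2

end Pool.Agent.RokProd
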