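import Pool.Agent.RokProd.Defs

open MeasureTheory
open scoped ENNReal

namespace Pool.Agent.RokProd

variable {G X : Type*} [Group G] [MulAction G X] [MeasurableSpace X]

private theorem Tower.measure_fibre_smul [MeasurableConstSMul G X] (T : Tower G X)
    (μ : Measure X) [SMulInvariantMeasure G X μ] (n : ℕ) (c : G ⧸ T.H n)
    (g : G) : μ (T.π n ⁻¹' {g • c}) = μ (T.π n ⁻¹' {c}) := by
  have h : (fun x : X => g • x) ⁻¹' (T.π n ⁻¹' {g • c}) = T.π n ⁻¹' {c} := by
    ext x
    simp only [Set.mem_preimage, Set.mem_singleton_iff, T.equivariant]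
    constructor
    · intro h
      exact smul_left_cancel g h
    · intro h
      rw [h]
  rw [← h, measure_preimage_smul_of_nullMeasurableSet (T.meas n _).nullMeasurableSet]

/-- All fibres of `π n` have measure `1 / [G : H n]`. -/
theorem Tower.measure_fibre [MeasurableConstSMul G X] (T : Tower G X) (μ : Measure X)
    [IsProbabilityMeasure μ] [SMulInvariantMeasure G X μ] (n : ℕ) (c : G ⧸ T.H n) :
    μ (T.π n ⁻¹' {c}) = ((T.H n).index : ℝ≥0∞)⁻¹ := by
  classical
  haveI := T.fin n
  haveI : Fintype (G ⧸ T.H n) := Fintype.ofFinite _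
  have hall : ∀ d : G ⧸ T.H n, μ (T.π n ⁻¹' {d}) = μ (T.π n ⁻¹' {c}) := by
    intro d
    obtain ⟨g, hg⟩ := MulAction.exists_smul_eq G c d
    rw [← hg, T.measure_fibre_smul]
  have hsum : ∑ d : G ⧸ T.H n, μ (T.π n ⁻¹' {d}) = 1 := by
    rw [← measure_univ (μ := μ), ← measure_biUnion_finset]
    · congr 1
      ext x
      simp
    · intro i _ j _ hij
      refine Set.disjoint_left.2 ?_
      intro x hx hx'
      exact hij (hx.symm.trans hx')
    · intro d _
      exact T.meas n d
  rw [Finset.sum_congr rfl (fun d _ => hall d), Finset.sum_const, nsmul_eq_mul] at hsum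
  have hcard : (Finset.univ : Finset (G ⧸ T.H n)).card = (T.H n).index := by
    rw [Finset.card_univ, ← Nat.card_eq_fintype_card]
    rfl
  rw [hcard] at hsum
  exact ENNReal.eq_inv_of_mul_eq_one_left (by rw [mul_comm]; exact hsum)

end Pool.Agent.RokProd
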