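import Pool.Agent.RokProd.ApproxA
import Pool.Agent.RokProd.EntropyA
import Pool.Agent.RokProd.EntropyB
import Pool.Agent.RokProd.Tower

open MeasureTheory
open scoped ENNReal

namespace Pool.Agent.RokProd

universe u v w

variable {G : Type w} {X : Type u} {Y : Type v} [Group G] [MulAction G X] [MeasurableSpace X]
  [MeasurableSpace Y]

/-- the map between the levels -/
private theorem raise (T : Tower G X) {n m : ℕ} (h : n ≤ m) (x : X) :
    (((T.π m x).out : G) : G ⧸ T.H n) = T.π n x :=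
  (T.compat n m h x (T.π m x).out (QuotientGroup.out_eq' _).symm).symm

/-- the sets which are approximated by sets of finite level -/
private def Apx (T : Tower G X) (P : Measure (X × Y)) (s : Set (X × Y)) : Prop :=
  MeasurableSet s ∧ ∀ δ : ℝ≥0∞, δ ≠ 0 → ∃ (n : ℕ) (D : (G ⧸ T.H n) → Set Y),
    (∀ c, MeasurableSet (D c)) ∧ P (symmDiff s {z | z.2 ∈ D (T.π n z.1)}) ≤ δ

private theorem apx_compl {T : Tower G X} {P : Measure (X × Y)} {s : Set (X × Y)}
    (h : Apx T P s) : Apx T P sᶜ := by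
  refine ⟨h.1.compl, fun δ hδ => ?_⟩
  obtain ⟨n, D, hD, hP⟩ := h.2 δ hδ
  refine ⟨n, fun c => (D c)ᶜ, fun c => (hD c).compl, ?_⟩
  have h1 : {z : X × Y | z.2 ∈ (D (T.π n z.1))ᶜ} = {z : X × Y | z.2 ∈ D (T.π n z.1)}ᶜ := rfl
  rw [h1, compl_symmDiff_compl]
  exact hP

private theorem apx_empty {T : Tower G X} {P : Measure (X × Y)} : Apx T P (∅ : Set (X × Y)) := by
  refine ⟨MeasurableSet.empty, fun δ _ => ⟨0, fun _ => ∅, fun _ => MeasurableSet.empty, ?_⟩⟩
  have h1 : symmDiff (∅ : Set (X × Y)) {z : X × Y | z.2 ∈ (∅ : Set Y)} = ∅ := by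
    ext z
    simp
  rw [h1, measure_empty]
  exact zero_le

private theorem apx_union {T : Tower G X} {P : Measure (X × Y)} {s s' : Set (X × Y)}
    (h : Apx T P s) (h' : Apx T P s') : Apx T P (s ∪ s') := by
  refine ⟨h.1.union h'.1, fun δ hδ => ?_⟩
  obtain ⟨n, D, hD, hP⟩ := h.2 (δ / 2) (ENNReal.half_pos hδ).ne'
  obtain ⟨n', D', hD', hP'⟩ := h'.2 (δ / 2) (ENNReal.half_pos hδ).ne'
  refine ⟨max n n', fun c => D ((c.out : G) : G ⧸ T.H n) ∪ D' ((c.out : G) : G ⧸ T.H n'),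
    fun c => (hD _).union (hD' _), ?_⟩
  have h1 : symmDiff (s ∪ s') {z : X × Y | z.2 ∈
      D (((T.π (max n n') z.1).out : G) : G ⧸ T.H n) ∪
      D' (((T.π (max n n') z.1).out : G) : G ⧸ T.H n')} ⊆
      symmDiff s {z | z.2 ∈ D (T.π n z.1)} ∪ symmDiff s' {z | z.2 ∈ D' (T.π n' z.1)} := by
    intro z hz
    rw [Set.mem_symmDiff] at hz
    simp only [Set.mem_union, Set.mem_ofPred_eq, raise T (le_max_left n n'),
      raise T (le_max_right n n')] at hz
    rw [Set.mem_union, Set.mem_symmDiff, Set.mem_symmDiff]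
    simp only [Set.mem_ofPred_eq]
    tauto
  calc _ ≤ P (symmDiff s {z | z.2 ∈ D (T.π n z.1)} ∪ symmDiff s' {z | z.2 ∈ D' (T.π n' z.1)}) :=
        measure_mono h1
    _ ≤ _ := measure_union_le _ _
    _ ≤ δ / 2 + δ / 2 := add_le_add hP hP'
    _ = δ := ENNReal.add_halves δ

private theorem apx_iUnion {T : Tower G X} {P : Measure (X × Y)} [IsFiniteMeasure P]
    {f : ℕ → Set (X × Y)} (h : ∀ i, Apx T P (f i)) : Apx T P (⋃ i, f i) := by
  have hfin : ∀ N : ℕ, Apx T P (⋃ i ∈ Finset.range N, f i) := by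
    intro N
    induction N with
    | zero => simpa using apx_empty
    | succ N ih =>
      have h1 : (⋃ i ∈ Finset.range (N + 1), f i) = (⋃ i ∈ Finset.range N, f i) ∪ f N := by
        rw [Finset.range_add_one, Finset.set_biUnion_insert, Set.union_comm]
      rw [h1]
      exact apx_union ih (h N)
  have hm : MeasurableSet (⋃ i, f i) := MeasurableSet.iUnion fun i => (h i).1
  refine ⟨hm, fun δ hδ => ?_⟩
  obtain ⟨N, hN⟩ : ∃ N : ℕ, P ((⋃ i, f i) \ ⋃ i ∈ Finset.range N, f i) ≤ δ / 2 := by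
    have h1 : Filter.Tendsto (fun N : ℕ => P ((⋃ i, f i) \ ⋃ i ∈ Finset.range N, f i))
        Filter.atTop (nhds (P (⋂ N : ℕ, (⋃ i, f i) \ ⋃ i ∈ Finset.range N, f i))) := by
      refine tendsto_measure_iInter_atTop
        (fun N => (hm.diff (hfin N).1).nullMeasurableSet) ?_ ⟨0, measure_ne_top _ _⟩
      intro N N' hNN
      refine Set.sdiff_subset_sdiff_right ?_
      exact Set.biUnion_subset_biUnion_left fun i hi =>
        Finset.range_subset_range.2 hNN hi
    have h2 : (⋂ N : ℕ, (⋃ i, f i) \ ⋃ i ∈ Finset.range N, f i) = ∅ := by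
      rw [Set.eq_empty_iff_forall_notMem]
      intro z hz
      rw [Set.mem_iInter] at hz
      obtain ⟨i, hi⟩ := Set.mem_iUnion.1 (hz 0).1
      exact (hz (i + 1)).2 (Set.mem_biUnion (Finset.mem_coe.2 (Finset.self_mem_range_succ i)) hi)
    rw [h2, measure_empty] at h1
    obtain ⟨N, hN⟩ := ((tendsto_order.1 h1).2 (δ / 2) (ENNReal.half_pos hδ)).exists
    exact ⟨N, hN.le⟩
  obtain ⟨n, D, hD, hP⟩ := (hfin N).2 (δ / 2) (ENNReal.half_pos hδ).ne'
  refine ⟨n, D, hD, ?_⟩
  have h1 : symmDiff (⋃ i, f i) {z : X × Y | z.2 ∈ D (T.π n z.1)} ⊆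
      ((⋃ i, f i) \ ⋃ i ∈ Finset.range N, f i) ∪
        symmDiff (⋃ i ∈ Finset.range N, f i) {z | z.2 ∈ D (T.π n z.1)} := by
    intro z hz
    have h2 : z ∈ (⋃ i ∈ Finset.range N, f i) → z ∈ ⋃ i, f i := by
      intro h3
      obtain ⟨i, -, hi⟩ := Set.mem_iUnion₂.1 h3
      exact Set.mem_iUnion.2 ⟨i, hi⟩
    rw [Set.mem_symmDiff] at hz
    rw [Set.mem_union, Set.mem_symmDiff, Set.mem_sdiff]
    tauto
  calc _ ≤ P (((⋃ i, f i) \ ⋃ i ∈ Finset.range N, f i) ∪
        symmDiff (⋃ i ∈ Finset.range N, f i) {z | z.2 ∈ D (T.π n z.1)}) := measure_mono h1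
    _ ≤ _ := measure_union_le _ _
    _ ≤ δ / 2 + δ / 2 := add_le_add hN hP
    _ = δ := ENNReal.add_halves δ

private theorem apx_ae {T : Tower G X} {P : Measure (X × Y)} {s t : Set (X × Y)}
    (hs : MeasurableSet s) (h : P (symmDiff s t) = 0) (ht : Apx T P t) : Apx T P s := by
  refine ⟨hs, fun δ hδ => ?_⟩
  obtain ⟨n, D, hD, hP⟩ := ht.2 δ hδ
  refine ⟨n, D, hD, ?_⟩
  calc P (symmDiff s {z | z.2 ∈ D (T.π n z.1)}) ≤
        P (symmDiff s t ∪ symmDiff t {z | z.2 ∈ D (T.π n z.1)}) :=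
        measure_mono (symmDiff_triangle _ _ _)
    _ ≤ _ := measure_union_le _ _
    _ ≤ 0 + δ := add_le_add h.le hP
    _ = δ := zero_add δ

/-- the sets which are approximated form a sigma algebra -/
@[reducible]
private def apxSpace (T : Tower G X) (P : Measure (X × Y)) [IsFiniteMeasure P] :
    MeasurableSpace (X × Y) where
  MeasurableSet' s := Apx T P s
  measurableSet_empty := apx_empty
  measurableSet_compl _ h := apx_compl h
  measurableSet_iUnion _ h := apx_iUnion h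

/-- Measurable sets of `X × Y` are approximated by sets of finite level. -/
theorem Tower.approx_set (T : Tower G X) (μ : Measure X) [IsProbabilityMeasure μ]
    (hprof : T.Profinite μ) (ν : Measure Y) [IsProbabilityMeasure ν] (s : Set (X × Y))
    (hs : MeasurableSet s) (δ : ℝ≥0∞) (hδ : δ ≠ 0) :
    ∃ (n : ℕ) (D : (G ⧸ T.H n) → Set Y), (∀ c, MeasurableSet (D c)) ∧
      (μ.prod ν) (symmDiff s {z | z.2 ∈ D (T.π n z.1)}) ≤ δ := by
  have h1 : MeasurableSpace.comap Prod.fst inferInstance ≤ apxSpace T (μ.prod ν) := by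
    rintro _ ⟨A, hA, rfl⟩
    obtain ⟨t, ht, hAt⟩ := hprof A hA
    have h2 : MeasurableSpace.generateFrom
        {t : Set X | ∃ n, ∃ c : G ⧸ T.H n, t = T.π n ⁻¹' {c}} ≤
        MeasurableSpace.map Prod.fst (apxSpace T (μ.prod ν)) := by
      refine MeasurableSpace.generateFrom_le ?_
      rintro _ ⟨n, c, rfl⟩
      classical
      refine ⟨measurable_fst (T.meas n c), fun δ _ => ⟨n, fun c' => if c' = c then Set.univ else ∅,
        fun c' => ?_, ?_⟩⟩
      · show MeasurableSet (if c' = c then Set.univ else ∅)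
        split_ifs
        · exact MeasurableSet.univ
        · exact MeasurableSet.empty
      · have h3 : {z : X × Y | z.2 ∈ (if T.π n z.1 = c then Set.univ else ∅ : Set Y)} =
            Prod.fst ⁻¹' (T.π n ⁻¹' {c}) := by
          ext z
          simp only [Set.mem_ofPred_eq, Set.mem_preimage, Set.mem_singleton_iff]
          by_cases h : T.π n z.1 = c <;> simp [h]
        rw [h3, symmDiff_self, Set.bot_eq_empty, measure_empty]
        exact zero_le
    have h3 : Apx T (μ.prod ν) (Prod.fst ⁻¹' t) := h2 t ht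
    refine apx_ae (measurable_fst hA) ?_ h3
    have h4 : symmDiff (Prod.fst ⁻¹' A) (Prod.fst ⁻¹' t) = (symmDiff A t) ×ˢ (Set.univ : Set Y) := by
      ext z
      simp [Set.mem_symmDiff]
    rw [h4, Measure.prod_prod, measure_univ, mul_one]
    exact measure_symmDiff_eq_zero_iff.2 hAt
  have h2 : MeasurableSpace.comap Prod.snd inferInstance ≤ apxSpace T (μ.prod ν) := by
    rintro _ ⟨B, hB, rfl⟩
    refine ⟨measurable_snd hB, fun δ _ => ⟨0, fun _ => B, fun _ => hB, ?_⟩⟩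
    have h3 : {z : X × Y | z.2 ∈ B} = Prod.snd ⁻¹' B := rfl
    rw [h3, symmDiff_self, Set.bot_eq_empty, measure_empty]
    exact zero_le
  have h3 : Apx T (μ.prod ν) s := sup_le h1 h2 s hs
  exact h3.2 δ hδ

/-- A countable partition of `X × Y` is approximated by a partition of finite level, with almost
no increase of entropy. -/
theorem Tower.approx_level (T : Tower G X) (μ : Measure X) [IsProbabilityMeasure μ]
    (hprof : T.Profinite μ) (ν : Measure Y) [IsProbabilityMeasure ν] (α : X × Y → ℕ)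
    (hα : Measurable α) (η ε : ℝ≥0∞) (hη : η ≠ 0) (hε : ε ≠ 0) :
    ∃ (n : ℕ) (a : (G ⧸ T.H n) → Y → ℕ), (∀ c, Measurable (a c)) ∧
      (μ.prod ν) {z | α z ≠ a (T.π n z.1) z.2} ≤ η ∧
      shannon (μ.prod ν) (fun z : X × Y => a (T.π n z.1) z.2) ≤
        shannon (μ.prod ν) α + ε := by
  classical
  -- truncation
  obtain ⟨M, hM⟩ : ∃ M : ℕ, (μ.prod ν) {z | M < α z} ≤ η / 2 := by
    have h1 : Filter.Tendsto (fun M : ℕ => (μ.prod ν) {z | M < α z}) Filter.atTop
        (nhds ((μ.prod ν) (⋂ M : ℕ, {z | M < α z}))) := by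
      refine tendsto_measure_iInter_atTop
        (fun M => (measurableSet_lt measurable_const hα).nullMeasurableSet) ?_
        ⟨0, measure_ne_top _ _⟩
      intro M M' hMM z hz
      exact lt_of_le_of_lt hMM hz
    have h2 : (⋂ M : ℕ, {z : X × Y | M < α z}) = ∅ := by
      rw [Set.eq_empty_iff_forall_notMem]
      intro z hz
      have h3 : α z < α z := Set.mem_iInter.1 hz (α z)
      exact lt_irrefl _ h3
    rw [h2, measure_empty] at h1
    obtain ⟨M, hM⟩ := ((tendsto_order.1 h1).2 (η / 2) (ENNReal.half_pos hη)).exists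
    exact ⟨M, hM.le⟩
  obtain ⟨β, hβd⟩ : ∃ β : X × Y → ℕ, β = fun z => min (α z) M := ⟨_, rfl⟩
  have hβ : Measurable β := by
    rw [hβd]
    exact (measurable_of_countable fun a : ℕ => min a M).comp hα
  have hβM : ∀ z, β z ≤ M := fun z => by
    rw [hβd]
    exact min_le_right _ _
  have hβj : ∀ j, MeasurableSet (β ⁻¹' {j}) := fun j => hβ (measurableSet_singleton j)
  have hαβ : (μ.prod ν) {z | α z ≠ β z} ≤ η / 2 := by
    refine (measure_mono ?_).trans hM
    intro z hz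
    rw [hβd] at hz
    by_contra hcon
    exact hz (min_eq_left (not_lt.1 hcon)).symm
  have hH1 : shannon (μ.prod ν) β ≤ shannon (μ.prod ν) α := by
    rw [hβd]
    exact shannon_comp_le (μ.prod ν) α (fun j => hα (measurableSet_singleton j)) fun a => min a M
  -- the sets
  obtain ⟨δ0, hδ0, hsmall⟩ := shannon_small (Fin (M + 1)) ε hε
  obtain ⟨δ, hδ, hδη, hδδ⟩ : ∃ δ : ℝ≥0∞, δ ≠ 0 ∧ δ ≤ η / 2 ∧ δ ≤ δ0 :=
    ⟨min (η / 2) δ0, (lt_min (ENNReal.half_pos hη) (pos_iff_ne_zero.2 hδ0)).ne', min_le_left _ _,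
      min_le_right _ _⟩
  have hM0 : ((M + 1 : ℕ) : ℝ≥0∞) ≠ 0 := by
    exact_mod_cast Nat.succ_ne_zero M
  have hMt : ((M + 1 : ℕ) : ℝ≥0∞) ≠ ⊤ := ENNReal.natCast_ne_top _
  have happ : ∀ j : Fin (M + 1), ∃ (n : ℕ) (D : (G ⧸ T.H n) → Set Y),
      (∀ c, MeasurableSet (D c)) ∧
      (μ.prod ν) (symmDiff (β ⁻¹' {(j : ℕ)}) {z | z.2 ∈ D (T.π n z.1)}) ≤
        δ / ((M + 1 : ℕ) : ℝ≥0∞) := fun j =>
    T.approx_set μ hprof ν _ (hβj j) _ (ENNReal.div_pos hδ hMt).ne'
  choose nn D hD hP using happ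
  obtain ⟨n, hn⟩ : ∃ n : ℕ, ∀ j, nn j ≤ n :=
    ⟨Finset.univ.sup nn, fun j => Finset.le_sup (Finset.mem_univ j)⟩
  have hcomb : ∀ c : G ⧸ T.H n, ∃ v : Y → Fin (M + 1), Measurable v ∧
      ∀ y (j : Fin (M + 1)), (∀ i, y ∈ D i ((c.out : G) : G ⧸ T.H (nn i)) ↔ j = i) → v y = j :=
    fun c => combine inferInstance (fun i => D i ((c.out : G) : G ⧸ T.H (nn i)))
      fun i => hD i _
  choose v hv hv2 using hcomb
  obtain ⟨w, hwd⟩ : ∃ w : X × Y → Fin (M + 1), w = fun z => v (T.π n z.1) z.2 := ⟨_, rfl⟩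
  have hwβ : (μ.prod ν) {z | β z ≠ (w z : ℕ)} ≤ δ := by
    have h1 : {z | β z ≠ (w z : ℕ)} ⊆
        ⋃ j : Fin (M + 1), symmDiff (β ⁻¹' {(j : ℕ)}) {z | z.2 ∈ D j (T.π (nn j) z.1)} := by
      intro z hz
      by_contra hcon
      rw [Set.mem_iUnion, not_exists] at hcon
      apply hz
      have h2 : w z = ⟨β z, Nat.lt_succ_of_le (hβM z)⟩ := by
        rw [hwd]
        refine hv2 _ _ _ fun i => ?_
        rw [raise T (hn i)]
        have h3 := hcon i
        rw [Set.mem_symmDiff] at h3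
        simp only [Set.mem_preimage, Set.mem_singleton_iff, Set.mem_ofPred_eq] at h3
        rw [Fin.ext_iff]
        show z.2 ∈ D i (T.π (nn i) z.1) ↔ β z = (i : ℕ)
        tauto
      rw [h2]
    calc _ ≤ (μ.prod ν) (⋃ j : Fin (M + 1),
          symmDiff (β ⁻¹' {(j : ℕ)}) {z | z.2 ∈ D j (T.π (nn j) z.1)}) := measure_mono h1
      _ ≤ ∑ j : Fin (M + 1), (μ.prod ν)
          (symmDiff (β ⁻¹' {(j : ℕ)}) {z | z.2 ∈ D j (T.π (nn j) z.1)}) :=
          measure_iUnion_fintype_le _ _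
      _ ≤ ∑ _j : Fin (M + 1), δ / ((M + 1 : ℕ) : ℝ≥0∞) := Finset.sum_le_sum fun j _ => hP j
      _ = δ := by
          rw [Finset.sum_const, Finset.card_univ, Fintype.card_fin, nsmul_eq_mul,
            ENNReal.mul_div_cancel hM0 hMt]
  refine ⟨n, fun c y => (v c y : ℕ), fun c => (measurable_of_countable _).comp (hv c), ?_, ?_⟩
  · have h1 : {z : X × Y | α z ≠ (v (T.π n z.1) z.2 : ℕ)} ⊆
        {z | α z ≠ β z} ∪ {z | β z ≠ (w z : ℕ)} := by
      intro z hz
      rw [hwd]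
      by_cases h : α z = β z
      · right
        intro h2
        exact hz (h.trans h2)
      · left
        exact h
    calc _ ≤ (μ.prod ν) ({z | α z ≠ β z} ∪ {z | β z ≠ (w z : ℕ)}) := measure_mono h1
      _ ≤ _ := measure_union_le _ _
      _ ≤ η / 2 + η / 2 := add_le_add hαβ (hwβ.trans hδη)
      _ = η := ENNReal.add_halves η
  · have : Finite (G ⧸ T.H n) := by
      have := T.fin n
      infer_instance
    have hw : Measurable w := by
      refine measurable_to_countable' fun j => ?_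
      have h1 : w ⁻¹' {j} = ⋃ c : G ⧸ T.H n, (T.π n ⁻¹' {c}) ×ˢ (v c ⁻¹' {j}) := by
        ext z
        rw [hwd]
        simp
      rw [h1]
      exact MeasurableSet.iUnion fun c =>
        (T.meas n c).prod (hv c (measurableSet_singleton j))
    obtain ⟨ζ, hζd⟩ : ∃ ζ : X × Y → Option (Fin (M + 1)),
      ζ = fun z => if β z = (w z : ℕ) then none else some (w z) := ⟨_, rfl⟩
    have hζ : ∀ j, MeasurableSet (ζ ⁻¹' {j}) := by
      intro j
      have h1 : ζ ⁻¹' {j} = (fun z => (β z, w z)) ⁻¹'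
          {p : ℕ × Fin (M + 1) | (if p.1 = (p.2 : ℕ) then none else some p.2) = j} := by
        rw [hζd]
        rfl
      rw [h1]
      exact (hβ.prodMk hw) (Set.to_countable _).measurableSet
    have h1 : {z | ζ z ≠ none} ⊆ {z | β z ≠ (w z : ℕ)} := by
      intro z hz h
      apply hz
      rw [hζd]
      exact if_pos h
    have h2 : shannon (μ.prod ν) ζ ≤ ε :=
      hsmall (X × Y) (μ.prod ν) ζ hζ ((measure_mono h1).trans (hwβ.trans hδδ))
    have h3 : shannon (μ.prod ν) (fun z => (β z, ζ z)) ≤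
        shannon (μ.prod ν) β + shannon (μ.prod ν) ζ :=
      shannon_prod_le (μ.prod ν) β hβj ζ hζ
    have h4 : shannon (μ.prod ν) (fun z : X × Y => (v (T.π n z.1) z.2 : ℕ)) ≤
        shannon (μ.prod ν) (fun z => (β z, ζ z)) := by
      obtain ⟨F, hF⟩ : ∃ F : ℕ × Option (Fin (M + 1)) → ℕ,
        F = fun p => p.2.elim p.1 fun j => (j : ℕ) := ⟨_, rfl⟩
      have h5 : (fun z : X × Y => (v (T.π n z.1) z.2 : ℕ)) = fun z => F (β z, ζ z) := by
        funext z
        have h6 : (v (T.π n z.1) z.2 : ℕ) = (w z : ℕ) := by rw [hwd]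
        rw [h6, hζd, hF]
        by_cases h : β z = (w z : ℕ)
        · simp [h]
        · simp [h]
      rw [h5]
      refine shannon_comp_le (μ.prod ν) (fun z => (β z, ζ z)) (fun j => ?_) F
      have h6 : (fun z => (β z, ζ z)) ⁻¹' {j} = β ⁻¹' {j.1} ∩ ζ ⁻¹' {j.2} := by
        ext z
        simp [Prod.ext_iff]
      rw [h6]
      exact (hβj _).inter (hζ _)
    calc _ ≤ shannon (μ.prod ν) (fun z => (β z, ζ z)) := h4
      _ ≤ shannon (μ.prod ν) β + shannon (μ.prod ν) ζ := h3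
      _ ≤ shannon (μ.prod ν) α + ε := add_le_add hH1 h2

end Pool.Agent.RokProd
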