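import Mathlib

namespace Pool.Agent.RokProd

/-- The indices of a decreasing chain of finite index subgroups with trivial intersection in an
infinite group tend to infinity. -/
theorem tendsto_index {G : Type*} [Group G] [Infinite G] (N : ℕ → Subgroup G)
    (hfin : ∀ n, (N n).FiniteIndex) (hanti : Antitone N)
    (htriv : ∀ g : G, (∀ n, g ∈ N n) → g = 1) :
    Filter.Tendsto (fun n => (N n).index) Filter.atTop Filter.atTop := by
  classical
  rw [Filter.tendsto_atTop]
  intro B
  obtain ⟨s, hs⟩ := Infinite.exists_subset_card_eq G B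
  have hev : ∀ p ∈ s ×ˢ s, ∀ᶠ n in Filter.atTop, p.1 ≠ p.2 → p.1⁻¹ * p.2 ∉ N n := by
    intro p _
    by_cases hp : p.1 = p.2
    · exact Filter.Eventually.of_forall fun n h => absurd hp h
    · have hex : ¬ ∀ n, p.1⁻¹ * p.2 ∈ N n := by
        intro hcon
        have := htriv _ hcon
        rw [inv_mul_eq_one] at this
        exact hp this
      obtain ⟨n0, hn0⟩ := not_forall.1 hex
      filter_upwards [Filter.eventually_ge_atTop n0] with n hn _ hmem
      exact hn0 (hanti hn hmem)
  have hall := (Filter.eventually_all_finset (s ×ˢ s)).2 hev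
  filter_upwards [hall] with n hn
  have := hfin n
  have hinj : Set.InjOn (QuotientGroup.mk : G → G ⧸ N n) (s : Set G) := by
    intro a ha b hb hab
    by_contra hne
    refine hn (a, b) (Finset.mk_mem_product ha hb) hne ?_
    exact QuotientGroup.eq.1 hab
  have hfinq : Finite (G ⧸ N n) := inferInstance
  have := Fintype.ofFinite (G ⧸ N n)
  rw [← hs, ← Finset.card_image_of_injOn hinj]
  have h2 : (N n).index = Fintype.card (G ⧸ N n) := by
    rw [← Nat.card_eq_fintype_card]
    rfl
  rw [h2]
  exact Finset.card_le_univ _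

/-- In an infinite countable residually finite group, below every finite index subgroup there is a
decreasing chain of normal finite index subgroups with trivial intersection; its indices tend to
infinity. -/
theorem exists_chain (G : Type*) [Group G] [Countable G] [Infinite G]
    (hrf : ∀ g : G, g ≠ 1 → ∃ N : Subgroup G, N.Normal ∧ N.FiniteIndex ∧ g ∉ N)
    (H : Subgroup G) (hH : H.FiniteIndex) :
    ∃ N : ℕ → Subgroup G, (∀ n, (N n).Normal) ∧ (∀ n, (N n).FiniteIndex) ∧ Antitone N ∧
      Filter.Tendsto (fun n => (N n).index) Filter.atTop Filter.atTop ∧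
      (∀ g : G, (∀ n, g ∈ N n) → g = 1) ∧ N 0 ≤ H := by
  classical
  obtain ⟨e, he⟩ := exists_surjective_nat G
  have hM : ∀ g : G, ∃ N : Subgroup G, N.Normal ∧ N.FiniteIndex ∧ (g ≠ 1 → g ∉ N) := by
    intro g
    by_cases hg : g = 1
    · exact ⟨⊤, inferInstance, inferInstance, fun h => absurd hg h⟩
    · obtain ⟨N, h1, h2, h3⟩ := hrf g hg
      exact ⟨N, h1, h2, fun _ => h3⟩
  choose M hM1 hM2 hM3 using hM
  obtain ⟨N, hN0, hNs⟩ : ∃ N : ℕ → Subgroup G, N 0 = H.normalCore ∧
      ∀ n, N (n + 1) = N n ⊓ M (e n) :=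
    ⟨fun n => Nat.rec H.normalCore (fun n K => K ⊓ M (e n)) n, rfl, fun n => rfl⟩
  have hnorm : ∀ n, (N n).Normal := by
    intro n
    induction n with
    | zero => rw [hN0]; infer_instance
    | succ n ih =>
      rw [hNs]
      have h1 : (M (e n)).Normal := hM1 (e n)
      have h2 : (N n).Normal := ih
      exact Subgroup.normal_inf_normal (N n) (M (e n))
  have hfin : ∀ n, (N n).FiniteIndex := by
    intro n
    induction n with
    | zero => rw [hN0]; infer_instance
    | succ n ih =>
      rw [hNs]
      have := hM2 (e n)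
      infer_instance
  have hanti : Antitone N := by
    refine antitone_nat_of_succ_le fun n => ?_
    rw [hNs]
    exact inf_le_left
  have htriv : ∀ g : G, (∀ n, g ∈ N n) → g = 1 := by
    intro g hg
    by_contra hne
    obtain ⟨i, rfl⟩ := he g
    have h1 := hg (i + 1)
    rw [hNs] at h1
    exact hM3 (e i) hne h1.2
  refine ⟨N, hnorm, hfin, hanti, tendsto_index N hfin hanti htriv, htriv, ?_⟩
  rw [hN0]
  exact Subgroup.normalCore_le H

/-- A finitely generated group has finitely many subgroups of a given finite index. -/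
theorem finite_index_eq (G : Type*) [Group G] [hfg : Group.FG G] (n : ℕ) (hn : n ≠ 0) :
    {H : Subgroup G | H.index = n}.Finite := by
  classical
  obtain ⟨S, hS⟩ := hfg.out
  have he : ∀ H : {H : Subgroup G | H.index = n}, Nonempty ((G ⧸ (H : Subgroup G)) ≃ Fin n) := by
    rintro ⟨H, hH⟩
    have h1 : Nat.card (G ⧸ H) = n := hH
    have h2 : Finite (G ⧸ H) := by
      refine Nat.finite_of_card_ne_zero ?_
      rw [h1]
      exact hn
    exact ⟨Finite.equivFinOfCardEq h1⟩
  let e := fun H => (he H).some
  let φ : ∀ H : {H : Subgroup G | H.index = n}, G →* Equiv.Perm (Fin n) := fun H =>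
    ((e H).permCongrHom).toMonoidHom.comp (MulAction.toPermHom G (G ⧸ (H : Subgroup G)))
  let D : {H : Subgroup G | H.index = n} → Fin n × (S → Equiv.Perm (Fin n)) := fun H =>
    (e H ((1 : G) : G ⧸ (H : Subgroup G)), fun s => φ H s)
  have hmem : ∀ (H : {H : Subgroup G | H.index = n}) (g : G), g ∈ (H : Subgroup G) ↔
      φ H g (D H).1 = (D H).1 := by
    intro H g
    have h1 : φ H g (D H).1 = e H (g : G ⧸ (H : Subgroup G)) := by
      simp only [φ, D, MonoidHom.comp_apply]
      show (e H) (g • (e H).symm ((e H) _)) = _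
      rw [Equiv.symm_apply_apply, MulAction.Quotient.smul_coe, smul_eq_mul, mul_one]
    rw [h1]
    show _ ↔ e H (g : G ⧸ (H : Subgroup G)) = e H ((1 : G) : G ⧸ (H : Subgroup G))
    rw [(e H).injective.eq_iff, eq_comm, QuotientGroup.eq, inv_one, one_mul]
  have hinj : Function.Injective D := by
    intro H K hHK
    have h1 : (D H).1 = (D K).1 := by rw [hHK]
    have h2 : φ H = φ K := by
      refine MonoidHom.eq_of_eqOn_dense hS ?_
      intro s hs
      have := congrFun (congrArg Prod.snd hHK) ⟨s, hs⟩
      exact this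
    apply Subtype.ext
    ext g
    rw [hmem H g, hmem K g, h1, h2]
  exact Finite.of_injective D hinj

/-- In an infinite finitely generated residually finite group there is a decreasing chain of
normal finite index subgroups with trivial intersection which is cofinal among all finite index
subgroups. -/
theorem exists_cofinal_chain (G : Type*) [Group G] [Group.FG G] [Infinite G]
    (hrf : ∀ g : G, g ≠ 1 → ∃ N : Subgroup G, N.Normal ∧ N.FiniteIndex ∧ g ∉ N) :
    ∃ N : ℕ → Subgroup G, (∀ n, (N n).Normal) ∧ (∀ n, (N n).FiniteIndex) ∧ Antitone N ∧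
      Filter.Tendsto (fun n => (N n).index) Filter.atTop Filter.atTop ∧
      (∀ g : G, (∀ n, g ∈ N n) → g = 1) ∧
      ∀ H : Subgroup G, H.FiniteIndex → ∃ n, N n ≤ H := by
  classical
  have hfinset : ∀ n : ℕ, Finite {H : Subgroup G // H.index ≠ 0 ∧ H.index ≤ n} := by
    intro n
    have h1 : (⋃ i ∈ Finset.Icc 1 n, {H : Subgroup G | H.index = i}).Finite := by
      refine Set.Finite.biUnion (Finset.finite_toSet _) fun i hi => ?_
      refine finite_index_eq G i ?_
      have := Finset.mem_Icc.1 hi
      omega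
    have h2 : {H : Subgroup G | H.index ≠ 0 ∧ H.index ≤ n} ⊆
        ⋃ i ∈ Finset.Icc 1 n, {H : Subgroup G | H.index = i} := by
      rintro H ⟨hH1, hH2⟩
      simp only [Set.mem_iUnion]
      refine ⟨H.index, Finset.mem_Icc.2 ⟨?_, hH2⟩, rfl⟩
      omega
    exact (h1.subset h2).to_subtype
  let N : ℕ → Subgroup G := fun n =>
    ⨅ H : {H : Subgroup G // H.index ≠ 0 ∧ H.index ≤ n}, (H : Subgroup G).normalCore
  have hle : ∀ (n : ℕ) (H : Subgroup G), H.index ≠ 0 → H.index ≤ n → N n ≤ H := by
    intro n H h1 h2
    refine (iInf_le (fun H : {H : Subgroup G // H.index ≠ 0 ∧ H.index ≤ n} =>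
      (H : Subgroup G).normalCore) ⟨H, h1, h2⟩).trans ?_
    exact Subgroup.normalCore_le H
  have hnorm : ∀ n, (N n).Normal := by
    intro n
    exact Subgroup.normal_iInf_normal fun H => inferInstance
  have hfin : ∀ n, (N n).FiniteIndex := by
    intro n
    have := hfinset n
    have h1 : ∀ H : {H : Subgroup G // H.index ≠ 0 ∧ H.index ≤ n},
        ((H : Subgroup G).normalCore).FiniteIndex := by
      intro H
      have : (H : Subgroup G).FiniteIndex := ⟨H.2.1⟩
      infer_instance
    exact Subgroup.finiteIndex_iInf h1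
  have hanti : Antitone N := by
    intro n m hnm
    refine le_iInf fun H => ?_
    exact iInf_le (fun H : {H : Subgroup G // H.index ≠ 0 ∧ H.index ≤ m} =>
      (H : Subgroup G).normalCore) ⟨H, H.2.1, H.2.2.trans hnm⟩
  have htriv : ∀ g : G, (∀ n, g ∈ N n) → g = 1 := by
    intro g hg
    by_contra hne
    obtain ⟨K, _, hK, hgK⟩ := hrf g hne
    exact hgK (hle K.index K hK.index_ne_zero le_rfl (hg _))
  exact ⟨N, hnorm, hfin, hanti, tendsto_index N hfin hanti htriv, htriv,
    fun H hH => ⟨H.index, hle _ H hH.index_ne_zero le_rfl⟩⟩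

end Pool.Agent.RokProd
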