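import Mathlib

/-!
# Rokhlin entropy: definitions

`shannon P α` is the Shannon entropy of the countable partition of the probability space `(Z, P)`
into the fibres of `α : Z → κ`.  The partition is generating for an action of `G` if every
measurable set agrees up to a null set with a set which is determined in a measurable way by the
itinerary `g ↦ α (g • z)`.  `rok G P` is the Rokhlin entropy.  A `Tower` is a chain of finite index
subgroups with compatible factor maps to the finite `G`-sets `G ⧸ H n`.
-/

open MeasureTheory
open scoped ENNReal

namespace Pool.Agent.RokProd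

/-- Shannon entropy of the partition of `(Z, P)` into the fibres of `α`. -/
noncomputable def shannon {Z κ : Type*} [MeasurableSpace Z] (P : Measure Z) (α : Z → κ) : ℝ≥0∞ :=
  ∑' j : κ, ENNReal.ofReal (Real.negMulLog (P (α ⁻¹' {j})).toReal)

/-- The partition into the fibres of `α` is generating for the action of `G` on `(Z, P)`: every
measurable set is, up to a null set, of the form `{z | (g ↦ α (g • z)) ∈ S}` with `S` measurable
(these are exactly the sets of the smallest `G`-invariant `σ`-algebra containing the fibres). -/
def Generating (G : Type*) {Z κ : Type*} [Group G] [MulAction G Z] [MeasurableSpace Z]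
    [MeasurableSpace κ] (P : Measure Z) (α : Z → κ) : Prop :=
  ∀ s : Set Z, MeasurableSet s → ∃ S : Set (G → κ), MeasurableSet S ∧
    s =ᵐ[P] {z | (fun g : G => α (g • z)) ∈ S}

/-- Rokhlin entropy of the action of `G` on `(Z, P)`: the infimum of the Shannon entropies of the
countable generating partitions. -/
noncomputable def rok (G : Type*) {Z : Type*} [Group G] [MulAction G Z] [MeasurableSpace Z]
    (P : Measure Z) : ℝ≥0∞ :=
  ⨅ (α : Z → ℕ) (_ : Measurable α) (_ : Generating G P α), shannon P α

/-- The action of the countable group `G` on `(Z, P)` is (essentially) free. -/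
def EssFree (G : Type*) {Z : Type*} [Group G] [MulAction G Z] [MeasurableSpace Z]
    (P : Measure Z) : Prop := ∀ g : G, g ≠ 1 → ∀ᵐ z ∂P, g • z ≠ z

/-- A decreasing chain of finite index subgroups `H n` of `G`, of index tending to infinity, with
compatible measurable equivariant maps `π n : X → G ⧸ H n`. -/
structure Tower (G X : Type*) [Group G] [MulAction G X] [MeasurableSpace X] where
  /-- the subgroups -/
  H : ℕ → Subgroup G
  anti : Antitone H
  fin : ∀ n, (H n).FiniteIndex
  tend : Filter.Tendsto (fun n => (H n).index) Filter.atTop Filter.atTop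
  /-- the factor maps -/
  π : ∀ n, X → G ⧸ H n
  meas : ∀ n (c : G ⧸ H n), MeasurableSet (π n ⁻¹' {c})
  equivariant : ∀ n (g : G) (x : X), π n (g • x) = g • π n x
  compat : ∀ n m, n ≤ m → ∀ (x : X) (g : G), π m x = (g : G ⧸ H m) → π n x = (g : G ⧸ H n)

/-- The maps `π n` generate the `σ`-algebra of `X` up to null sets: `X` is the profinite action
attached to the chain. -/
def Tower.Profinite {G X : Type*} [Group G] [MulAction G X] [MeasurableSpace X] (T : Tower G X)
    (μ : Measure X) : Prop :=
  ∀ s : Set X, MeasurableSet s → ∃ t : Set X,
    MeasurableSet[MeasurableSpace.generateFrom {t | ∃ n, ∃ c : G ⧸ T.H n, t = T.π n ⁻¹' {c}}] t ∧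
      s =ᵐ[μ] t

/-- The fibre of `π n` over the trivial coset. -/
def Tower.A {G Z : Type*} [Group G] [MulAction G Z] [MeasurableSpace Z] (T : Tower G Z) (n : ℕ) :
    Set Z := T.π n ⁻¹' {((1 : G) : G ⧸ T.H n)}

end Pool.Agent.RokProd
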