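import Pool.Agent.RokProd.Tower
import Mathlib.Dynamics.Ergodic.Action.Basic

open MeasureTheory
open scoped ENNReal

namespace Pool.Agent.RokProd

private theorem ErgProd_swap {X Y : Type*} [MeasurableSpace X] [MeasurableSpace Y] (μ : Measure X)
    [SFinite μ] (ν : Measure Y) [SFinite ν] {s t : Set (X × Y)} (hs : MeasurableSet s)
    (ht : MeasurableSet t) (h : s =ᵐ[μ.prod ν] t) :
    ∀ᵐ y ∂ν, ((fun x => (x, y)) ⁻¹' s : Set X) =ᵐ[μ] ((fun x => (x, y)) ⁻¹' t : Set X) := by
  have hD : MeasurableSet (symmDiff s t) := hs.symmDiff ht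
  have h0 : (μ.prod ν) (symmDiff s t) = 0 := measure_symmDiff_eq_zero_iff.2 h
  rw [Measure.prod_apply_symm hD, lintegral_eq_zero_iff (measurable_measure_prodMk_right hD)] at h0
  filter_upwards [h0] with y hy
  exact measure_symmDiff_eq_zero_iff.1 hy

private theorem ErgProd_sum {G X : Type*} [Group G] [MulAction G X] [MeasurableSpace X]
    (T : Tower G X) (μ : Measure X) (n : ℕ) [Fintype (G ⧸ T.H n)] {A : Set X}
    (hA : MeasurableSet A) : μ A = ∑ c : G ⧸ T.H n, μ (A ∩ T.π n ⁻¹' {c}) := by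
  rw [← measure_biUnion_finset]
  · congr 1
    ext x
    simp
  · intro i _ j _ hij
    exact Set.disjoint_left.2 fun x hx hx' => hij (hx.2.symm.trans hx'.2)
  · intro c _
    exact hA.inter (T.meas n c)

private theorem ErgProd_equi {G X Y : Type*} [Group G] [MulAction G X]
    [MulAction G Y] [MeasurableSpace X] [MeasurableSpace Y] [MeasurableConstSMul G X]
    [MeasurableConstSMul G Y] (T : Tower G X) (μ : Measure X) [IsProbabilityMeasure μ]
    [SMulInvariantMeasure G X μ] (ν : Measure Y) [IsProbabilityMeasure ν]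
    {s : Set (X × Y)} (hs : MeasurableSet s)
    (hinv : ∀ g : G, (fun z : X × Y => g • z) ⁻¹' s =ᵐ[μ.prod ν] s) (n : ℕ) (g : G)
    (c : G ⧸ T.H n) :
    ∀ᵐ y ∂ν, μ ((fun x => (x, g • y)) ⁻¹' s ∩ T.π n ⁻¹' {g • c}) =
      μ ((fun x => (x, y)) ⁻¹' s ∩ T.π n ⁻¹' {c}) := by
  have hm : Measurable fun z : X × Y => g • z :=
    ((measurable_const_smul g).comp measurable_fst).prodMk
      ((measurable_const_smul g).comp measurable_snd)
  filter_upwards [ErgProd_swap μ ν (hm hs) hs (hinv g)] with y hy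
  have hms : MeasurableSet ((fun x => (x, g • y)) ⁻¹' s : Set X) := measurable_prodMk_right hs
  have h1 := SMulInvariantMeasure.measure_preimage_smul (μ := μ) g (hms.inter (T.meas n (g • c)))
  have h2 : (fun x : X => g • x) ⁻¹' ((fun x => (x, g • y)) ⁻¹' s ∩ T.π n ⁻¹' {g • c}) =
      (fun x => (x, y)) ⁻¹' ((fun z : X × Y => g • z) ⁻¹' s) ∩ T.π n ⁻¹' {c} := by
    ext x
    have e1 : T.π n (g • x) = g • c ↔ T.π n x = c := by
      rw [T.equivariant]
      exact ⟨fun h => smul_left_cancel g h, fun h => by rw [h]⟩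
    exact and_congr Iff.rfl e1
  rw [← h1, h2]
  exact measure_congr (hy.inter (ae_eq_refl _))

private theorem ErgProd_const {G X Y : Type*} [Group G] [MulAction G X]
    [MulAction G Y] [MeasurableSpace X] [MeasurableSpace Y] [MeasurableConstSMul G X]
    [MeasurableConstSMul G Y] (T : Tower G X) (μ : Measure X) [IsProbabilityMeasure μ]
    [SMulInvariantMeasure G X μ] (ν : Measure Y) [IsProbabilityMeasure ν]
    [SMulInvariantMeasure G Y ν] (herg : ∀ n, ErgodicSMul (T.H n) Y ν)
    {s : Set (X × Y)} (hs : MeasurableSet s)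
    (hinv : ∀ g : G, (fun z : X × Y => g • z) ⁻¹' s =ᵐ[μ.prod ν] s) (n : ℕ) :
    ∃ a : ℝ≥0∞, ∀ c : G ⧸ T.H n,
      ∀ᵐ y ∂ν, μ ((fun x => (x, y)) ⁻¹' s ∩ T.π n ⁻¹' {c}) = a := by
  have hu : ∀ c : G ⧸ T.H n,
      Measurable fun y : Y => μ ((fun x => (x, y)) ⁻¹' s ∩ T.π n ⁻¹' {c}) := fun c =>
    measurable_measure_prodMk_right (hs.inter (measurable_fst (T.meas n c)))
  obtain ⟨a, ha⟩ := Filter.exists_eventuallyEq_const_of_forall_separating (l := ae ν)
    (f := fun y : Y => μ ((fun x => (x, y)) ⁻¹' s ∩ T.π n ⁻¹' {((1 : G) : G ⧸ T.H n)}))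
    MeasurableSet (fun U hU => by
      have hV := hu ((1 : G) : G ⧸ T.H n) hU
      have hc := (herg n).aeconst_of_forall_preimage_smul_ae_eq hV (fun h => by
        have h1 := ErgProd_equi T μ ν hs hinv n (h : G) ((1 : G) : G ⧸ T.H n)
        have h2 : (h : G) • ((1 : G) : G ⧸ T.H n) = ((1 : G) : G ⧸ T.H n) := by
          show (((h : G) * 1 : G) : G ⧸ T.H n) = ((1 : G) : G ⧸ T.H n)
          rw [mul_one, QuotientGroup.eq]
          simp
        filter_upwards [h1] with y hy
        rw [h2] at hy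
        have h3 : (fun y : Y => μ ((fun x => (x, y)) ⁻¹' s ∩ T.π n ⁻¹' {((1 : G) : G ⧸ T.H n)}))
          (h • y) = (fun y : Y => μ ((fun x => (x, y)) ⁻¹' s ∩
            T.π n ⁻¹' {((1 : G) : G ⧸ T.H n)})) y := hy
        exact propext (by
          show (_ ∈ U) ↔ (_ ∈ U)
          rw [h3]))
      rcases Filter.eventuallyConst_set'.1 hc with h | h
      · right
        filter_upwards [h] with y hy hyU
        exact (iff_of_eq hy).1 hyU
      · left
        filter_upwards [h] with y hy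
        exact (iff_of_eq hy).2 trivial)
  refine ⟨a, fun c => ?_⟩
  obtain ⟨g, rfl⟩ := QuotientGroup.mk_surjective c
  have h1 := ErgProd_equi T μ ν hs hinv n g ((1 : G) : G ⧸ T.H n)
  have h2 : g • ((1 : G) : G ⧸ T.H n) = (g : G ⧸ T.H n) := by
    show (((g * 1 : G)) : G ⧸ T.H n) = g
    rw [mul_one]
  have h3 : ∀ᵐ y ∂ν, μ ((fun x => (x, g • y)) ⁻¹' s ∩ T.π n ⁻¹' {(g : G ⧸ T.H n)}) = a := by
    filter_upwards [h1, ha] with y hy hy'
    rw [← h2, hy]
    exact hy'
  have h4 := (measurePreserving_smul g⁻¹ ν).quasiMeasurePreserving.ae h3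
  filter_upwards [h4] with y hy
  rw [smul_inv_smul] at hy
  exact hy

/-- The product of a profinite action with an action for which all the `T.H n` are ergodic is
ergodic.
Proof: let `s ⊆ X × Y` be measurable and almost invariant, and for a coset `c` let
`u c y = μ ({x | (x, y) ∈ s} ∩ π n ⁻¹' {c})`.  For all `g`, `u (g • c) (g • y) = u c y` for almost
all `y`, so `u 1` is almost invariant under `T.H n`, hence constant almost everywhere (level sets),
and all `u c` are equal to the same constant; summing over `c`, `μ (s_y)` is almost everywhere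
equal to the constant `p = (μ.prod ν) s`, and `μ (s_y ∩ π n ⁻¹' {c}) = p * μ (π n ⁻¹' {c})` for
almost all `y` and all `n`, `c`.  The sets `π n ⁻¹' {c}` and the empty set form a `π`-system
generating the `σ`-algebra up to null sets (`T.compat`), so `μ (s_y ∩ t) = p * μ t` for all
measurable `t`; with `t = s_y`: `p = p * p`, so `p = 0` or `p = 1`. -/
theorem Tower.ergodic_prod {G X Y : Type*} [Group G] [Countable G] [MulAction G X]
    [MulAction G Y] [MeasurableSpace X] [MeasurableSpace Y] [MeasurableConstSMul G X]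
    [MeasurableConstSMul G Y] (T : Tower G X) (μ : Measure X) [IsProbabilityMeasure μ]
    [SMulInvariantMeasure G X μ] (hprof : T.Profinite μ) (ν : Measure Y)
    [IsProbabilityMeasure ν] [SMulInvariantMeasure G Y ν]
    (herg : ∀ n, ErgodicSMul (T.H n) Y ν) : ErgodicSMul G (X × Y) (μ.prod ν) := by
  have hsm : SMulInvariantMeasure G (X × Y) (μ.prod ν) := ⟨fun g s hs =>
    ((measurePreserving_smul g μ).prod (measurePreserving_smul g ν)).measure_preimage
      hs.nullMeasurableSet⟩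
  refine ⟨fun {s} hs hinv => ?_⟩
  obtain ⟨p, hp⟩ : ∃ p, p = (μ.prod ν) s := ⟨_, rfl⟩
  -- the measures of the pieces
  have key : ∀ n, (∀ᵐ y ∂ν, μ ((fun x => (x, y)) ⁻¹' s) = p) ∧
      ∀ c : G ⧸ T.H n, ∀ᵐ y ∂ν, μ ((fun x => (x, y)) ⁻¹' s ∩ T.π n ⁻¹' {c}) =
        p * μ (T.π n ⁻¹' {c}) := by
    intro n
    have := T.fin n
    have : Fintype (G ⧸ T.H n) := Fintype.ofFinite _
    obtain ⟨a, ha⟩ := ErgProd_const T μ ν herg hs hinv n
    have hsum : ∀ᵐ y ∂ν, μ ((fun x => (x, y)) ⁻¹' s) = ((T.H n).index : ℝ≥0∞) * a := by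
      have hall : ∀ᵐ y ∂ν, ∀ c : G ⧸ T.H n,
          μ ((fun x => (x, y)) ⁻¹' s ∩ T.π n ⁻¹' {c}) = a := ae_all_iff.2 ha
      filter_upwards [hall] with y hy
      rw [ErgProd_sum T μ n (measurable_prodMk_right hs), Finset.sum_congr rfl fun c _ => hy c,
        Finset.sum_const, nsmul_eq_mul]
      congr 1
      rw [Finset.card_univ, ← Nat.card_eq_fintype_card]
      rfl
    have hpa : p = ((T.H n).index : ℝ≥0∞) * a := by
      rw [hp, Measure.prod_apply_symm hs, lintegral_congr_ae hsum, lintegral_const, measure_univ,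
        mul_one]
    refine ⟨by rw [hpa]; exact hsum, fun c => ?_⟩
    filter_upwards [ha c] with y hy
    rw [hy, T.measure_fibre μ n c, hpa, mul_comm ((T.H n).index : ℝ≥0∞) a, mul_assoc,
      ENNReal.mul_inv_cancel _ (ENNReal.natCast_ne_top _), mul_one]
    exact_mod_cast (T.fin n).index_ne_zero
  have hall : ∀ᵐ y ∂ν, ∀ n, ∀ c : G ⧸ T.H n,
      μ ((fun x => (x, y)) ⁻¹' s ∩ T.π n ⁻¹' {c}) = p * μ (T.π n ⁻¹' {c}) := by
    refine ae_all_iff.2 fun n => ?_
    have := T.fin n
    exact ae_all_iff.2 (key n).2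
  obtain ⟨y, hy1, hy2⟩ := ((key 0).1.and hall).exists
  have hms : MeasurableSet ((fun x => (x, y)) ⁻¹' s : Set X) := measurable_prodMk_right hs
  obtain ⟨C, hC⟩ : ∃ C : Set (Set X), C = {t | ∃ n, ∃ c : G ⧸ T.H n, t = T.π n ⁻¹' {c}} := ⟨_, rfl⟩
  obtain ⟨t, ht, hst⟩ := hprof _ hms
  have hle : MeasurableSpace.generateFrom C ≤ (inferInstance : MeasurableSpace X) := by
    refine MeasurableSpace.generateFrom_le fun t ht => ?_
    rw [hC] at ht
    obtain ⟨n, c, rfl⟩ := ht
    exact T.meas n c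
  have hpi : IsPiSystem C := by
    rw [hC]
    have aux : ∀ n m, n ≤ m → ∀ (c : G ⧸ T.H n) (d : G ⧸ T.H m),
        (T.π n ⁻¹' {c} ∩ T.π m ⁻¹' {d}).Nonempty → T.π n ⁻¹' {c} ∩ T.π m ⁻¹' {d} = T.π m ⁻¹' {d} := by
      rintro n m hnm c d ⟨x, hx1, hx2⟩
      refine Set.inter_eq_right.2 fun x' hx' => ?_
      obtain ⟨g, rfl⟩ := QuotientGroup.mk_surjective d
      have h1 := T.compat n m hnm x g hx2
      have h2 := T.compat n m hnm x' g hx'
      exact h2.trans (h1.symm.trans hx1)
    rintro _ ⟨n, c, rfl⟩ _ ⟨m, d, rfl⟩ hne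
    rcases le_total n m with h | h
    · exact ⟨m, d, aux n m h c d hne⟩
    · rw [Set.inter_comm] at hne ⊢
      exact ⟨n, c, aux m n h d c hne⟩
  have hmeas : (μ.restrict ((fun x => (x, y)) ⁻¹' s)) t = (p • μ) t := by
    refine ext_on_measurableSpace_of_generate_finite _ C (fun A hA => ?_) hle rfl hpi ?_ (by
      rw [hC]
      exact ht)
    · rw [hC] at hA
      obtain ⟨n, c, rfl⟩ := hA
      rw [Measure.restrict_apply (T.meas n c), Set.inter_comm, hy2 n c, Measure.smul_apply,
        smul_eq_mul]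
    · rw [Measure.restrict_apply MeasurableSet.univ, Set.univ_inter, hy1, Measure.smul_apply,
        measure_univ, smul_eq_mul, mul_one]
  have hmt : MeasurableSet t := hle t (by
    rw [hC]
    exact ht)
  have e1 : (μ.restrict ((fun x => (x, y)) ⁻¹' s)) t = p := by
    rw [Measure.restrict_apply hmt, ← hy1]
    refine measure_congr ?_
    have h1 := hst.symm.inter (ae_eq_refl ((fun x => (x, y)) ⁻¹' s : Set X))
    rwa [Set.inter_self] at h1
  have e2 : (p • μ) t = p * p := by
    rw [Measure.smul_apply, smul_eq_mul, ← measure_congr hst, hy1]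
  have hpp : p = p * p := e1.symm.trans (hmeas.trans e2)
  have hp1 : p ≤ 1 := by
    rw [hp]
    exact prob_le_one
  have hptop : p ≠ ⊤ := ne_top_of_le_ne_top ENNReal.one_ne_top hp1
  rw [Filter.eventuallyConst_set']
  by_cases h0 : p = 0
  · left
    rw [hp] at h0
    exact ae_eq_empty.2 h0
  · right
    have h1 : p = 1 := by
      have h2 : p * 1 = p * p := by rw [mul_one]; exact hpp
      exact ((ENNReal.mul_right_inj h0 hptop).1 h2).symm
    rw [ae_eq_univ, prob_compl_eq_zero_iff hs, ← hp]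
    exact h1

end Pool.Agent.RokProd
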