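import Pool.Agent.RokProd.FibreMono

open MeasureTheory
open scoped ENNReal

namespace Pool.Agent.RokProd

/-- The error terms of the upper bounds tend to zero along a tower. -/
theorem Tower.tendsto_error {G X : Type*} [Group G] [MulAction G X] [MeasurableSpace X]
    (T : Tower G X) : Filter.Tendsto (fun m =>
      ENNReal.ofReal (Real.negMulLog (((T.H m).index : ℝ)⁻¹)) +
      ENNReal.ofReal (Real.negMulLog (1 - ((T.H m).index : ℝ)⁻¹))) Filter.atTop (nhds 0) := by
  have hinv : Filter.Tendsto (fun m => (((T.H m).index : ℝ))⁻¹) Filter.atTop (nhds 0) :=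
    tendsto_inv_atTop_zero.comp (tendsto_natCast_atTop_atTop.comp T.tend)
  have h1 : Filter.Tendsto (fun m => ENNReal.ofReal (Real.negMulLog (((T.H m).index : ℝ)⁻¹)))
      Filter.atTop (nhds 0) := by
    have := (ENNReal.continuous_ofReal.comp Real.continuous_negMulLog).tendsto 0
    simp only [Function.comp, Real.negMulLog_zero, ENNReal.ofReal_zero] at this
    exact this.comp hinv
  have h2 : Filter.Tendsto
      (fun m => ENNReal.ofReal (Real.negMulLog (1 - ((T.H m).index : ℝ)⁻¹)))
      Filter.atTop (nhds 0) := by
    have := (ENNReal.continuous_ofReal.comp Real.continuous_negMulLog).tendsto 1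
    simp only [Function.comp, Real.negMulLog_one, ENNReal.ofReal_zero] at this
    refine this.comp ?_
    have h := (tendsto_const_nhds (x := (1 : ℝ))).sub hinv
    simpa using h
  simpa using h1.add h2

variable {G Z : Type*} [Group G] [MulAction G Z] [MeasurableSpace Z] [MeasurableConstSMul G Z]

/-- For a space with an infinite profinite factor the Rokhlin entropy of the action of `T.H n` on
the fibre over the trivial coset is `[G : T.H n]` times the Rokhlin entropy of the space. -/
theorem Tower.fibre_eq (T : Tower G Z) (P : Measure Z)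
    [IsProbabilityMeasure P] [SMulInvariantMeasure G Z P] (n : ℕ) :
    rok (T.H n) (ProbabilityTheory.cond P (T.A n)) = ((T.H n).index : ℝ≥0∞) * rok G P := by
  have hfi := T.fin n
  have hft : Fintype (G ⧸ T.H n) := Fintype.ofFinite _
  have hcard : (Fintype.card (G ⧸ T.H n) : ℝ≥0∞) = ((T.H n).index : ℝ≥0∞) := by
    rw [← Nat.card_eq_fintype_card]
    rfl
  have hk0 : ((T.H n).index : ℝ≥0∞) ≠ 0 := by
    exact_mod_cast Subgroup.FiniteIndex.index_ne_zero
  have hkt : ((T.H n).index : ℝ≥0∞) ≠ ⊤ := ENNReal.natCast_ne_top _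
  refine le_antisymm ?_ ?_
  · rw [← hcard]
    exact fibre_lower P (T.H n) (T.π n) (T.meas n)
      (fun γ => Filter.Eventually.of_forall fun z => T.equivariant n γ z)
  · have h3 : Filter.Tendsto (fun m =>
        ENNReal.ofReal (Real.negMulLog (((T.H m).index : ℝ)⁻¹)) +
        ENNReal.ofReal (Real.negMulLog (1 - ((T.H m).index : ℝ)⁻¹)) +
        rok (T.H n) (ProbabilityTheory.cond P (T.A n)) / ((T.H n).index : ℝ≥0∞))
        Filter.atTop (nhds (0 +
          rok (T.H n) (ProbabilityTheory.cond P (T.A n)) / ((T.H n).index : ℝ≥0∞))) :=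
      T.tendsto_error.add tendsto_const_nhds
    rw [zero_add] at h3
    have h4 : rok G P ≤
        rok (T.H n) (ProbabilityTheory.cond P (T.A n)) / ((T.H n).index : ℝ≥0∞) := by
      refine ge_of_tendsto h3 ?_
      filter_upwards [Filter.eventually_ge_atTop n] with m hm
      refine (T.fibre_upper P m).trans ?_
      gcongr (_ + ?_)
      exact T.fibre_mono P n m hm
    rw [ENNReal.le_div_iff_mul_le (Or.inl hk0) (Or.inl hkt)] at h4
    rwa [mul_comm]

/-- The tower of a product with a space with a tower. -/
def Tower.prod {G X : Type*} [Group G] [MulAction G X] [MeasurableSpace X] (T : Tower G X)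
    (Y : Type*) [MulAction G Y] [MeasurableSpace Y] : Tower G (X × Y) where
  H := T.H
  anti := T.anti
  fin := T.fin
  tend := T.tend
  π := fun n z => T.π n z.1
  meas := fun n c => measurable_fst (T.meas n c)
  equivariant := fun n g z => T.equivariant n g z.1
  compat := fun n m h z g => T.compat n m h z.1 g

theorem Tower.cond_prod {X Y : Type*} [MulAction G X] [MeasurableSpace X] [MulAction G Y]
    [MeasurableSpace Y] (T : Tower G X) (μ : Measure X) [IsProbabilityMeasure μ] (ν : Measure Y)
    [IsProbabilityMeasure ν] (n : ℕ) :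
    ProbabilityTheory.cond (μ.prod ν) ((T.prod Y).A n) =
      (ProbabilityTheory.cond μ (T.A n)).prod ν := by
  have hA : (T.prod Y).A n = (T.A n) ×ˢ (Set.univ : Set Y) := by
    ext z
    simp only [Set.mem_prod, Set.mem_univ, and_true]
    exact Iff.rfl
  rw [hA]
  unfold ProbabilityTheory.cond
  rw [Measure.prod_prod, measure_univ, mul_one, ← Measure.prod_restrict, Measure.restrict_univ,
    Measure.prod_smul_left]

end Pool.Agent.RokProd
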