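import Pool.Agent.RokProd.EntropyA

open MeasureTheory
open scoped ENNReal

namespace Pool.Agent.RokProd

private theorem rok_le_nat {G Z : Type*} [Group G] [MulAction G Z] [MeasurableSpace Z]
    (P : Measure Z) (α : Z → ℕ) (hα : Measurable α) (hgen : Generating G P α) :
    rok G P ≤ shannon P α := by
  unfold rok
  exact iInf_le_of_le α (iInf_le_of_le hα (iInf_le_of_le hgen le_rfl))

/-- Generating partitions indexed by any countable set bound the Rokhlin entropy. -/
theorem rok_le {G Z κ : Type*} [Group G] [MulAction G Z] [MeasurableSpace Z]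
    [MeasurableSpace κ] [Countable κ] [MeasurableSingletonClass κ] (P : Measure Z)
    [IsProbabilityMeasure P] (α : Z → κ) (hα : Measurable α) (hgen : Generating G P α) :
    rok G P ≤ shannon P α := by
  classical
  obtain ⟨e, he⟩ := Countable.exists_injective_nat κ
  have hne : Nonempty Z := by
    by_contra hcon
    rw [not_nonempty_iff] at hcon
    have h1 : P Set.univ = 1 := measure_univ
    rw [Set.univ_eq_empty_iff.2 hcon, measure_empty] at h1
    exact zero_ne_one h1
  obtain ⟨z0⟩ := hne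
  have hneκ : Nonempty κ := ⟨α z0⟩
  set r : ℕ → κ := Function.invFun e with hr
  have hre : ∀ j, r (e j) = j := Function.leftInverse_invFun he
  have hem : Measurable (fun z => e (α z)) := (Measurable.of_discrete (f := e)).comp hα
  refine (rok_le_nat P (fun z => e (α z)) hem ?_).trans
    (shannon_comp_le P α (fun j => hα (measurableSet_singleton j)) e)
  intro s hs
  obtain ⟨S, hS, hsS⟩ := hgen s hs
  refine ⟨(fun w : G → ℕ => fun g => r (w g)) ⁻¹' S, ?_, ?_⟩
  · refine (measurable_pi_iff.2 fun g => ?_) hS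
    exact (Measurable.of_discrete (f := r)).comp (measurable_pi_apply g)
  · refine hsS.trans (Filter.EventuallyEq.of_eq ?_)
    ext z
    simp only [Set.mem_preimage, hre]

/-- Restriction to a subgroup can only increase the Rokhlin entropy. -/
theorem rok_le_subgroup {G Y : Type*} [Group G] [MulAction G Y] [MeasurableSpace Y]
    (ν : Measure Y) (H : Subgroup G) : rok G ν ≤ rok H ν := by
  refine le_iInf fun α => le_iInf fun hα => le_iInf fun hgen => ?_
  refine iInf_le_of_le α (iInf_le_of_le hα (iInf_le_of_le ?_ le_rfl))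
  intro s hs
  obtain ⟨S, hS, hsS⟩ := hgen s hs
  have hm : Measurable (fun w : G → ℕ => fun h : H => w (h : G)) :=
    measurable_pi_iff.2 fun h => measurable_pi_apply (h : G)
  exact ⟨(fun w : G → ℕ => fun h : H => w (h : G)) ⁻¹' S, hm hS, hsS⟩

/-- Reading a partition `W` of `(G ⧸ H) × Y` on the fibre over the trivial coset: the partition
`y ↦ (W c (c.out • y))_c` of `Y` is generating for `H`. -/
theorem rok_subgroup_le {G Y κ : Type*} [Group G] [MulAction G Y] [MeasurableSpace Y]
    [MeasurableConstSMul G Y] [MeasurableSpace κ] [Countable κ] [MeasurableSingletonClass κ]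
    (ν : Measure Y) [IsProbabilityMeasure ν] [SMulInvariantMeasure G Y ν]
    (H : Subgroup G) [Fintype (G ⧸ H)] (W : (G ⧸ H) → Y → κ) (hW : ∀ c, Measurable (W c))
    (hgen : ∀ B : Set Y, MeasurableSet B → ∃ S : Set (G → κ), MeasurableSet S ∧
      B =ᵐ[ν] {y | (fun g : G => W (g : G ⧸ H) (g • y)) ∈ S}) :
    rok H ν ≤ ∑ c, shannon ν (W c) := by
  classical
  set b : Y → ((G ⧸ H) → κ) := fun y c => W c (Quotient.out c • y) with hb
  have hbm : Measurable b :=
    measurable_pi_iff.2 fun c => (hW c).comp (measurable_const_smul (Quotient.out c))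
  have hmem : ∀ g : G, (Quotient.out (g : G ⧸ H))⁻¹ * g ∈ H := fun g =>
    QuotientGroup.eq.1 (QuotientGroup.out_eq' (g : G ⧸ H))
  have hbgen : Generating H ν b := by
    intro B hB
    obtain ⟨S, hS, hBS⟩ := hgen B hB
    refine ⟨(fun w : H → ((G ⧸ H) → κ) => fun g : G =>
      w ⟨(Quotient.out (g : G ⧸ H))⁻¹ * g, hmem g⟩ (g : G ⧸ H)) ⁻¹' S, ?_, ?_⟩
    · refine (measurable_pi_iff.2 fun g => ?_) hS
      exact (measurable_pi_apply (g : G ⧸ H)).comp
        (measurable_pi_apply (⟨(Quotient.out (g : G ⧸ H))⁻¹ * g, hmem g⟩ : H))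
    · refine hBS.trans (Filter.EventuallyEq.of_eq ?_)
      ext y
      have : (fun g : G => W (g : G ⧸ H) (g • y)) = fun g : G =>
          b ((⟨(Quotient.out (g : G ⧸ H))⁻¹ * g, hmem g⟩ : H) • y) (g : G ⧸ H) := by
        funext g
        simp only [hb, Subgroup.smul_def]
        rw [smul_smul, mul_inv_cancel_left]
      show (fun g : G => W (g : G ⧸ H) (g • y)) ∈ S ↔ _
      rw [this]
      exact Iff.rfl
  refine (rok_le ν b hbm hbgen).trans ?_
  refine (shannon_pi_le ν (fun c y => W c (Quotient.out c • y)) ?_).trans ?_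
  · intro c j
    exact ((hW c).comp (measurable_const_smul (Quotient.out c))) (measurableSet_singleton j)
  · refine Finset.sum_le_sum fun c _ => le_of_eq ?_
    unfold shannon
    congr 1
    funext j
    have : (fun y => W c (Quotient.out c • y)) ⁻¹' {j} =
        (fun y => Quotient.out c • y) ⁻¹' (W c ⁻¹' {j}) := rfl
    rw [this, measure_preimage_smul_of_nullMeasurableSet
      ((hW c) (measurableSet_singleton j)).nullMeasurableSet]

private theorem rok_congr_le {G G' Y : Type*} [Group G] [Group G'] [MulAction G Y]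
    [MulAction G' Y] [MeasurableSpace Y] (ν : Measure Y) (e : G ≃ G')
    (he : ∀ g (y : Y), e g • y = g • y) : rok G ν ≤ rok G' ν := by
  refine le_iInf fun α => le_iInf fun hα => le_iInf fun hgen => ?_
  refine rok_le_nat ν α hα ?_
  intro s hs
  obtain ⟨S, hS, hsS⟩ := hgen s hs
  have hm : Measurable (fun w : G → ℕ => fun h : G' => w (e.symm h)) :=
    measurable_pi_iff.2 fun h => measurable_pi_apply (e.symm h)
  refine ⟨(fun w : G → ℕ => fun h : G' => w (e.symm h)) ⁻¹' S, hm hS, ?_⟩
  refine hsS.trans (Filter.EventuallyEq.of_eq ?_)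
  ext y
  have : (fun g : G' => α (g • y)) = fun g : G' => α (e.symm g • y) := by
    funext g
    rw [← he (e.symm g) y, Equiv.apply_symm_apply]
  show (fun g : G' => α (g • y)) ∈ S ↔ _
  rw [this]
  exact Iff.rfl

/-- Isomorphic groups acting in the same way have the same Rokhlin entropy. -/
theorem rok_congr {G G' Y : Type*} [Group G] [Group G'] [MulAction G Y] [MulAction G' Y]
    [MeasurableSpace Y] (ν : Measure Y) (e : G ≃ G') (he : ∀ g (y : Y), e g • y = g • y) :
    rok G ν = rok G' ν := by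
  refine le_antisymm (rok_congr_le ν e he) (rok_congr_le ν e.symm ?_)
  intro g y
  rw [← he, Equiv.apply_symm_apply]

/-- Index inequality for the whole group. -/
theorem rok_subgroup_le_index {G Y : Type*} [Group G] [MulAction G Y] [MeasurableSpace Y]
    [MeasurableConstSMul G Y] (ν : Measure Y) [IsProbabilityMeasure ν]
    [SMulInvariantMeasure G Y ν] (H : Subgroup G) [H.FiniteIndex] :
    rok H ν ≤ (H.index : ℝ≥0∞) * rok G ν := by
  classical
  have hft : Fintype (G ⧸ H) := Fintype.ofFinite _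
  have hcard : (Fintype.card (G ⧸ H) : ℝ≥0∞) = (H.index : ℝ≥0∞) := by
    rw [← Nat.card_eq_fintype_card]
    rfl
  have hk0 : (H.index : ℝ≥0∞) ≠ 0 := by
    exact_mod_cast Subgroup.FiniteIndex.index_ne_zero
  have hkt : (H.index : ℝ≥0∞) ≠ ⊤ := ENNReal.natCast_ne_top _
  have key : rok H ν / (H.index : ℝ≥0∞) ≤ rok G ν := by
    refine le_iInf fun α => le_iInf fun hα => le_iInf fun hgen => ?_
    refine ENNReal.div_le_of_le_mul ?_
    refine (rok_subgroup_le ν H (fun _ => α) (fun _ => hα) hgen).trans ?_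
    rw [Finset.sum_const, Finset.card_univ, nsmul_eq_mul, hcard, mul_comm]
  rwa [ENNReal.div_le_iff_le_mul (Or.inl hk0) (Or.inl hkt), mul_comm] at key

/-- Monotonicity of `rok H ν / [G : H]`. -/
theorem rok_div_index_mono {G Y : Type*} [Group G] [MulAction G Y] [MeasurableSpace Y]
    [MeasurableConstSMul G Y] (ν : Measure Y) [IsProbabilityMeasure ν]
    [SMulInvariantMeasure G Y ν] (K H : Subgroup G) (hKH : K ≤ H) [K.FiniteIndex]
    [H.FiniteIndex] :
    rok K ν / (K.index : ℝ≥0∞) ≤ rok H ν / (H.index : ℝ≥0∞) := by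
  have hHt : (H.index : ℝ≥0∞) ≠ ⊤ := ENNReal.natCast_ne_top _
  have hH0 : (H.index : ℝ≥0∞) ≠ 0 := by
    exact_mod_cast Subgroup.FiniteIndex.index_ne_zero
  have hrel : (K.relIndex H : ℝ≥0∞) * (H.index : ℝ≥0∞) = (K.index : ℝ≥0∞) := by
    exact_mod_cast Subgroup.relIndex_mul_index hKH
  have hK0 : K.index ≠ 0 := Subgroup.FiniteIndex.index_ne_zero
  have hr0 : K.relIndex H ≠ 0 := by
    intro h
    apply hK0
    rw [← Subgroup.relIndex_mul_index hKH, h, zero_mul]
  have hfi : (K.subgroupOf H).FiniteIndex := ⟨hr0⟩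
  have hinv : SMulInvariantMeasure H Y ν :=
    ⟨fun h s hs => SMulInvariantMeasure.measure_preimage_smul (h : G) hs⟩
  have h1 := rok_subgroup_le_index (G := H) ν (K.subgroupOf H)
  have h2 : rok (K.subgroupOf H) ν = rok K ν :=
    rok_congr ν (Subgroup.subgroupOfEquivOfLe hKH).toEquiv (fun g y => rfl)
  rw [h2] at h1
  have hr0' : (K.relIndex H : ℝ≥0∞) ≠ 0 := by exact_mod_cast hr0
  have hrt : (K.relIndex H : ℝ≥0∞) ≠ ⊤ := ENNReal.natCast_ne_top _
  have h3 : rok K ν ≤ (K.relIndex H : ℝ≥0∞) * rok H ν := h1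
  calc rok K ν / (K.index : ℝ≥0∞)
      ≤ ((K.relIndex H : ℝ≥0∞) * rok H ν) / (K.index : ℝ≥0∞) := by gcongr
    _ = rok H ν / (H.index : ℝ≥0∞) := by
        rw [← hrel, ENNReal.mul_div_mul_left _ _ hr0' hrt]

end Pool.Agent.RokProd
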