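import Pool.Agent.RokProd.EntropyA
import Pool.Agent.RokProd.Group

open MeasureTheory
open scoped ENNReal

namespace Pool.Agent.RokProd

private theorem fl_smul_one {Γ : Type*} [Group Γ] (Λ : Subgroup Γ) (c : Γ ⧸ Λ) :
    c.out • ((1 : Γ) : Γ ⧸ Λ) = c := by
  have h : c.out • ((1 : Γ) : Γ ⧸ Λ) = ((c.out * 1 : Γ) : Γ ⧸ Λ) := rfl
  rw [h, mul_one]
  exact QuotientGroup.out_eq' c

/-- The fibre part of a level set is a translate. -/
private theorem fl_measure {Γ Z : Type*} [Group Γ] [MulAction Γ Z] [MeasurableSpace Z]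
    [MeasurableConstSMul Γ Z] (Q : Measure Z) [SMulInvariantMeasure Γ Z Q]
    (Λ : Subgroup Γ) (π : Z → Γ ⧸ Λ)
    (hπ : ∀ c, MeasurableSet (π ⁻¹' {c})) (heq : ∀ γ : Γ, ∀ᵐ z ∂Q, π (γ • z) = γ • π z)
    (B : Set Z) (hB : MeasurableSet B) (c : Γ ⧸ Λ) :
    Q (π ⁻¹' {((1 : Γ) : Γ ⧸ Λ)} ∩ (fun z : Z => c.out • z) ⁻¹' B) = Q (π ⁻¹' {c} ∩ B) := by
  have h1 : Q ((fun z : Z => c.out • z) ⁻¹' (π ⁻¹' {c} ∩ B)) = Q (π ⁻¹' {c} ∩ B) :=
    measure_preimage_smul_of_nullMeasurableSet ((hπ c).inter hB).nullMeasurableSet c.out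
  rw [← h1]
  refine measure_congr ?_
  filter_upwards [heq c.out] with z hz
  refine propext ?_
  change (π z = ((1 : Γ) : Γ ⧸ Λ) ∧ c.out • z ∈ B) ↔ (π (c.out • z) = c ∧ c.out • z ∈ B)
  rw [hz]
  refine and_congr_left fun _ => ?_
  constructor
  · intro h
    rw [h, fl_smul_one]
  · intro h
    have h2 : c.out • π z = c.out • ((1 : Γ) : Γ ⧸ Λ) := by rw [h, fl_smul_one]
    exact smul_left_cancel c.out h2

private theorem fl_sum {Γ Z : Type*} [Group Γ] [MeasurableSpace Z]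
    (Q : Measure Z) (Λ : Subgroup Γ) [Fintype (Γ ⧸ Λ)] (π : Z → Γ ⧸ Λ)
    (hπ : ∀ c, MeasurableSet (π ⁻¹' {c})) (B : Set Z) (hB : MeasurableSet B) :
    ∑ c : Γ ⧸ Λ, Q (π ⁻¹' {c} ∩ B) = Q B := by
  classical
  rw [← measure_biUnion_finset]
  · congr 1
    ext x
    simp
  · intro i _ j _ hij
    refine Set.disjoint_left.2 ?_
    intro x hx hx'
    exact hij (hx.1.symm.trans hx'.1)
  · intro d _
    exact (hπ d).inter hB

private theorem fl_fibre {Γ Z : Type*} [Group Γ] [MulAction Γ Z] [MeasurableSpace Z]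
    [MeasurableConstSMul Γ Z] (Q : Measure Z) [IsProbabilityMeasure Q]
    [SMulInvariantMeasure Γ Z Q] (Λ : Subgroup Γ) [Fintype (Γ ⧸ Λ)] (π : Z → Γ ⧸ Λ)
    (hπ : ∀ c, MeasurableSet (π ⁻¹' {c})) (heq : ∀ γ : Γ, ∀ᵐ z ∂Q, π (γ • z) = γ • π z) :
    Q (π ⁻¹' {((1 : Γ) : Γ ⧸ Λ)}) = (Fintype.card (Γ ⧸ Λ) : ℝ≥0∞)⁻¹ := by
  classical
  have hall : ∀ c : Γ ⧸ Λ, Q (π ⁻¹' {c}) = Q (π ⁻¹' {((1 : Γ) : Γ ⧸ Λ)}) := by
    intro c
    have h := fl_measure Q Λ π hπ heq Set.univ MeasurableSet.univ c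
    simpa using h.symm
  have hsum := fl_sum Q Λ π hπ Set.univ MeasurableSet.univ
  simp only [Set.inter_univ, measure_univ] at hsum
  rw [Finset.sum_congr rfl (fun d _ => hall d), Finset.sum_const, nsmul_eq_mul,
    Finset.card_univ] at hsum
  exact ENNReal.eq_inv_of_mul_eq_one_left (by rw [mul_comm]; exact hsum)

/-- Jensen for `negMulLog`. -/
private theorem fl_jensen {ι : Type*} [Fintype ι] [Nonempty ι] (x : ι → ℝ)
    (h0 : ∀ i, 0 ≤ x i) (h1 : ∀ i, x i ≤ 1) (q : ℝ)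
    (hq : ∑ i, x i = (Fintype.card ι : ℝ) * q) :
    ∑ i, ENNReal.ofReal (Real.negMulLog (x i)) ≤
      (Fintype.card ι : ℝ≥0∞) * ENNReal.ofReal (Real.negMulLog q) := by
  have hcard : (0 : ℝ) < Fintype.card ι := by
    exact_mod_cast Fintype.card_pos
  rw [← ENNReal.ofReal_sum_of_nonneg (fun i _ => Real.negMulLog_nonneg (h0 i) (h1 i))]
  have hc : (Fintype.card ι : ℝ≥0∞) = ENNReal.ofReal (Fintype.card ι : ℝ) := by
    rw [ENNReal.ofReal_natCast]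
  rw [hc, ← ENNReal.ofReal_mul hcard.le]
  refine ENNReal.ofReal_le_ofReal ?_
  have hj := Real.concaveOn_negMulLog.le_map_sum (t := (Finset.univ : Finset ι))
    (w := fun _ => ((Fintype.card ι : ℝ))⁻¹) (p := x)
    (fun i _ => (inv_pos.2 hcard).le)
    (by
      rw [Finset.sum_const, Finset.card_univ, nsmul_eq_mul]
      exact mul_inv_cancel₀ hcard.ne')
    (fun i _ => h0 i)
  simp only [smul_eq_mul] at hj
  rw [← Finset.mul_sum, ← Finset.mul_sum, hq, ← mul_assoc, inv_mul_cancel₀ hcard.ne',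
    one_mul] at hj
  calc ∑ i, Real.negMulLog (x i)
      = (Fintype.card ι : ℝ) * ((Fintype.card ι : ℝ)⁻¹ * ∑ i, Real.negMulLog (x i)) := by
        rw [← mul_assoc, mul_inv_cancel₀ hcard.ne', one_mul]
    _ ≤ (Fintype.card ι : ℝ) * Real.negMulLog q := by
        exact mul_le_mul_of_nonneg_left hj hcard.le

/-- Restriction to a fibre of a factor `Γ ⧸ Λ` multiplies the Rokhlin entropy by at most the index.
The group `Λ` acts on `Z` and preserves the normalised restriction of `Q` to the fibre over the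
trivial coset.
Plan: `Q (π ⁻¹' {c}) = 1 / card` (translates, as in `Tower.measure_fibre`).  Let `α` be generating
for `Γ`.  The map `b z = (fun c => α (c.out • z))` into `(Γ ⧸ Λ) → ℕ` (countable) is generating for
`Λ` and `cond Q A`: with `γ = c.out * h`, `c = γ Λ`, one has `α (γ • z) = b (h • z) c` (use
`ProbabilityTheory.cond_absolutelyContinuous`), and `rok_le`.  Entropy: `shannon_pi_le`; the
probability of `{z | α (c.out • z) = j}` under `cond Q A` is `card * Q (π ⁻¹' {c} ∩ {α = j})` by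
invariance; concavity of `Real.negMulLog` (`ConcaveOn.le_map_sum`), the average over `c` of these
numbers being `Q (α = j)`. -/
theorem fibre_lower {Γ Z : Type*} [Group Γ] [MulAction Γ Z] [MeasurableSpace Z]
    [MeasurableConstSMul Γ Z] (Q : Measure Z) [IsProbabilityMeasure Q]
    [SMulInvariantMeasure Γ Z Q] (Λ : Subgroup Γ) [Fintype (Γ ⧸ Λ)] (π : Z → Γ ⧸ Λ)
    (hπ : ∀ c, MeasurableSet (π ⁻¹' {c})) (heq : ∀ γ : Γ, ∀ᵐ z ∂Q, π (γ • z) = γ • π z) :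
    rok Λ (ProbabilityTheory.cond Q (π ⁻¹' {((1 : Γ) : Γ ⧸ Λ)})) ≤
      (Fintype.card (Γ ⧸ Λ) : ℝ≥0∞) * rok Γ Q := by
  classical
  have hA : Q (π ⁻¹' {((1 : Γ) : Γ ⧸ Λ)}) = (Fintype.card (Γ ⧸ Λ) : ℝ≥0∞)⁻¹ :=
    fl_fibre Q Λ π hπ heq
  have hcardpos : 0 < Fintype.card (Γ ⧸ Λ) := Fintype.card_pos_iff.2 ⟨((1 : Γ) : Γ ⧸ Λ)⟩
  have hc0 : (Fintype.card (Γ ⧸ Λ) : ℝ≥0∞) ≠ 0 := by
    exact_mod_cast hcardpos.ne'
  have hct : (Fintype.card (Γ ⧸ Λ) : ℝ≥0∞) ≠ ⊤ := ENNReal.natCast_ne_top _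
  have hA0 : Q (π ⁻¹' {((1 : Γ) : Γ ⧸ Λ)}) ≠ 0 := by
    rw [hA]
    exact ENNReal.inv_ne_zero.2 hct
  have : Nonempty (Γ ⧸ Λ) := ⟨((1 : Γ) : Γ ⧸ Λ)⟩
  set P : Measure Z := ProbabilityTheory.cond Q (π ⁻¹' {((1 : Γ) : Γ ⧸ Λ)}) with hP
  have : IsProbabilityMeasure P := ProbabilityTheory.cond_isProbabilityMeasure hA0
  rw [← ENNReal.div_le_iff' hc0 hct]
  refine le_iInf fun α => le_iInf fun hα => le_iInf fun hgen => ?_
  rw [ENNReal.div_le_iff' hc0 hct]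
  set b : Z → ((Γ ⧸ Λ) → ℕ) := fun z c => α (c.out • z) with hb
  have hαc : ∀ c : Γ ⧸ Λ, Measurable fun z : Z => α (c.out • z) := fun c =>
    hα.comp (measurable_const_smul c.out)
  have hbm : Measurable b := measurable_pi_iff.2 hαc
  -- the element of `Λ`
  have hmem : ∀ γ : Γ, ((γ : Γ ⧸ Λ).out)⁻¹ * γ ∈ Λ := by
    intro γ
    rw [← QuotientGroup.eq]
    exact QuotientGroup.out_eq' _
  have hbgen : Generating Λ P b := by
    intro s hs
    obtain ⟨S, hS, hsS⟩ := hgen s hs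
    refine ⟨(fun (w : Λ → ((Γ ⧸ Λ) → ℕ)) (γ : Γ) => w ⟨_, hmem γ⟩ (γ : Γ ⧸ Λ)) ⁻¹' S, ?_, ?_⟩
    · refine measurableSet_preimage ?_ hS
      refine measurable_pi_iff.2 fun γ => ?_
      exact (measurable_pi_apply _).comp (measurable_pi_apply _)
    · have hkey : {z : Z | (fun g : Λ => b (g • z)) ∈
          (fun (w : Λ → ((Γ ⧸ Λ) → ℕ)) (γ : Γ) => w ⟨_, hmem γ⟩ (γ : Γ ⧸ Λ)) ⁻¹' S} =
          {z : Z | (fun g : Γ => α (g • z)) ∈ S} := by
        ext z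
        simp only [Set.mem_preimage, Set.mem_ofPred_eq]
        have : (fun γ : Γ => b ((⟨_, hmem γ⟩ : Λ) • z) (γ : Γ ⧸ Λ)) = fun g : Γ => α (g • z) := by
          funext γ
          change α ((γ : Γ ⧸ Λ).out • ((((γ : Γ ⧸ Λ).out)⁻¹ * γ) • z)) = α (γ • z)
          rw [← mul_smul, mul_inv_cancel_left]
        rw [this]
      rw [hkey]
      exact (ProbabilityTheory.cond_absolutelyContinuous).ae_eq hsS
  refine (rok_le P b hbm hbgen).trans ?_
  refine (shannon_pi_le P (fun (c : Γ ⧸ Λ) (z : Z) => α (c.out • z))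
    (fun c j => hαc c (measurableSet_singleton j))).trans ?_
  unfold shannon
  rw [← ENNReal.tsum_mul_left, ← Summable.tsum_finsetSum (fun i _ => ENNReal.summable)]
  refine ENNReal.tsum_le_tsum fun j => ?_
  have hBm : MeasurableSet (α ⁻¹' {j}) := hα (measurableSet_singleton j)
  have hPx : ∀ c : Γ ⧸ Λ, P ((fun z : Z => α (c.out • z)) ⁻¹' {j}) =
      (Fintype.card (Γ ⧸ Λ) : ℝ≥0∞) * Q (π ⁻¹' {c} ∩ α ⁻¹' {j}) := by
    intro c
    rw [hP, ProbabilityTheory.cond_apply (hπ _), hA, inv_inv]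
    congr 1
    exact fl_measure Q Λ π hπ heq (α ⁻¹' {j}) hBm c
  refine fl_jensen (fun c : Γ ⧸ Λ => (P ((fun z : Z => α (c.out • z)) ⁻¹' {j})).toReal)
    (fun c => ENNReal.toReal_nonneg) (fun c => ?_) ((Q (α ⁻¹' {j})).toReal) ?_
  · have h := ENNReal.toReal_mono ENNReal.one_ne_top
      (prob_le_one (μ := P) (s := (fun z : Z => α (c.out • z)) ⁻¹' {j}))
    simpa using h
  · rw [← ENNReal.toReal_sum (fun c _ => measure_ne_top P _), Finset.sum_congr rfl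
      (fun c _ => hPx c), ← Finset.mul_sum, fl_sum Q Λ π hπ _ hBm, ENNReal.toReal_mul,
      ENNReal.toReal_natCast]

end Pool.Agent.RokProd
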