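import Pool.Agent.RokProd.EntropyA
import Pool.Agent.RokProd.Group
import Pool.Agent.RokProd.Tower

open MeasureTheory
open scoped ENNReal

namespace Pool.Agent.RokProd

variable {G Z : Type*} [Group G] [MulAction G Z] [MeasurableSpace Z] [MeasurableConstSMul G Z]

omit [MeasurableConstSMul G Z] in
private theorem smul_mem_A (T : Tower G Z) (n : ℕ) (h : T.H n) (z : Z) (hz : z ∈ T.A n) :
    (h : G) • z ∈ T.A n := by
  have hz' : T.π n z = ((1 : G) : G ⧸ T.H n) := hz
  change T.π n ((h : G) • z) = ((1 : G) : G ⧸ T.H n)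
  rw [T.equivariant, hz']
  change (((h : G) * 1 : G) : G ⧸ T.H n) = ((1 : G) : G ⧸ T.H n)
  rw [mul_one, QuotientGroup.eq]
  simp

omit [MeasurableConstSMul G Z] in
private theorem out_smul_mem_A (T : Tower G Z) (n : ℕ) (c : G ⧸ T.H n) (z : Z)
    (hz : T.π n z = c) : (c.out)⁻¹ • z ∈ T.A n := by
  change T.π n ((c.out)⁻¹ • z) = ((1 : G) : G ⧸ T.H n)
  have hout : ((c.out : G) : G ⧸ T.H n) = c := QuotientGroup.out_eq' c
  rw [T.equivariant, hz]
  calc (c.out)⁻¹ • c = (c.out)⁻¹ • ((c.out : G) : G ⧸ T.H n) := by rw [hout]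
    _ = (((c.out)⁻¹ * c.out : G) : G ⧸ T.H n) := rfl
    _ = ((1 : G) : G ⧸ T.H n) := by rw [inv_mul_cancel]

/-- The partition built from `β`. -/
private noncomputable def om (T : Tower G Z) (n : ℕ) (β : Z → ℕ) : Z → ℕ :=
  open Classical in fun z => if z ∈ T.A n then β z + 1 else 0

omit [MeasurableConstSMul G Z] in
private theorem om_pos (T : Tower G Z) (n : ℕ) (β : Z → ℕ) {z : Z} (hz : z ∈ T.A n) :
    om T n β z = β z + 1 := by
  unfold om
  rw [if_pos hz]

omit [MeasurableConstSMul G Z] in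
private theorem om_neg (T : Tower G Z) (n : ℕ) (β : Z → ℕ) {z : Z} (hz : z ∉ T.A n) :
    om T n β z = 0 := by
  unfold om
  rw [if_neg hz]

omit [MeasurableConstSMul G Z] in
private theorem mem_A_of_om (T : Tower G Z) (n : ℕ) (β : Z → ℕ) {z : Z}
    (hz : om T n β z ≠ 0) : z ∈ T.A n := by
  by_contra h
  exact hz (om_neg T n β h)

omit [MeasurableConstSMul G Z] in
private theorem measurable_om (T : Tower G Z) (n : ℕ) (β : Z → ℕ) (hβ : Measurable β) :
    Measurable (om T n β) := by
  classical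
  unfold om
  exact Measurable.ite (T.meas n _) (hβ.add_const 1) measurable_const

private theorem generating_om (T : Tower G Z) (P : Measure Z)
    [IsProbabilityMeasure P] [SMulInvariantMeasure G Z P] (n : ℕ) (β : Z → ℕ)
    (hgen : Generating (T.H n) (ProbabilityTheory.cond P (T.A n)) β) :
    Generating G P (om T n β) := by
  classical
  have := T.fin n
  have : Finite (G ⧸ T.H n) := inferInstance
  intro s hs
  have hsc : ∀ c : G ⧸ T.H n, MeasurableSet ((fun z : Z => c.out • z) ⁻¹' s) := fun c =>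
    measurable_const_smul c.out hs
  choose S hSm hS using fun c : G ⧸ T.H n => hgen _ (hsc c)
  refine ⟨⋃ c : G ⧸ T.H n, ({w : G → ℕ | w ((c.out)⁻¹) ≠ 0} ∩
    {w : G → ℕ | (fun h : T.H n => w ((h : G) * (c.out)⁻¹) - 1) ∈ S c}), ?_, ?_⟩
  · have : Countable (G ⧸ T.H n) := inferInstance
    refine MeasurableSet.iUnion fun c => MeasurableSet.inter ?_ ?_
    · exact (measurable_pi_apply ((c.out)⁻¹) (measurableSet_singleton 0)).compl
    · have hm : Measurable (fun (w : G → ℕ) (h : T.H n) => w ((h : G) * (c.out)⁻¹) - 1) := by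
        refine measurable_pi_lambda _ fun h => ?_
        exact (measurable_from_top (f := fun m : ℕ => m - 1)).comp
          (measurable_pi_apply ((h : G) * (c.out)⁻¹))
      exact hm (hSm c)
  · have hPA : (P (T.A n))⁻¹ ≠ 0 := ENNReal.inv_ne_zero.2 (measure_ne_top _ _)
    have key : ∀ c : G ⧸ T.H n, ∀ᵐ z ∂P, (c.out)⁻¹ • z ∈ T.A n →
        (z ∈ s ↔ (fun h : T.H n => β ((h : G) • (c.out)⁻¹ • z)) ∈ S c) := by
      intro c
      have h1 : ∀ᵐ z ∂(ProbabilityTheory.cond P (T.A n)),
          (c.out • z ∈ s ↔ (fun h : T.H n => β ((h : G) • z)) ∈ S c) := by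
        filter_upwards [hS c] with z hz
        exact Iff.of_eq hz
      unfold ProbabilityTheory.cond at h1
      rw [Measure.ae_ennreal_smul_measure_iff hPA] at h1
      have hAm : MeasurableSet (T.A n) := T.meas n _
      rw [ae_restrict_iff' hAm] at h1
      have h2 := (measurePreserving_smul ((c.out)⁻¹) P).quasiMeasurePreserving.ae h1
      filter_upwards [h2] with z hz hzA
      have := hz hzA
      rwa [smul_inv_smul] at this
    have key' := ae_all_iff.2 key
    filter_upwards [key'] with z hz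
    apply propext
    change z ∈ s ↔ (fun g : G => om T n β (g • z)) ∈ _
    simp only [Set.mem_iUnion, Set.mem_inter_iff, Set.mem_ofPred_eq]
    have hit : ∀ c : G ⧸ T.H n, (c.out)⁻¹ • z ∈ T.A n →
        (fun h : T.H n => om T n β (((h : G) * (c.out)⁻¹) • z) - 1) =
          (fun h : T.H n => β ((h : G) • (c.out)⁻¹ • z)) := by
      intro c hc
      funext h
      rw [mul_smul, om_pos T n β (smul_mem_A T n h _ hc)]
      rfl
    constructor
    · intro hzs
      have hc := out_smul_mem_A T n (T.π n z) z rfl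
      refine ⟨T.π n z, ?_, ?_⟩
      · rw [om_pos T n β hc]
        exact Nat.succ_ne_zero _
      · rw [hit _ hc]
        exact (hz _ hc).1 hzs
    · rintro ⟨c, hc0, hc1⟩
      have hc := mem_A_of_om T n β hc0
      rw [hit _ hc] at hc1
      exact (hz c hc).2 hc1

private theorem shannon_om (T : Tower G Z) (P : Measure Z)
    [IsProbabilityMeasure P] [SMulInvariantMeasure G Z P] (n : ℕ) (β : Z → ℕ)
    (hβ : Measurable β) :
    shannon P (om T n β) ≤
      ENNReal.ofReal (Real.negMulLog (((T.H n).index : ℝ)⁻¹)) +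
      ENNReal.ofReal (Real.negMulLog (1 - ((T.H n).index : ℝ)⁻¹)) +
      shannon (ProbabilityTheory.cond P (T.A n)) β / ((T.H n).index : ℝ≥0∞) := by
  classical
  have := T.fin n
  have hk0 : (T.H n).index ≠ 0 := (T.H n).index_ne_zero_of_finite
  have hkR : (0 : ℝ) < ((T.H n).index : ℝ) := by exact_mod_cast Nat.pos_of_ne_zero hk0
  have hAm : MeasurableSet (T.A n) := T.meas n _
  have hPA : P (T.A n) = ((T.H n).index : ℝ≥0∞)⁻¹ := T.measure_fibre P n _
  have hPAR : (P (T.A n)).toReal = ((T.H n).index : ℝ)⁻¹ := by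
    rw [hPA, ENNReal.toReal_inv, ENNReal.toReal_natCast]
  have hPA0 : P (T.A n) ≠ 0 := by
    rw [hPA]; exact ENNReal.inv_ne_zero.2 (ENNReal.natCast_ne_top _)
  have : IsProbabilityMeasure (ProbabilityTheory.cond P (T.A n)) :=
    ProbabilityTheory.cond_isProbabilityMeasure hPA0
  set Q := ProbabilityTheory.cond P (T.A n) with hQ
  have hpre0 : om T n β ⁻¹' {0} = (T.A n)ᶜ := by
    ext z
    simp only [Set.mem_preimage, Set.mem_singleton_iff, Set.mem_compl_iff]
    constructor
    · intro h hz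
      rw [om_pos T n β hz] at h
      exact Nat.succ_ne_zero _ h
    · intro h
      exact om_neg T n β h
  have hpre1 : ∀ j : ℕ, om T n β ⁻¹' {j + 1} = T.A n ∩ β ⁻¹' {j} := by
    intro j
    ext z
    simp only [Set.mem_preimage, Set.mem_singleton_iff, Set.mem_inter_iff]
    constructor
    · intro h
      have hz : z ∈ T.A n := mem_A_of_om T n β (by rw [h]; exact Nat.succ_ne_zero _)
      rw [om_pos T n β hz] at h
      exact ⟨hz, by omega⟩
    · rintro ⟨hz, h⟩
      rw [om_pos T n β hz, h]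
  have hm0 : (P (om T n β ⁻¹' {0})).toReal = 1 - ((T.H n).index : ℝ)⁻¹ := by
    rw [hpre0, prob_compl_eq_one_sub hAm,
      ENNReal.toReal_sub_of_le prob_le_one ENNReal.one_ne_top, hPAR, ENNReal.toReal_one]
  have hm1 : ∀ j : ℕ, (P (om T n β ⁻¹' {j + 1})).toReal =
      ((T.H n).index : ℝ)⁻¹ * (Q (β ⁻¹' {j})).toReal := by
    intro j
    rw [hpre1, ← ProbabilityTheory.cond_mul_eq_inter hAm, ENNReal.toReal_mul, hPAR, mul_comm]
  have hsum : ∑' j : ℕ, Q (β ⁻¹' {j}) = 1 := by
    have hU : (⋃ j : ℕ, β ⁻¹' {j}) = Set.univ := by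
      ext z
      simp
    rw [← measure_iUnion, hU, measure_univ]
    · intro i j hij
      refine Set.disjoint_left.2 ?_
      intro x hx hx'
      exact hij (hx.symm.trans hx')
    · intro j
      exact hβ (measurableSet_singleton j)
  unfold shannon
  rw [tsum_eq_zero_add' ENNReal.summable, hm0, add_comm
    (ENNReal.ofReal (Real.negMulLog (((T.H n).index : ℝ)⁻¹))), add_assoc]
  refine add_le_add le_rfl ?_
  calc ∑' j : ℕ, ENNReal.ofReal (Real.negMulLog (P (om T n β ⁻¹' {j + 1})).toReal)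
      ≤ ∑' j : ℕ, (Q (β ⁻¹' {j}) * ENNReal.ofReal (Real.negMulLog (((T.H n).index : ℝ)⁻¹)) +
          ENNReal.ofReal (Real.negMulLog (Q (β ⁻¹' {j})).toReal) *
            ((T.H n).index : ℝ≥0∞)⁻¹) := by
        refine ENNReal.tsum_le_tsum fun j => ?_
        rw [hm1, Real.negMulLog_mul]
        refine ENNReal.ofReal_add_le.trans ?_
        refine add_le_add (le_of_eq ?_) (le_of_eq ?_)
        · rw [ENNReal.ofReal_mul ENNReal.toReal_nonneg,
            ENNReal.ofReal_toReal (measure_ne_top _ _)]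
        · rw [ENNReal.ofReal_mul (inv_nonneg.2 hkR.le), mul_comm,
            ENNReal.ofReal_inv_of_pos hkR, ENNReal.ofReal_natCast]
    _ = ENNReal.ofReal (Real.negMulLog (((T.H n).index : ℝ)⁻¹)) +
          (∑' j : ℕ, ENNReal.ofReal (Real.negMulLog (Q (β ⁻¹' {j})).toReal)) /
            ((T.H n).index : ℝ≥0∞) := by
        rw [ENNReal.tsum_add, ENNReal.tsum_mul_right, ENNReal.tsum_mul_right, hsum, one_mul,
          ENNReal.div_eq_inv_mul, mul_comm (((T.H n).index : ℝ≥0∞)⁻¹)]

/-- Plan: let `β` be generating for `T.H n` and `cond P (T.A n)`, and `ω z = β z + 1` on `T.A n`,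
`ω z = 0` elsewhere.  `ω` is generating for `G` and `P`: a measurable `s` is the finite union over
`c = g (T.H n)` of `{z | z ∈ s, g⁻¹ • z ∈ T.A n}`, a translate of `{z ∈ T.A n | g • z ∈ s}`, which is
almost equal to `{z ∈ T.A n | (fun h => β (h • z)) ∈ S}`, and on `T.A n` (invariant under `T.H n`)
`β (h • z) = ω (h • z) - 1`.  Entropy: `P (ω = j + 1) = P (T.A n) * cond P (T.A n) (β = j)`,
`P (T.A n) = 1 / k` by `T.measure_fibre`, `Real.negMulLog_mul`. -/
theorem Tower.fibre_upper (T : Tower G Z) (P : Measure Z)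
    [IsProbabilityMeasure P] [SMulInvariantMeasure G Z P] (n : ℕ) :
    rok G P ≤
      ENNReal.ofReal (Real.negMulLog (((T.H n).index : ℝ)⁻¹)) +
      ENNReal.ofReal (Real.negMulLog (1 - ((T.H n).index : ℝ)⁻¹)) +
      rok (T.H n) (ProbabilityTheory.cond P (T.A n)) / ((T.H n).index : ℝ≥0∞) := by
  have := T.fin n
  have hk0 : (T.H n).index ≠ 0 := (T.H n).index_ne_zero_of_finite
  have hk1 : ((T.H n).index : ℝ≥0∞) ≠ 0 := by exact_mod_cast hk0
  have hk2 : ((T.H n).index : ℝ≥0∞) ≠ ⊤ := ENNReal.natCast_ne_top _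
  rw [← tsub_le_iff_left, ENNReal.le_div_iff_mul_le (Or.inl hk1) (Or.inl hk2)]
  unfold rok
  refine le_iInf fun β => le_iInf fun hβ => le_iInf fun hgen => ?_
  rw [← ENNReal.le_div_iff_mul_le (Or.inl hk1) (Or.inl hk2), tsub_le_iff_left]
  refine le_trans ?_ (shannon_om T P n β hβ)
  exact iInf_le_of_le (om T n β) (iInf_le_of_le (measurable_om T n β hβ)
    (iInf_le_of_le (generating_om T P n β hgen) le_rfl))

end Pool.Agent.RokProd
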