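import Pool.Agent.RokProd.FibreLower
import Pool.Agent.RokProd.FibreUpper

open MeasureTheory
open scoped ENNReal

namespace Pool.Agent.RokProd

variable {G Z : Type*} [Group G] [MulAction G Z] [MeasurableSpace Z] [MeasurableConstSMul G Z]

omit [MeasurableConstSMul G Z] in
private theorem Tower.measurableSet_A (T : Tower G Z) (n : ℕ) : MeasurableSet (T.A n) :=
  T.meas n _

private theorem Tower.measure_A_ne (T : Tower G Z) (P : Measure Z)
    [IsProbabilityMeasure P] [SMulInvariantMeasure G Z P] (n : ℕ) : P (T.A n) ≠ 0 := by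
  have h : P (T.A n) = ((T.H n).index : ℝ≥0∞)⁻¹ := T.measure_fibre P n _
  rw [h]
  exact ENNReal.inv_ne_zero.2 (ENNReal.natCast_ne_top _)

omit [MeasurableConstSMul G Z] in
private theorem Tower.mem_A (T : Tower G Z) (n : ℕ) (z : Z) :
    z ∈ T.A n ↔ T.π n z = ((1 : G) : G ⧸ T.H n) := Iff.rfl

omit [MeasurableConstSMul G Z] in
private theorem Tower.smul_mem_A (T : Tower G Z) (n : ℕ) (h : T.H n) (z : Z) :
    h • z ∈ T.A n ↔ z ∈ T.A n := by
  rw [T.mem_A, T.mem_A]
  have e : T.π n (h • z) = (h : G) • T.π n z := T.equivariant n (h : G) z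
  rw [e]
  have e1 : (h : G) • ((1 : G) : G ⧸ T.H n) = ((1 : G) : G ⧸ T.H n) := by
    show (((h : G) * 1 : G) : G ⧸ T.H n) = ((1 : G) : G ⧸ T.H n)
    rw [mul_one, eq_comm, QuotientGroup.eq]
    simp
  constructor
  · intro hh
    have h2 : (h : G) • T.π n z = (h : G) • ((1 : G) : G ⧸ T.H n) := by rw [hh, e1]
    exact smul_left_cancel _ h2
  · intro hh
    rw [hh, e1]

/-- `cond P (T.A n)` is a probability measure, invariant under `T.H n`. -/
theorem Tower.cond_facts (T : Tower G Z) (P : Measure Z)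
    [IsProbabilityMeasure P] [SMulInvariantMeasure G Z P] (n : ℕ) :
    IsProbabilityMeasure (ProbabilityTheory.cond P (T.A n)) ∧
      SMulInvariantMeasure (T.H n) Z (ProbabilityTheory.cond P (T.A n)) := by
  refine ⟨ProbabilityTheory.cond_isProbabilityMeasure (T.measure_A_ne P n), ⟨?_⟩⟩
  intro h s hs
  rw [ProbabilityTheory.cond_apply (T.measurableSet_A n), ProbabilityTheory.cond_apply (T.measurableSet_A n)]
  congr 1
  have e : T.A n ∩ (fun z : Z => h • z) ⁻¹' s = (fun z : Z => (h : G) • z) ⁻¹' (T.A n ∩ s) := by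
    ext z
    constructor
    · rintro ⟨h1, h2⟩
      exact ⟨(T.smul_mem_A n h z).2 h1, h2⟩
    · rintro ⟨h1, h2⟩
      exact ⟨(T.smul_mem_A n h z).1 h1, h2⟩
  rw [e]
  exact SMulInvariantMeasure.measure_preimage_smul (h : G) ((T.measurableSet_A n).inter hs)

/-- Plan: `fibre_lower` for the group `T.H n`, the measure `Q = cond P (T.A n)` and the subgroup
`(T.H m).subgroupOf (T.H n)`; the map `Z → T.H n ⧸ (T.H m).subgroupOf (T.H n)` sends `z ∈ T.A n`
with `T.π m z = h (T.H m)`, `h ∈ T.H n` (by `T.compat`), to the coset of `h`, and anything to the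
trivial coset outside `T.A n` (a `Q`-null set); `cond (cond P (T.A n)) B = cond P (T.A m)` as
`T.A n ∩ B = T.A m` (`ProbabilityTheory.cond_cond_eq_cond_inter`); then `rok_congr` with
`Subgroup.subgroupOfEquivOfLe` and `Subgroup.relIndex_mul_index`. -/
theorem Tower.fibre_mono (T : Tower G Z) (P : Measure Z)
    [IsProbabilityMeasure P] [SMulInvariantMeasure G Z P] (n m : ℕ) (hnm : n ≤ m) :
    rok (T.H m) (ProbabilityTheory.cond P (T.A m)) / ((T.H m).index : ℝ≥0∞) ≤
      rok (T.H n) (ProbabilityTheory.cond P (T.A n)) / ((T.H n).index : ℝ≥0∞) := by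
  classical
  have := T.fin n
  have := T.fin m
  obtain ⟨hpn, hin⟩ := T.cond_facts P n
  have := hpn
  have := hin
  have hle : T.H m ≤ T.H n := T.anti hnm
  set Q : Measure Z := ProbabilityTheory.cond P (T.A n) with hQ
  set Λ : Subgroup (T.H n) := (T.H m).subgroupOf (T.H n) with hΛ
  let _ : Fintype (T.H n ⧸ Λ) := Fintype.ofFinite _
  -- the factor map
  let π' : Z → T.H n ⧸ Λ := fun z =>
    if h : ∃ γ : T.H n, T.π m z = ((γ : G) : G ⧸ T.H m) then ((h.choose : T.H n) : T.H n ⧸ Λ)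
    else ((1 : T.H n) : T.H n ⧸ Λ)
  have hex : ∀ z ∈ T.A n, ∃ γ : T.H n, T.π m z = ((γ : G) : G ⧸ T.H m) := by
    intro z hz
    obtain ⟨g, hg⟩ := QuotientGroup.mk_surjective (T.π m z)
    have h1 : T.π n z = (g : G ⧸ T.H n) := T.compat n m hnm z g hg.symm
    have h2 : ((1 : G) : G ⧸ T.H n) = (g : G ⧸ T.H n) := ((T.mem_A n z).1 hz).symm.trans h1
    have h3 : g ∈ T.H n := by
      have := QuotientGroup.eq.1 h2
      simpa using this
    exact ⟨⟨g, h3⟩, hg.symm⟩
  have hval : ∀ z, ∀ γ : T.H n, T.π m z = ((γ : G) : G ⧸ T.H m) → π' z = ((γ : T.H n) : T.H n ⧸ Λ) := by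
    intro z γ hγ
    have h : ∃ γ : T.H n, T.π m z = ((γ : G) : G ⧸ T.H m) := ⟨γ, hγ⟩
    have h1 : π' z = ((h.choose : T.H n) : T.H n ⧸ Λ) := dif_pos h
    rw [h1, QuotientGroup.eq, hΛ, Subgroup.mem_subgroupOf]
    have h2 : ((h.choose : G) : G ⧸ T.H m) = ((γ : G) : G ⧸ T.H m) := h.choose_spec.symm.trans hγ
    simpa using QuotientGroup.eq.1 h2
  have hmemA : ∀ z, ∀ γ : T.H n, T.π m z = ((γ : G) : G ⧸ T.H m) → z ∈ T.A n := by
    intro z γ hγ
    rw [T.mem_A, T.compat n m hnm z _ hγ, eq_comm, QuotientGroup.eq]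
    simp
  have hout : ∀ z, z ∉ T.A n → π' z = ((1 : T.H n) : T.H n ⧸ Λ) := by
    intro z hz
    refine dif_neg ?_
    rintro ⟨γ, hγ⟩
    exact hz (hmemA z γ hγ)
  have hiff : ∀ z ∈ T.A n, ∀ γ : T.H n, π' z = ((γ : T.H n) : T.H n ⧸ Λ) ↔
      T.π m z = ((γ : G) : G ⧸ T.H m) := by
    intro z hz γ
    refine ⟨fun h => ?_, hval z γ⟩
    obtain ⟨γ', hγ'⟩ := hex z hz
    rw [hval z γ' hγ', QuotientGroup.eq, hΛ, Subgroup.mem_subgroupOf] at h
    rw [hγ', QuotientGroup.eq]
    simpa using h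
  have hπ : ∀ c, MeasurableSet (π' ⁻¹' {c}) := by
    intro c
    obtain ⟨γ, rfl⟩ := QuotientGroup.mk_surjective c
    have e : π' ⁻¹' {((γ : T.H n) : T.H n ⧸ Λ)} =
        (T.A n ∩ T.π m ⁻¹' {((γ : G) : G ⧸ T.H m)}) ∪
          ((T.A n)ᶜ ∩ {_z : Z | ((1 : T.H n) : T.H n ⧸ Λ) = ((γ : T.H n) : T.H n ⧸ Λ)}) := by
      ext z
      by_cases hz : z ∈ T.A n
      · simp only [Set.mem_preimage, Set.mem_singleton_iff, Set.mem_union, Set.mem_inter_iff,
          Set.mem_compl_iff, hz, true_and, not_true_eq_false, false_and, or_false]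
        exact hiff z hz γ
      · simp only [Set.mem_preimage, Set.mem_singleton_iff, Set.mem_union, Set.mem_inter_iff,
          Set.mem_compl_iff, hz, false_and, not_false_eq_true, true_and, false_or,
          Set.mem_ofPred_eq]
        rw [hout z hz]
    rw [e]
    exact ((T.measurableSet_A n).inter (T.meas m _)).union
      ((T.measurableSet_A n).compl.inter (MeasurableSet.const _))
  have heq : ∀ γ : T.H n, ∀ᵐ z ∂Q, π' (γ • z) = γ • π' z := by
    intro γ
    filter_upwards [ProbabilityTheory.ae_cond_mem (T.measurableSet_A n)] with z hz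
    obtain ⟨g, hg⟩ := hex z hz
    rw [hval z g hg]
    refine (hval (γ • z) (γ * g) ?_).trans rfl
    have e : T.π m (γ • z) = (γ : G) • T.π m z := T.equivariant m (γ : G) z
    rw [e, hg]
    rfl
  have key := fibre_lower Q Λ π' hπ heq
  have hB : T.A n ∩ π' ⁻¹' {((1 : T.H n) : T.H n ⧸ Λ)} = T.A m := by
    ext z
    constructor
    · rintro ⟨h1, h2⟩
      exact (hiff z h1 1).1 h2
    · intro hz
      have h1 : T.π m z = (((1 : T.H n) : G) : G ⧸ T.H m) := hz
      have h2 := hmemA z 1 h1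
      exact ⟨h2, (hiff z h2 1).2 h1⟩
  have hcond : ProbabilityTheory.cond Q (π' ⁻¹' {((1 : T.H n) : T.H n ⧸ Λ)}) =
      ProbabilityTheory.cond P (T.A m) := by
    rw [hQ, ProbabilityTheory.cond_cond_eq_cond_inter (T.measurableSet_A n) (hπ _), hB]
  rw [hcond] at key
  have hcongr : rok Λ (ProbabilityTheory.cond P (T.A m)) =
      rok (T.H m) (ProbabilityTheory.cond P (T.A m)) :=
    rok_congr _ (Subgroup.subgroupOfEquivOfLe hle).toEquiv fun g y => rfl
  rw [hcongr] at key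
  have hidx : Fintype.card (T.H n ⧸ Λ) * (T.H n).index = (T.H m).index := by
    rw [← Nat.card_eq_fintype_card]
    exact Subgroup.relIndex_mul_index hle
  have hc0 : (Fintype.card (T.H n ⧸ Λ) : ℝ≥0∞) ≠ 0 := by
    exact_mod_cast Fintype.card_ne_zero
  have hct : (Fintype.card (T.H n ⧸ Λ) : ℝ≥0∞) ≠ ⊤ := ENNReal.natCast_ne_top _
  calc rok (T.H m) (ProbabilityTheory.cond P (T.A m)) / ((T.H m).index : ℝ≥0∞)
      ≤ ((Fintype.card (T.H n ⧸ Λ) : ℝ≥0∞) * rok (T.H n) Q) / ((T.H m).index : ℝ≥0∞) :=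
        ENNReal.div_le_div_right key _
    _ = ((Fintype.card (T.H n ⧸ Λ) : ℝ≥0∞) * rok (T.H n) Q) /
          ((Fintype.card (T.H n ⧸ Λ) : ℝ≥0∞) * ((T.H n).index : ℝ≥0∞)) := by
        rw [← hidx]
        push_cast
        rfl
    _ = rok (T.H n) Q / ((T.H n).index : ℝ≥0∞) := ENNReal.mul_div_mul_left _ _ hc0 hct

end Pool.Agent.RokProd
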