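import Pool.Agent.RokProd.Tower

open MeasureTheory
open scoped ENNReal

namespace Pool.Agent.RokProd

section aux

variable {G : Type} [Group G] (N : ℕ → Subgroup G)

private abbrev HtP : Type := ∀ n, G ⧸ N n

private noncomputable def htι [∀ n, (N n).Normal] : G →* HtP N :=
  Pi.monoidHom fun n => QuotientGroup.mk' (N n)

private theorem htι_apply [∀ n, (N n).Normal] (g : G) (n : ℕ) : htι N g n = (g : G ⧸ N n) := rfl

private theorem ht_closure_compat [∀ n, (N n).Normal] [∀ n, TopologicalSpace (G ⧸ N n)]
    [∀ n, DiscreteTopology (G ⧸ N n)] (hanti : Antitone N) {n m : ℕ} (hnm : n ≤ m)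
    {x : HtP N} (hx : x ∈ closure (Set.range (htι N))) (g : G) (hg : x m = (g : G ⧸ N m)) :
    x n = (g : G ⧸ N n) := by
  have hcont : Continuous fun y : HtP N => (y m, y n) :=
    (continuous_apply m).prodMk (continuous_apply n)
  have hclosed : IsClosed {y : HtP N | ∀ h : G, y m = (h : G ⧸ N m) → y n = (h : G ⧸ N n)} := by
    have h1 : IsClosed {c : (G ⧸ N m) × (G ⧸ N n) | ∀ h : G, c.1 = (h : G ⧸ N m) → c.2 = (h : G ⧸ N n)} :=
      isClosed_discrete _
    exact h1.preimage hcont
  have hsub : Set.range (htι N) ⊆ {y : HtP N | ∀ h : G, y m = (h : G ⧸ N m) → y n = (h : G ⧸ N n)} := by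
    rintro _ ⟨k, rfl⟩ h hk
    rw [htι_apply] at hk ⊢
    rw [QuotientGroup.eq] at hk ⊢
    exact hanti hnm hk
  exact closure_minimal hsub hclosed hx g hg

end aux

/-- Existence of the profinite action of a chain of normal subgroups.
Plan: give every finite group `G ⧸ N n` the discrete topology; `X` is the closure of the image of
`G` in the compact group `∀ n, G ⧸ N n` (`Subgroup.topologicalClosure` of the range of the diagonal
homomorphism), `μ` its normalised Haar measure (`MeasureTheory.Measure.haarMeasure ⊤`), `G` acts by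
left multiplication through the homomorphism (`MulAction.compHom`), `π n` is the `n`-th
coordinate.  Compatibility of coordinates is a closed condition which holds on the image.  The
Borel `σ`-algebra of the countable product is the product `σ`-algebra, generated by the
coordinates.  If `g • x = x` then `g` is in all the `N n`. -/
theorem exists_profinite (G : Type) [Group G] [Countable G] (N : ℕ → Subgroup G)
    (hN : ∀ n, (N n).Normal) (hfin : ∀ n, (N n).FiniteIndex) (hanti : Antitone N)
    (htend : Filter.Tendsto (fun n => (N n).index) Filter.atTop Filter.atTop)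
    (htriv : ∀ g : G, (∀ n, g ∈ N n) → g = 1) :
    ∃ (X : Type) (_ : MeasurableSpace X) (_ : StandardBorelSpace X) (_ : MulAction G X)
      (_ : MeasurableConstSMul G X) (μ : Measure X) (_ : IsProbabilityMeasure μ)
      (_ : SMulInvariantMeasure G X μ) (T : Tower G X),
      T.H = N ∧ T.Profinite μ ∧ ∀ g : G, g ≠ 1 → ∀ x : X, g • x ≠ x := by
  classical
  haveI : ∀ n, (N n).Normal := hN
  haveI : ∀ n, (N n).FiniteIndex := hfin
  letI : ∀ n, TopologicalSpace (G ⧸ N n) := fun _ => ⊥
  haveI : ∀ n, DiscreteTopology (G ⧸ N n) := fun _ => ⟨rfl⟩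
  letI : ∀ n, MeasurableSpace (G ⧸ N n) := fun _ => ⊤
  haveI : ∀ n, BorelSpace (G ⧸ N n) := fun n => ⟨(borel_eq_top_of_discrete).symm⟩
  haveI : ∀ n, Finite (G ⧸ N n) := fun n => inferInstance
  set K : Subgroup (HtP N) := (htι N).range.topologicalClosure with hK
  have hKc : IsClosed (K : Set (HtP N)) := Subgroup.isClosed_topologicalClosure _
  haveI : CompactSpace K := isCompact_iff_compactSpace.mp hKc.isCompact
  have hmem : ∀ g : G, htι N g ∈ K := fun g => Subgroup.le_topologicalClosure _ ⟨g, rfl⟩
  let φ : G →* K := (htι N).codRestrict K hmem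
  letI act : MulAction G K := MulAction.compHom K φ
  have hsmul : ∀ (g : G) (x : K), g • x = φ g * x := fun g x => rfl
  haveI : PolishSpace K := hKc.polishSpace
  haveI hms : MeasurableConstSMul G K := ⟨fun g => by
    have h1 : Continuous fun x : K => φ g * x := continuous_const.mul continuous_id
    exact h1.measurable⟩
  let μ : Measure K := Measure.haarMeasure (⊤ : TopologicalSpace.PositiveCompacts K)
  haveI hprob : IsProbabilityMeasure μ := ⟨by
    have h1 := Measure.haarMeasure_self (K₀ := (⊤ : TopologicalSpace.PositiveCompacts K))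
    simpa using h1⟩
  haveI hinv : SMulInvariantMeasure G K μ := ⟨fun g s hs => by
    have h1 : (fun x : K => g • x) ⁻¹' s = (fun x : K => φ g * x) ⁻¹' s := rfl
    rw [h1]
    exact measure_preimage_mul μ (φ g) s⟩
  let T : Tower G K :=
    { H := N
      anti := hanti
      fin := hfin
      tend := htend
      π := fun n x => x.1 n
      meas := fun n c => by
        have h1 : Measurable fun x : K => x.1 n := (measurable_pi_apply n).comp measurable_subtype_coe
        exact h1 (MeasurableSpace.measurableSet_top)
      equivariant := fun n g x => by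
        have h1 : (g • x : K).1 n = (g : G ⧸ N n) * x.1 n := rfl
        rw [h1]
        induction x.1 n using QuotientGroup.induction_on with
        | H z => rfl
      compat := fun n m hnm x g hg => by
        have h2 : x.1 ∈ closure (Set.range (htι N)) := x.2
        exact ht_closure_compat N hanti hnm h2 g hg }
  refine ⟨K, inferInstance, inferInstance, act, hms, μ, hprob, hinv, T, rfl, ?_, ?_⟩
  · intro s hs
    refine ⟨s, ?_, Filter.EventuallyEq.rfl⟩
    obtain ⟨u, hu, rfl⟩ := hs
    have hval : @Measurable K (HtP N)
        (MeasurableSpace.generateFrom {t | ∃ n, ∃ c : G ⧸ T.H n, t = T.π n ⁻¹' {c}})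
        MeasurableSpace.pi (fun x => x.1) := by
      refine @measurable_pi_lambda K ℕ (fun n => G ⧸ N n)
        (MeasurableSpace.generateFrom {t | ∃ n, ∃ c : G ⧸ T.H n, t = T.π n ⁻¹' {c}}) _ _ fun n => ?_
      refine @measurable_to_countable' (G ⧸ N n) K _ _ 
        (MeasurableSpace.generateFrom {t | ∃ n, ∃ c : G ⧸ T.H n, t = T.π n ⁻¹' {c}}) _ fun c => ?_
      exact MeasurableSpace.measurableSet_generateFrom ⟨n, c, rfl⟩
    exact hval hu
  · intro g hg x hx
    apply hg
    apply htriv
    intro n
    have h1 : φ g * x = x := hx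
    have h2 : φ g = 1 := by
      have := congrArg (fun y => y * x⁻¹) h1
      simpa using this
    have h3 : (g : G ⧸ N n) = 1 := by
      have := congrArg (fun y : K => y.1 n) h2
      exact this
    exact (QuotientGroup.eq_one_iff g).mp h3

end Pool.Agent.RokProd
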