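import Pool.Agent.RokProd.ApproxB
import Pool.Agent.RokProd.Group

open MeasureTheory
open scoped ENNReal

namespace Pool.Agent.RokProd

universe u v w

variable {G : Type w} {X : Type u} {Y : Type v} [Group G] [Countable G] [MulAction G X]
  [MeasurableSpace X] [MulAction G Y] [MeasurableSpace Y] [MeasurableConstSMul G X]
  [MeasurableConstSMul G Y]

private theorem constSMul_prod : MeasurableConstSMul G (X × Y) where
  measurable_const_smul g := by
    have h : (fun z : X × Y => g • z) = fun z : X × Y => (g • z.1, g • z.2) := rfl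
    rw [h]
    exact (measurable_fst.const_smul g).prodMk (measurable_snd.const_smul g)

private theorem invariant_prod (μ : Measure X) [IsProbabilityMeasure μ]
    [SMulInvariantMeasure G X μ] (ν : Measure Y) [IsProbabilityMeasure ν]
    [SMulInvariantMeasure G Y ν] : SMulInvariantMeasure G (X × Y) (μ.prod ν) where
  measure_preimage_smul g s hs := by
    have h := (measurePreserving_smul g μ).prod (measurePreserving_smul g ν)
    exact h.measure_preimage hs.nullMeasurableSet

/-- How to recover the value of `β` from the value of the finite approximation, the correction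
and the tail. -/
private def recov (K : ℕ) (p : Fin (K + 1) × ℕ × ℕ) : ℕ :=
  if p.2.2 = 0 then (if p.2.1 = 0 then (p.1 : ℕ) else p.2.1 - 1) else p.2.2 - 1

private def enc {K : ℕ} (o : Option (Fin (K + 1))) : ℕ := o.elim 0 (fun j => (j : ℕ) + 1)

theorem Tower.iInf_le_rok_prod (T : Tower G X) (μ : Measure X)
    [IsProbabilityMeasure μ] [SMulInvariantMeasure G X μ] (hprof : T.Profinite μ) (ν : Measure Y)
    [IsProbabilityMeasure ν] [SMulInvariantMeasure G Y ν] (hY : rok G ν ≠ ⊤) :
    ⨅ n, rok (T.H n) ν / ((T.H n).index : ℝ≥0∞) ≤ rok G (μ.prod ν) := by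
  classical
  haveI : MeasurableConstSMul G (X × Y) := constSMul_prod
  haveI : SMulInvariantMeasure G (X × Y) (μ.prod ν) := invariant_prod μ ν
  refine le_iInf fun α => le_iInf fun hα => le_iInf fun hgen => ?_
  refine ENNReal.le_of_forall_pos_le_add ?_
  intro ε0 hε0 _
  set ε : ℝ≥0∞ := (ε0 : ℝ≥0∞) / 3 with hεdef
  have hε : ε ≠ 0 := by
    rw [hεdef]
    exact (ENNReal.div_pos (by exact_mod_cast hε0.ne') (by norm_num)).ne'
  have hε3 : ε + ε + ε = (ε0 : ℝ≥0∞) := by
    rw [hεdef, ENNReal.add_thirds]
  obtain ⟨β, hβ, hβgen, hβfin⟩ :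
      ∃ β : Y → ℕ, Measurable β ∧ Generating G ν β ∧ shannon ν β ≠ ⊤ := by
    by_contra hcon
    push Not at hcon
    apply hY
    simp only [rok, iInf_eq_top]
    exact fun β hβ hβg => hcon β hβ hβg
  obtain ⟨K, hK⟩ := shannon_tail ν β hβ hβfin ε hε
  set τ : Y → ℕ := fun y => if β y < K then 0 else β y + 1 with hτ
  set b : Y → Fin (K + 1) := fun y => ⟨min (β y) K, by omega⟩ with hb
  have hbm : Measurable b := by
    have : b = (fun m : ℕ => (⟨min m K, by omega⟩ : Fin (K + 1))) ∘ β := rfl
    rw [this]
    exact measurable_from_top.comp hβ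
  have hτm : Measurable τ := by
    have : τ = (fun m : ℕ => if m < K then 0 else m + 1) ∘ β := rfl
    rw [this]
    exact measurable_from_top.comp hβ
  obtain ⟨δ, hδ, hsmall⟩ := shannon_small.{max u v} (Fin (K + 1)) ε hε
  obtain ⟨f, η, hf, hη, happ⟩ := approx_function (G := G) (μ.prod ν) α hα hgen
    (fun z : X × Y => b z.2) (hbm.comp measurable_snd) δ hδ
  obtain ⟨n, a, ha, haη, haH⟩ := T.approx_level μ hprof ν α hα η ε hη hε
  haveI := T.fin n
  haveI : Fintype (G ⧸ T.H n) := Fintype.ofFinite _
  -- the itinerary at level `n`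
  set it : (G ⧸ T.H n) → Y → (G → ℕ) := fun c y g => a (g • c) (g • y) with hit
  have hitm : ∀ c, Measurable (it c) := by
    intro c
    refine measurable_pi_iff.2 fun g => ?_
    exact (ha (g • c)).comp (measurable_const_smul g)
  set ζ : (G ⧸ T.H n) → Y → Option (Fin (K + 1)) :=
    fun c y => if f (it c y) = b y then none else some (b y) with hζ
  have hζm : ∀ c j, MeasurableSet (ζ c ⁻¹' {j}) := by
    intro c j
    have h1 : MeasurableSet {y | f (it c y) = b y} :=
      measurableSet_eq_fun (hf.comp (hitm c)) hbm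
    cases j with
    | none =>
      have : ζ c ⁻¹' {none} = {y | f (it c y) = b y} := by
        ext y
        simp [hζ]
      rw [this]
      exact h1
    | some j =>
      have : ζ c ⁻¹' {some j} = {y | f (it c y) = b y}ᶜ ∩ b ⁻¹' {j} := by
        ext y
        simp [hζ]
      rw [this]
      exact h1.compl.inter (hbm (measurableSet_singleton j))
  set W : (G ⧸ T.H n) → Y → ℕ × ℕ × ℕ := fun c y => (a c y, enc (ζ c y), τ y) with hW
  have henc : ∀ c, Measurable (fun y => enc (ζ c y)) := by
    intro c
    refine measurable_to_countable' fun j => ?_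
    have : (fun y => enc (ζ c y)) ⁻¹' {j} =
        ⋃ o ∈ {o : Option (Fin (K + 1)) | enc o = j}, ζ c ⁻¹' {o} := by
      ext y
      simp
    rw [this]
    exact MeasurableSet.biUnion (Set.to_countable _) fun o _ => hζm c o
  have hWm : ∀ c, Measurable (W c) := fun c => (ha c).prodMk ((henc c).prodMk hτm)
  -- `W` generates `Y`
  have hWgen : ∀ B : Set Y, MeasurableSet B → ∃ S : Set (G → ℕ × ℕ × ℕ), MeasurableSet S ∧
      B =ᵐ[ν] {y | (fun g : G => W (g : G ⧸ T.H n) (g • y)) ∈ S} := by
    intro B hB
    obtain ⟨S, hS, hBS⟩ := hβgen B hB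
    set Ψ : (G → ℕ × ℕ × ℕ) → (G → ℕ) := fun w g =>
      recov K (f (fun g' => (w (g' * g)).1), (w g).2.1, (w g).2.2) with hΨ
    have hΨm : Measurable Ψ := by
      refine measurable_pi_iff.2 fun g => ?_
      have h1 : Measurable (fun w : G → ℕ × ℕ × ℕ => f (fun g' => (w (g' * g)).1)) :=
        hf.comp (measurable_pi_iff.2 fun g' =>
          (measurable_fst.comp (measurable_pi_apply (g' * g))))
      have h2 : Measurable (fun w : G → ℕ × ℕ × ℕ => (w g).2.1) :=
        measurable_fst.comp (measurable_snd.comp (measurable_pi_apply g))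
      have h3 : Measurable (fun w : G → ℕ × ℕ × ℕ => (w g).2.2) :=
        measurable_snd.comp (measurable_snd.comp (measurable_pi_apply g))
      exact (Measurable.of_discrete (f := recov K)).comp (h1.prodMk (h2.prodMk h3))
    refine ⟨Ψ ⁻¹' S, hΨm hS, ?_⟩
    have hkey : ∀ y, Ψ (fun g : G => W (g : G ⧸ T.H n) (g • y)) = fun g : G => β (g • y) := by
      intro y
      funext g
      have hitg : (fun g' : G => a ((g' * g : G) : G ⧸ T.H n) ((g' * g) • y)) =
          it (g : G ⧸ T.H n) (g • y) := by
        funext g'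
        simp only [hit, mul_smul]
        rfl
      simp only [hΨ, hW]
      rw [hitg]
      simp only [recov, hτ]
      by_cases h : β (g • y) < K
      · simp only [h, if_true]
        have hbv : ((b (g • y) : Fin (K + 1)) : ℕ) = β (g • y) := by
          simp only [hb]
          exact min_eq_left h.le
        by_cases h2 : f (it (g : G ⧸ T.H n) (g • y)) = b (g • y)
        · simp [hζ, h2, enc, hbv]
        · simp [hζ, h2, enc, hbv]
      · simp [h]
    have : {y | (fun g : G => W (g : G ⧸ T.H n) (g • y)) ∈ Ψ ⁻¹' S} =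
        {y | (fun g : G => β (g • y)) ∈ S} := by
      ext y
      simp only [Set.mem_setOf_eq, Set.mem_preimage, hkey]
    rw [this]
    exact hBS
  have h1 : rok (T.H n) ν ≤ ∑ c, shannon ν (W c) :=
    rok_subgroup_le ν (T.H n) W hWm hWgen
  have hcard : (Fintype.card (G ⧸ T.H n) : ℝ≥0∞) = ((T.H n).index : ℝ≥0∞) := by
    rw [← Nat.card_eq_fintype_card]
    rfl
  have h2 : ∑ c, shannon ν (W c) ≤ ((T.H n).index : ℝ≥0∞) *
      shannon (μ.prod ν) (fun z : X × Y => W (T.π n z.1) z.2) := by
    rw [← hcard]
    refine sum_shannon_le μ ν (T.π n) (T.meas n) ?_ W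
      (fun c j => hWm c (measurableSet_singleton j))
    intro c
    rw [T.measure_fibre, hcard]
  -- measurability on `X × Y`
  have hlev : ∀ {κ : Type} (V : (G ⧸ T.H n) → Y → κ), (∀ c j, MeasurableSet (V c ⁻¹' {j})) →
      ∀ j, MeasurableSet ((fun z : X × Y => V (T.π n z.1) z.2) ⁻¹' {j}) := by
    intro κ V hV j
    have : (fun z : X × Y => V (T.π n z.1) z.2) ⁻¹' {j} =
        ⋃ c : G ⧸ T.H n, (T.π n ⁻¹' {c}) ×ˢ (V c ⁻¹' {j}) := by
      ext z
      simp
    rw [this]
    exact MeasurableSet.iUnion fun c => (T.meas n c).prod (hV c j)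
  have h3 : shannon (μ.prod ν) (fun z : X × Y => W (T.π n z.1) z.2) ≤
      shannon (μ.prod ν) α + (ε0 : ℝ≥0∞) := by
    have hτsh : shannon (μ.prod ν) (fun z : X × Y => τ z.2) = shannon ν τ := by
      unfold shannon
      congr 1
      funext j
      have : (fun z : X × Y => τ z.2) ⁻¹' {j} = Prod.snd ⁻¹' (τ ⁻¹' {j}) := rfl
      rw [this]
      rw [(measurePreserving_snd (μ := μ) (ν := ν)).measure_preimage
        (hτm (measurableSet_singleton j)).nullMeasurableSet]
    have hζsh : shannon (μ.prod ν) (fun z : X × Y => ζ (T.π n z.1) z.2) ≤ ε := by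
      refine hsmall (X × Y) (μ.prod ν) _ (hlev ζ hζm) ?_
      have hset : {z : X × Y | ζ (T.π n z.1) z.2 ≠ none} =
          {z : X × Y | f (fun g : G => (fun z : X × Y => a (T.π n z.1) z.2) (g • z)) ≠ b z.2} := by
        ext z
        have : it (T.π n z.1) z.2 =
            fun g : G => (fun z : X × Y => a (T.π n z.1) z.2) (g • z) := by
          funext g
          simp only [hit, Prod.smul_fst, Prod.smul_snd, T.equivariant]
        simp only [Set.mem_setOf_eq, hζ, this]
        by_cases h : f (fun g : G => a (T.π n (g • z).1) (g • z).2) = b z.2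
        · simp [h]
        · simp [h]
      rw [hset]
      refine happ _ ?_ haη
      exact measurable_to_countable' (hlev a (fun c j => ha c (measurableSet_singleton j)))
    calc shannon (μ.prod ν) (fun z : X × Y => W (T.π n z.1) z.2)
        ≤ shannon (μ.prod ν) (fun z : X × Y => a (T.π n z.1) z.2) +
          shannon (μ.prod ν) (fun z : X × Y => (enc (ζ (T.π n z.1) z.2), τ z.2)) := by
          refine shannon_prod_le (μ.prod ν) (fun z : X × Y => a (T.π n z.1) z.2)
            (hlev a (fun c j => ha c (measurableSet_singleton j)))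
            (fun z : X × Y => (enc (ζ (T.π n z.1) z.2), τ z.2)) ?_
          exact hlev (fun c y => (enc (ζ c y), τ y))
            (fun c j => ((henc c).prodMk hτm) (measurableSet_singleton j))
      _ ≤ (shannon (μ.prod ν) α + ε) + (ε + ε) := by
          refine add_le_add haH ?_
          refine (shannon_prod_le (μ.prod ν) (fun z : X × Y => enc (ζ (T.π n z.1) z.2))
            (hlev (fun c y => enc (ζ c y)) (fun c j => henc c (measurableSet_singleton j)))
            (fun z : X × Y => τ z.2)
            (hlev (fun _ y => τ y) (fun c j => hτm (measurableSet_singleton j)))).trans ?_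
          refine add_le_add ?_ ?_
          · exact (shannon_comp_le (μ.prod ν) (fun z : X × Y => ζ (T.π n z.1) z.2)
              (hlev ζ hζm) enc).trans hζsh
          · rw [hτsh]
            exact hK
      _ = shannon (μ.prod ν) α + (ε0 : ℝ≥0∞) := by
          rw [← hε3]
          ring
  have hk0 : ((T.H n).index : ℝ≥0∞) ≠ 0 := by
    exact_mod_cast Subgroup.FiniteIndex.index_ne_zero
  refine (iInf_le _ n).trans ?_
  refine ENNReal.div_le_of_le_mul ?_
  calc rok (T.H n) ν ≤ _ := h1
    _ ≤ _ := h2
    _ ≤ ((T.H n).index : ℝ≥0∞) * (shannon (μ.prod ν) α + (ε0 : ℝ≥0∞)) := by gcongr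
    _ = _ := mul_comm _ _

end Pool.Agent.RokProd
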