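import Pool.Agent.RokProd.EntropyB
import Pool.Agent.RokProd.Group
import Pool.Agent.RokProd.Tower

open MeasureTheory
open scoped ENNReal

namespace Pool.Agent.RokProd

variable {G X Y : Type*} [Group G] [Countable G] [MulAction G X] [MeasurableSpace X]
  [MulAction G Y] [MeasurableSpace Y] [MeasurableConstSMul G X] [MeasurableConstSMul G Y]

omit [Countable G] in
private theorem smul_preserving (μ : Measure X) [IsProbabilityMeasure μ]
    [SMulInvariantMeasure G X μ] (ν : Measure Y) [IsProbabilityMeasure ν]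
    [SMulInvariantMeasure G Y ν] (g : G) :
    MeasurePreserving (fun z : X × Y => g • z) (μ.prod ν) (μ.prod ν) :=
  (measurePreserving_smul g μ).prod (measurePreserving_smul g ν)

/-- Sets given up to a null set by the itinerary of `ω`. -/
private def Good {κ : Type*} [MeasurableSpace κ] (P : Measure (X × Y)) (ω : X × Y → κ)
    (s : Set (X × Y)) : Prop :=
  ∃ S : Set (G → κ), MeasurableSet S ∧ s =ᵐ[P] {z | (fun g : G => ω (g • z)) ∈ S}

omit [Countable G] [MeasurableConstSMul G X] [MeasurableConstSMul G Y] in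
private theorem Good.compl {κ : Type*} [MeasurableSpace κ] {P : Measure (X × Y)} {ω : X × Y → κ}
    {s : Set (X × Y)} (h : Good (G := G) P ω s) : Good (G := G) P ω sᶜ := by
  obtain ⟨S, hS, h⟩ := h
  exact ⟨Sᶜ, hS.compl, h.compl⟩

omit [Countable G] [MeasurableConstSMul G X] [MeasurableConstSMul G Y] in
private theorem Good.iUnion {κ ι : Type*} [Countable ι] [MeasurableSpace κ] {P : Measure (X × Y)}
    {ω : X × Y → κ} {s : ι → Set (X × Y)} (h : ∀ i, Good (G := G) P ω (s i)) :
    Good (G := G) P ω (⋃ i, s i) := by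
  choose S hS h using h
  refine ⟨⋃ i, S i, MeasurableSet.iUnion hS, ?_⟩
  have h1 : (⋃ i, s i) =ᵐ[P] ⋃ i, {z | (fun g : G => ω (g • z)) ∈ S i} :=
    Filter.EventuallyEq.countable_iUnion h
  have h2 : (⋃ i, {z | (fun g : G => ω (g • z)) ∈ S i}) =
      {z | (fun g : G => ω (g • z)) ∈ ⋃ i, S i} := Set.ext fun z => by simp
  rwa [h2] at h1

omit [Countable G] [MeasurableConstSMul G X] [MeasurableConstSMul G Y] in
private theorem Good.congr {κ : Type*} [MeasurableSpace κ] {P : Measure (X × Y)} {ω : X × Y → κ}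
    {s t : Set (X × Y)} (h : Good (G := G) P ω s) (hst : t =ᵐ[P] s) : Good (G := G) P ω t := by
  obtain ⟨S, hS, h⟩ := h
  exact ⟨S, hS, hst.trans h⟩

omit [Countable G] in
private theorem Good.smul {κ : Type*} [MeasurableSpace κ] (μ : Measure X) [IsProbabilityMeasure μ]
    [SMulInvariantMeasure G X μ] (ν : Measure Y) [IsProbabilityMeasure ν]
    [SMulInvariantMeasure G Y ν] {ω : X × Y → κ}
    {s : Set (X × Y)} (h : Good (G := G) (μ.prod ν) ω s) (g : G) :
    Good (G := G) (μ.prod ν) ω {z | g • z ∈ s} := by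
  obtain ⟨S, hS, h⟩ := h
  refine ⟨(fun w : G → κ => fun k : G => w (k * g)) ⁻¹' S,
    hS.preimage (measurable_pi_lambda _ fun k => measurable_pi_apply _), ?_⟩
  have h1 := (smul_preserving (G := G) μ ν g).quasiMeasurePreserving.preimage_ae_eq h
  have h2 : ((fun z : X × Y => g • z) ⁻¹' {z | (fun k : G => ω (k • z)) ∈ S}) =
      {z | (fun k : G => ω (k • z)) ∈
        (fun w : G → κ => fun k : G => w (k * g)) ⁻¹' S} := Set.ext fun z => by
    simp only [Set.mem_preimage, Set.mem_ofPred_eq, mul_smul]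
  rw [h2] at h1
  exact h1

/-- The partition of the product. -/
private noncomputable def omega (T : Tower G X) (n : ℕ) (α : X → ℕ) (β : Y → ℕ)
    (z : X × Y) : ℕ × Option ℕ :=
  open Classical in
  (α z.1, if z.1 ∈ T.π n ⁻¹' {((1 : G) : G ⧸ T.H n)} then some (β z.2) else none)

private theorem gen_omega (T : Tower G X) (μ : Measure X)
    [IsProbabilityMeasure μ] [SMulInvariantMeasure G X μ] (ν : Measure Y)
    [IsProbabilityMeasure ν] [SMulInvariantMeasure G Y ν] (n : ℕ)
    [MeasurableSpace (Option ℕ)] [DiscreteMeasurableSpace (Option ℕ)]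
    (α : X → ℕ) (hgα : Generating G μ α) (β : Y → ℕ)
    (hgβ : Generating (T.H n) ν β) :
    Generating G (μ.prod ν) (omega T n α β) := by
  classical
  -- the sets in the first coordinate
  have h1 : ∀ B : Set X, MeasurableSet B →
      Good (G := G) (μ.prod ν) (omega T n α β) (Prod.fst ⁻¹' B) := by
    intro B hB
    obtain ⟨S, hS, h⟩ := hgα B hB
    refine ⟨(fun w : G → ℕ × Option ℕ => fun g : G => (w g).1) ⁻¹' S,
      hS.preimage (measurable_pi_lambda _ fun g => measurable_fst.comp (measurable_pi_apply g)),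
      ?_⟩
    exact Measure.quasiMeasurePreserving_fst.preimage_ae_eq h
  -- the sets over the trivial coset
  have h2 : ∀ B : Set Y, MeasurableSet B →
      Good (G := G) (μ.prod ν) (omega T n α β)
        {z | T.π n z.1 = ((1 : G) : G ⧸ T.H n) ∧ z.2 ∈ B} := by
    intro B hB
    obtain ⟨S, hS, h⟩ := hgβ B hB
    refine ⟨{w | (w 1).2 ≠ none} ∩
      (fun w : G → ℕ × Option ℕ => fun h : T.H n => ((w (h : G)).2.getD 0)) ⁻¹' S, ?_, ?_⟩
    · refine MeasurableSet.inter ?_ ?_
      · exact (MeasurableSet.of_discrete (s := {o : Option ℕ | o ≠ none})).preimage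
          (measurable_snd.comp (measurable_pi_apply (1 : G)))
      · refine hS.preimage (measurable_pi_lambda _ fun h => ?_)
        exact (Measurable.of_discrete (f := fun o : Option ℕ => o.getD 0)).comp
          (measurable_snd.comp (measurable_pi_apply (h : G)))
    · have h3 : (Prod.snd ⁻¹' B : Set (X × Y)) =ᵐ[μ.prod ν]
          Prod.snd ⁻¹' {y | (fun h : T.H n => β (h • y)) ∈ S} :=
        Measure.quasiMeasurePreserving_snd.preimage_ae_eq h
      have h4 : ({z : X × Y | T.π n z.1 = ((1 : G) : G ⧸ T.H n)} ∩ Prod.snd ⁻¹' B : Set (X × Y))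
          =ᵐ[μ.prod ν] ({z : X × Y | T.π n z.1 = ((1 : G) : G ⧸ T.H n)} ∩
            Prod.snd ⁻¹' {y | (fun h : T.H n => β (h • y)) ∈ S} : Set (X × Y)) :=
        (ae_eq_refl _).inter h3
      refine h4.trans (Filter.EventuallyEq.of_eq (α := X × Y) (Set.ext fun z => ?_))
      have h5 : (omega T n α β ((1 : G) • z)).2 ≠ none ↔ T.π n z.1 = ((1 : G) : G ⧸ T.H n) := by
        rw [one_smul]
        by_cases hz : T.π n z.1 = ((1 : G) : G ⧸ T.H n)
        · simp [omega, hz]
        · simp [omega, hz]
      have h6 : T.π n z.1 = ((1 : G) : G ⧸ T.H n) → ∀ h : T.H n,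
          ((omega T n α β ((h : G) • z)).2.getD 0) = β (h • z.2) := by
        intro hz h
        have h7 : T.π n ((h : G) • z.1) = ((1 : G) : G ⧸ T.H n) := by
          rw [T.equivariant, hz, MulAction.Quotient.smul_coe, smul_eq_mul, mul_one]
          exact QuotientGroup.eq.2 (by simp)
        simp only [omega, Prod.smul_fst, Set.mem_preimage, Set.mem_singleton_iff, h7, if_true,
          Prod.smul_snd, Option.getD_some]
        rfl
      simp only [Set.mem_inter_iff, Set.mem_ofPred_eq, Set.mem_preimage]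
      rw [h5]
      refine and_congr_right fun hz => ?_
      simp only [h6 hz]
  -- the sets over any coset
  have h3 : ∀ B : Set Y, MeasurableSet B →
      Good (G := G) (μ.prod ν) (omega T n α β) (Prod.snd ⁻¹' B) := by
    intro B hB
    have h4 : (Prod.snd ⁻¹' B : Set (X × Y)) = ⋃ c : G ⧸ T.H n,
        {z | (c.out)⁻¹ • z ∈ {z : X × Y | T.π n z.1 = ((1 : G) : G ⧸ T.H n) ∧
          z.2 ∈ {y | c.out • y ∈ B}}} := by
      ext z
      simp only [Set.mem_preimage, Set.mem_iUnion, Set.mem_ofPred_eq, Prod.smul_fst,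
        Prod.smul_snd, smul_inv_smul]
      constructor
      · intro hz
        refine ⟨T.π n z.1, ?_, hz⟩
        rw [T.equivariant, inv_smul_eq_iff]
        show _ = (T.π n z.1).out • ((1 : G) : G ⧸ T.H n)
        rw [MulAction.Quotient.smul_coe, smul_eq_mul, mul_one, QuotientGroup.out_eq']
      · rintro ⟨c, _, hz⟩
        exact hz
    rw [h4]
    have : Countable (G ⧸ T.H n) := (QuotientGroup.mk_surjective (s := T.H n)).countable
    refine Good.iUnion fun c => ?_
    exact Good.smul μ ν (h2 _ (hB.preimage (measurable_const_smul c.out))) _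
  intro s hs
  show Good (G := G) (μ.prod ν) (omega T n α β) s
  let E : MeasurableSpace (X × Y) :=
    { MeasurableSet' := Good (G := G) (μ.prod ν) (omega T n α β)
      measurableSet_empty := ⟨∅, MeasurableSet.empty, Filter.EventuallyEq.of_eq rfl⟩
      measurableSet_compl := fun _ h => h.compl
      measurableSet_iUnion := fun _ h => Good.iUnion h }
  have hE : (Prod.instMeasurableSpace : MeasurableSpace (X × Y)) ≤ E := by
    refine sup_le ?_ ?_
    · rintro _ ⟨B, hB, rfl⟩
      exact h1 B hB
    · rintro _ ⟨B, hB, rfl⟩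
      exact h3 B hB
  exact hE s hs

/-- One level.  Plan: `α` generating for `X`, `β` generating for `T.H n` on `Y`; the partition
`ω (x, y) = (α x, if π n x = 1 then some (β y) else none)` is generating for `G` on `X × Y`:
the sets agreeing up to null sets with `{z | itinerary ∈ S}` form a `σ`-algebra
(`eventuallyMeasurableSpace`) which is `G`-invariant and contains `s ×ˢ univ` and, for every coset
`g • 1`, the set `{π n x = g • 1, y ∈ B}`, a translate of `{π n x = 1, y ∈ B'}`, which is given by
the itinerary of the second coordinate along `T.H n`.  Entropy: `shannon_prod_le` and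
`shannon_fibre`. -/
theorem Tower.rok_prod_le (T : Tower G X) (μ : Measure X)
    [IsProbabilityMeasure μ] [SMulInvariantMeasure G X μ] (ν : Measure Y)
    [IsProbabilityMeasure ν] [SMulInvariantMeasure G Y ν] (n : ℕ) :
    rok G (μ.prod ν) ≤ rok G μ +
      (ENNReal.ofReal (Real.negMulLog (((T.H n).index : ℝ)⁻¹)) +
       ENNReal.ofReal (Real.negMulLog (1 - ((T.H n).index : ℝ)⁻¹)) +
       rok (T.H n) ν / ((T.H n).index : ℝ≥0∞)) := by
  classical
  have := T.fin n
  have hk0 : (T.H n).index ≠ 0 := Subgroup.FiniteIndex.index_ne_zero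
  have hk1 : ((T.H n).index : ℝ≥0∞) ≠ 0 := by exact_mod_cast hk0
  have hk2 : ((T.H n).index : ℝ≥0∞) ≠ ⊤ := ENNReal.natCast_ne_top _
  suffices key : ∀ α : X → ℕ, Measurable α → Generating G μ α → ∀ β : Y → ℕ, Measurable β →
      Generating (T.H n) ν β →
      rok G (μ.prod ν) ≤ shannon μ α +
        (ENNReal.ofReal (Real.negMulLog (((T.H n).index : ℝ)⁻¹)) +
         ENNReal.ofReal (Real.negMulLog (1 - ((T.H n).index : ℝ)⁻¹)) +
         shannon ν β / ((T.H n).index : ℝ≥0∞)) by
    have e1 : rok G μ = ⨅ (α : X → ℕ) (_ : Measurable α) (_ : Generating G μ α), shannon μ α := rfl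
    have e2 : rok (T.H n) ν = ⨅ (β : Y → ℕ) (_ : Measurable β) (_ : Generating (T.H n) ν β),
      shannon ν β := rfl
    rw [e1, e2]
    simp only [ENNReal.iInf_add, ENNReal.add_iInf, ENNReal.iInf_div_of_ne hk1 hk2]
    exact le_iInf fun β => le_iInf fun hβ => le_iInf fun hgβ => le_iInf fun α =>
      le_iInf fun hα => le_iInf fun hgα => key α hα hgα β hβ hgβ
  intro α hα hgα β hβ hgβ
  let _ : MeasurableSpace (Option ℕ) := ⊤
  have : DiscreteMeasurableSpace (Option ℕ) := ⟨fun _ => trivial⟩
  have hAm : MeasurableSet (T.π n ⁻¹' {((1 : G) : G ⧸ T.H n)}) := T.meas n _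
  have hω2 : Measurable (fun z : X × Y =>
      if z.1 ∈ T.π n ⁻¹' {((1 : G) : G ⧸ T.H n)} then some (β z.2) else none) :=
    Measurable.ite (measurable_fst hAm)
      ((Measurable.of_discrete (f := fun m : ℕ => some m)).comp (hβ.comp measurable_snd))
      measurable_const
  have hω : Measurable (omega T n α β) := (hα.comp measurable_fst).prodMk hω2
  refine (rok_le (μ.prod ν) (omega T n α β) hω (gen_omega T μ ν n α hgα β hgβ)).trans ?_
  have h1 : shannon (μ.prod ν) (omega T n α β) ≤
      shannon (μ.prod ν) (fun z : X × Y => α z.1) +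
      shannon (μ.prod ν) (fun z : X × Y =>
        if z.1 ∈ T.π n ⁻¹' {((1 : G) : G ⧸ T.H n)} then some (β z.2) else none) :=
    shannon_prod_le (μ.prod ν) (fun z : X × Y => α z.1)
      (fun j => (hα.comp measurable_fst) (measurableSet_singleton j)) _
      (fun j => hω2 (measurableSet_singleton j))
  have h2 : shannon (μ.prod ν) (fun z : X × Y => α z.1) = shannon μ α := by
    unfold shannon
    refine tsum_congr fun j => ?_
    have h3 : ((fun z : X × Y => α z.1) ⁻¹' {j}) = (α ⁻¹' {j}) ×ˢ (Set.univ : Set Y) := by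
      ext z
      simp
    rw [h3, Measure.prod_prod, measure_univ, mul_one]
  have h3 := shannon_fibre μ ν (T.π n ⁻¹' {((1 : G) : G ⧸ T.H n)}) hAm β hβ
  rw [T.measure_fibre μ n ((1 : G) : G ⧸ T.H n)] at h3
  rw [ENNReal.toReal_inv, ENNReal.toReal_natCast] at h3
  refine h1.trans ?_
  rw [h2]
  refine add_le_add le_rfl (h3.trans ?_)
  rw [ENNReal.div_eq_inv_mul]

end Pool.Agent.RokProd
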