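import Pool.Agent.RokProd.EntropyB
import Pool.Agent.RokProd.Group
import Pool.Agent.RokProd.Tower

open MeasureTheory
open scoped ENNReal

namespace Pool.Agent.RokProd

variable {G X : Type*} [Group G] [MulAction G X] [MeasurableSpace X]

/-- The fibre over the trivial coset. -/
private def fib (T : Tower G X) (n : ℕ) : Set X := T.π n ⁻¹' {((1 : G) : G ⧸ T.H n)}

private theorem fib_anti (T : Tower G X) {n m : ℕ} (h : n ≤ m) : fib T m ⊆ fib T n := by
  intro x hx
  exact T.compat n m h x 1 hx

open Classical in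
/-- The least `j` with `x ∉ fib T (φ j)`. -/
private noncomputable def cnt (T : Tower G X) (φ : ℕ → ℕ) (x : X) : ℕ :=
  if h : ∃ j, x ∉ fib T (φ j) then Nat.find h else 0

private theorem lt_cnt_iff (T : Tower G X) (φ : ℕ → ℕ) (hφ : StrictMono φ) (x : X)
    (hx : ∃ j, x ∉ fib T (φ j)) (j : ℕ) : j < cnt T φ x ↔ x ∈ fib T (φ j) := by
  classical
  unfold cnt
  rw [dif_pos hx]
  constructor
  · intro h
    by_contra hcon
    exact absurd (Nat.find_min' hx hcon) (not_le.2 h)
  · intro h
    by_contra hcon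
    rw [not_lt] at hcon
    exact Nat.find_spec hx (fib_anti T (hφ.monotone hcon) h)

private theorem cnt_eq_zero (T : Tower G X) (φ : ℕ → ℕ) (x : X)
    (hx : ¬ ∃ j, x ∉ fib T (φ j)) : cnt T φ x = 0 := by
  classical
  unfold cnt
  rw [dif_neg hx]

/-- A profinite action has Rokhlin entropy zero.  With `A n = π n ⁻¹' {1}`, choose a fast growing
sequence `φ j` and let `α x` be the least `j` with `x ∉ A (φ j)`.  The entropy of `α` is small, and
`A (φ j) = {α > j}` up to a null set, so the invariant `σ`-algebra of `α` contains the fibres of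
all `π n`. -/
theorem Tower.rok_eq_zero [MeasurableConstSMul G X] [Countable G] (T : Tower G X) (μ : Measure X)
    [IsProbabilityMeasure μ] [SMulInvariantMeasure G X μ] (hprof : T.Profinite μ) :
    rok G μ = 0 := by
  classical
  have hmf : ∀ n, MeasurableSet (fib T n) := fun n => T.meas n _
  have hμf : ∀ n, μ (fib T n) = ((T.H n).index : ℝ≥0∞)⁻¹ := fun n => T.measure_fibre μ n _
  have hinv : Filter.Tendsto (fun m => (((T.H m).index : ℝ))⁻¹) Filter.atTop (nhds 0) :=
    tendsto_inv_atTop_zero.comp (tendsto_natCast_atTop_atTop.comp T.tend)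
  have hreal : ∀ n, (μ (fib T n)).toReal = ((T.H n).index : ℝ)⁻¹ := by
    intro n
    rw [hμf, ENNReal.toReal_inv, ENNReal.toReal_natCast]
  refine le_antisymm (ENNReal.le_of_forall_pos_le_add fun ε hε _ => ?_) zero_le
  rw [zero_add]
  have hεr : (0 : ℝ) < (ε : ℝ) := by exact_mod_cast hε
  -- continuity
  have hc0 : ∀ e : ℝ, 0 < e → ∀ᶠ m in Filter.atTop, ∀ t : ℝ, 0 ≤ t →
      t ≤ ((T.H m).index : ℝ)⁻¹ → Real.negMulLog t ≤ e := by
    intro e he
    have h1 := (Real.continuous_negMulLog.tendsto 0)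
    rw [Real.negMulLog_zero] at h1
    have h2 := (Metric.tendsto_nhds_nhds.1 h1) e he
    obtain ⟨d, hd, h3⟩ := h2
    filter_upwards [hinv.eventually (gt_mem_nhds hd)] with m hm t ht0 ht
    have := h3 (x := t) (by rw [Real.dist_eq, sub_zero, abs_of_nonneg ht0]; linarith)
    rw [Real.dist_eq, sub_zero] at this
    exact (le_abs_self _).trans this.le
  have hc1 : ∀ e : ℝ, 0 < e → ∀ᶠ m in Filter.atTop, ∀ t : ℝ, t ≤ 1 →
      1 - ((T.H m).index : ℝ)⁻¹ ≤ t → Real.negMulLog t ≤ e := by
    intro e he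
    have h1 := (Real.continuous_negMulLog.tendsto 1)
    rw [Real.negMulLog_one] at h1
    have h2 := (Metric.tendsto_nhds_nhds.1 h1) e he
    obtain ⟨d, hd, h3⟩ := h2
    filter_upwards [hinv.eventually (gt_mem_nhds hd)] with m hm t ht1 ht
    have := h3 (x := t) (by
      rw [Real.dist_eq, abs_sub_comm, abs_of_nonneg (by linarith)]; linarith)
    rw [Real.dist_eq, sub_zero] at this
    exact (le_abs_self _).trans this.le
  obtain ⟨φ, hφ, hP⟩ := Filter.extraction_forall_of_eventually
    (P := fun j m => (∀ t : ℝ, 0 ≤ t → t ≤ ((T.H m).index : ℝ)⁻¹ →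
      Real.negMulLog t ≤ (ε : ℝ) / 2 * (1 / 2) ^ (j + 1)) ∧
      ∀ t : ℝ, t ≤ 1 → 1 - ((T.H m).index : ℝ)⁻¹ ≤ t → Real.negMulLog t ≤ (ε : ℝ) / 2)
    (fun j => (hc0 _ (by positivity)).and (hc1 _ (by positivity)))
  -- the exceptional set is null
  have hnull : μ (⋂ j, fib T (φ j)) = 0 := by
    have h1 : Filter.Tendsto (fun m => ((T.H m).index : ℝ≥0∞)⁻¹) Filter.atTop (nhds 0) :=
      ENNReal.tendsto_inv_nat_nhds_zero.comp T.tend
    have h2 : Filter.Tendsto (fun j => μ (fib T (φ j))) Filter.atTop (nhds 0) := by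
      simp only [hμf]
      exact h1.comp hφ.tendsto_atTop
    exact le_antisymm (ge_of_tendsto' h2 fun j => measure_mono (Set.iInter_subset _ j)) zero_le
  have hae : ∀ᵐ x ∂μ, ∃ j, x ∉ fib T (φ j) := by
    rw [ae_iff]
    convert hnull using 2
    ext x
    simp
  set α : X → ℕ := cnt T φ with hα
  -- the level sets
  have hlev : ∀ i, α ⁻¹' {i + 1} = fib T (φ i) \ fib T (φ (i + 1)) := by
    intro i
    ext x
    by_cases hx : ∃ j, x ∉ fib T (φ j)
    · rw [Set.mem_preimage, Set.mem_singleton_iff, Set.mem_sdiff,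
        ← lt_cnt_iff T φ hφ x hx i, ← lt_cnt_iff T φ hφ x hx (i + 1)]
      show cnt T φ x = i + 1 ↔ _
      omega
    · rw [Set.mem_preimage, Set.mem_singleton_iff, Set.mem_sdiff]
      have h0 : α x = 0 := cnt_eq_zero T φ x hx
      push Not at hx
      rw [h0]
      constructor
      · intro h
        omega
      · intro h
        exact absurd (hx (i + 1)) h.2
  have hlev0 : α ⁻¹' {0} = (fib T (φ 0))ᶜ ∪ ⋂ j, fib T (φ j) := by
    ext x
    by_cases hx : ∃ j, x ∉ fib T (φ j)
    · rw [Set.mem_preimage, Set.mem_singleton_iff, Set.mem_union, Set.mem_compl_iff,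
        ← lt_cnt_iff T φ hφ x hx 0, Set.mem_iInter]
      have h1 : ¬ ∀ i, x ∈ fib T (φ i) := by
        intro h
        obtain ⟨j, hj⟩ := hx
        exact hj (h j)
      show cnt T φ x = 0 ↔ _
      constructor
      · intro h
        left
        omega
      · rintro (h | h)
        · omega
        · exact absurd h h1
    · rw [Set.mem_preimage, Set.mem_singleton_iff, Set.mem_union]
      have h0 : α x = 0 := cnt_eq_zero T φ x hx
      push Not at hx
      simp only [h0, true_iff]
      right
      exact Set.mem_iInter.2 hx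
  have hαm : Measurable α := by
    refine measurable_to_countable' fun i => ?_
    cases i with
    | zero =>
      rw [hlev0]
      exact (hmf _).compl.union (MeasurableSet.iInter fun j => hmf _)
    | succ i =>
      rw [hlev]
      exact (hmf _).diff (hmf _)
  -- entropy
  have hent : shannon μ α ≤ ε := by
    unfold shannon
    rw [tsum_eq_zero_add' ENNReal.summable]
    have h0 : ENNReal.ofReal (Real.negMulLog (μ (α ⁻¹' {0})).toReal) ≤
        ENNReal.ofReal ((ε : ℝ) / 2) := by
      refine ENNReal.ofReal_le_ofReal ((hP 0).2 _ ?_ ?_)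
      · exact ENNReal.toReal_le_of_le_ofReal zero_le_one (by simpa using prob_le_one)
      · have h1 : μ (fib T (φ 0))ᶜ ≤ μ (α ⁻¹' {0}) := by
          rw [hlev0]
          exact measure_mono Set.subset_union_left
        have h2 : (μ (fib T (φ 0))ᶜ).toReal = 1 - ((T.H (φ 0)).index : ℝ)⁻¹ := by
          rw [← hreal, prob_compl_eq_one_sub (hmf _), ENNReal.toReal_sub_of_le prob_le_one
            ENNReal.one_ne_top, ENNReal.toReal_one]
        rw [← h2]
        exact ENNReal.toReal_mono (measure_ne_top _ _) h1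
    have h1 : ∀ i : ℕ, ENNReal.ofReal (Real.negMulLog (μ (α ⁻¹' {i + 1})).toReal) ≤
        ENNReal.ofReal ((ε : ℝ) / 2 * (1 / 2) ^ (i + 1)) := by
      intro i
      refine ENNReal.ofReal_le_ofReal ((hP i).1 _ ENNReal.toReal_nonneg ?_)
      rw [← hreal]
      refine ENNReal.toReal_mono (measure_ne_top _ _) ?_
      rw [hlev]
      exact measure_mono Set.sdiff_subset
    have h2 : ∑' i : ℕ, ENNReal.ofReal ((ε : ℝ) / 2 * (1 / 2) ^ (i + 1)) =
        ENNReal.ofReal ((ε : ℝ) / 2) := by
      rw [← ENNReal.ofReal_tsum_of_nonneg (fun i => by positivity)]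
      · congr 1
        rw [tsum_mul_left]
        have : ∑' i : ℕ, ((1 : ℝ) / 2) ^ (i + 1) = 1 := by
          simp only [pow_succ]
          rw [tsum_mul_right, tsum_geometric_two]
          norm_num
        rw [this, mul_one]
      · refine Summable.mul_left _ ?_
        simp only [pow_succ]
        exact (summable_geometric_two).mul_right _
    calc _ ≤ ENNReal.ofReal ((ε : ℝ) / 2) +
          ∑' i : ℕ, ENNReal.ofReal ((ε : ℝ) / 2 * (1 / 2) ^ (i + 1)) :=
          add_le_add h0 (ENNReal.tsum_le_tsum h1)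
      _ = (ε : ℝ≥0∞) := by
          rw [h2, ← ENNReal.ofReal_add (by positivity) (by positivity), add_halves,
            ENNReal.ofReal_coe_nnreal]
  -- generation
  have hgen : Generating G μ α := by
    have hkey : ∀ t, MeasurableSet[MeasurableSpace.generateFrom
        {t | ∃ n, ∃ c : G ⧸ T.H n, t = T.π n ⁻¹' {c}}] t →
        MeasurableSet[eventuallyMeasurableSpace
          (MeasurableSpace.comap (fun x (g : G) => α (g • x)) MeasurableSpace.pi) (ae μ)] t := by
      intro t ht
      refine (MeasurableSpace.generateFrom_le ?_) t ht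
      rintro t ⟨n, c, rfl⟩
      obtain ⟨j, hj⟩ : ∃ j, n ≤ φ j := ⟨n, hφ.id_le n⟩
      have hcov : T.π n ⁻¹' {c} =
          ⋃ g ∈ {g : G | (g : G ⧸ T.H n) = c}, T.π (φ j) ⁻¹' {(g : G ⧸ T.H (φ j))} := by
        ext x
        simp only [Set.mem_iUnion, Set.mem_preimage, Set.mem_singleton_iff, exists_prop]
        constructor
        · intro hx
          obtain ⟨g, hg⟩ := QuotientGroup.mk_surjective (T.π (φ j) x)
          refine ⟨g, ?_, hg.symm⟩
          show (g : G ⧸ T.H n) = c
          rw [← hx]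
          exact (T.compat n (φ j) hj x g hg.symm).symm
        · rintro ⟨g, hg, hx⟩
          rw [T.compat n (φ j) hj x g hx]
          exact hg
      rw [hcov]
      refine MeasurableSet.biUnion (Set.to_countable _) fun g _ => ?_
      refine ⟨{x | j < α (g⁻¹ • x)}, ?_, ?_⟩
      · refine ⟨{w : G → ℕ | j < w g⁻¹}, ?_, rfl⟩
        exact measurableSet_lt measurable_const (measurable_pi_apply g⁻¹)
      · have h1 : ∀ᵐ x ∂μ, ∃ j, g⁻¹ • x ∉ fib T (φ j) :=
          (measurePreserving_smul g⁻¹ μ).quasiMeasurePreserving.ae hae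
        filter_upwards [h1] with x hx
        apply propext
        show T.π (φ j) x = (g : G ⧸ T.H (φ j)) ↔ j < cnt T φ (g⁻¹ • x)
        rw [lt_cnt_iff T φ hφ _ hx j]
        show _ ↔ T.π (φ j) (g⁻¹ • x) = ((1 : G) : G ⧸ T.H (φ j))
        rw [T.equivariant, inv_smul_eq_iff]
        have : g • ((1 : G) : G ⧸ T.H (φ j)) = (g : G ⧸ T.H (φ j)) := by
          rw [MulAction.Quotient.smul_coe, smul_eq_mul, mul_one]
        rw [this]
    intro s hs
    obtain ⟨t, ht, hst⟩ := hprof s hs
    obtain ⟨t', ⟨S, hS, rfl⟩, htt⟩ := hkey t ht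
    exact ⟨S, hS, hst.trans htt⟩
  unfold rok
  exact iInf_le_of_le α (iInf_le_of_le hαm (iInf_le_of_le hgen hent))

end Pool.Agent.RokProd
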