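import Pool.Agent.RokProd.Chain
import Pool.Agent.RokProd.ErgProd
import Pool.Agent.RokProd.FibreEq
import Pool.Agent.RokProd.HaarTower
import Pool.Agent.RokProd.Lower
import Pool.Agent.RokProd.Upper
import Pool.Agent.RokProd.Zero

open MeasureTheory
open scoped ENNReal

namespace Pool.Agent.RokProd

section Pair

variable {G X Y : Type*} [Group G] [Countable G] [MulAction G X] [MulAction G Y]
  [MeasurableSpace X] [MeasurableSpace Y] [MeasurableConstSMul G X] [MeasurableConstSMul G Y]

theorem Tower.upper (μ : Measure X) [IsProbabilityMeasure μ] [SMulInvariantMeasure G X μ]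
    (ν : Measure Y) [IsProbabilityMeasure ν] [SMulInvariantMeasure G Y ν] (T : Tower G X) :
    rok G (μ.prod ν) ≤ rok G μ + ⨅ n, rok (T.H n) ν / ((T.H n).index : ℝ≥0∞) := by
  rw [ENNReal.add_iInf]
  refine le_iInf fun n => ?_
  have h3 : Filter.Tendsto (fun m => rok G μ +
      (ENNReal.ofReal (Real.negMulLog (((T.H m).index : ℝ)⁻¹)) +
       ENNReal.ofReal (Real.negMulLog (1 - ((T.H m).index : ℝ)⁻¹)) +
       rok (T.H n) ν / ((T.H n).index : ℝ≥0∞))) Filter.atTop
      (nhds (rok G μ + (0 + rok (T.H n) ν / ((T.H n).index : ℝ≥0∞)))) :=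
    tendsto_const_nhds.add (T.tendsto_error.add tendsto_const_nhds)
  simp only [zero_add] at h3
  refine ge_of_tendsto h3 ?_
  filter_upwards [Filter.eventually_ge_atTop n] with m hm
  have := T.fin n
  have := T.fin m
  refine (T.rok_prod_le μ ν m).trans ?_
  gcongr rok G μ + (_ + ?_)
  exact rok_div_index_mono ν (T.H m) (T.H n) (T.anti hm)

theorem Tower.index_of_additive (μ : Measure X) [IsProbabilityMeasure μ]
    [SMulInvariantMeasure G X μ]
    (ν : Measure Y) [IsProbabilityMeasure ν] [SMulInvariantMeasure G Y ν] (T : Tower G X)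
    (hμ : rok G μ ≠ ⊤) (h : rok G (μ.prod ν) = rok G μ + rok G ν) (n : ℕ) :
    rok (T.H n) ν = ((T.H n).index : ℝ≥0∞) * rok G ν := by
  have := T.fin n
  have hk0 : ((T.H n).index : ℝ≥0∞) ≠ 0 := by
    exact_mod_cast Subgroup.FiniteIndex.index_ne_zero
  have hkt : ((T.H n).index : ℝ≥0∞) ≠ ⊤ := ENNReal.natCast_ne_top _
  refine le_antisymm (rok_subgroup_le_index ν (T.H n)) ?_
  have h1 := T.upper μ ν
  rw [h] at h1
  have h2 : rok G ν ≤ ⨅ n, rok (T.H n) ν / ((T.H n).index : ℝ≥0∞) :=
    (ENNReal.add_le_add_iff_left hμ).1 h1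
  have h3 := h2.trans (iInf_le _ n)
  rw [ENNReal.le_div_iff_mul_le (Or.inl hk0) (Or.inl hkt)] at h3
  rwa [mul_comm]

private theorem invariant_prod' (μ : Measure X) [IsProbabilityMeasure μ]
    [SMulInvariantMeasure G X μ] (ν : Measure Y) [IsProbabilityMeasure ν]
    [SMulInvariantMeasure G Y ν] : SMulInvariantMeasure G (X × Y) (μ.prod ν) where
  measure_preimage_smul g s hs := by
    have h := (measurePreserving_smul g μ).prod (measurePreserving_smul g ν)
    exact h.measure_preimage hs.nullMeasurableSet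

private theorem constSMul_prod' : MeasurableConstSMul G (X × Y) where
  measurable_const_smul g := by
    have h : (fun z : X × Y => g • z) = fun z : X × Y => (g • z.1, g • z.2) := rfl
    rw [h]
    exact (measurable_fst.const_smul g).prodMk (measurable_snd.const_smul g)

theorem Tower.rok_fibre_prod (μ : Measure X) [IsProbabilityMeasure μ]
    [SMulInvariantMeasure G X μ]
    (ν : Measure Y) [IsProbabilityMeasure ν] [SMulInvariantMeasure G Y ν] (T : Tower G X)
    (n : ℕ) : rok (T.H n) ((ProbabilityTheory.cond μ (T.A n)).prod ν) =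
      ((T.H n).index : ℝ≥0∞) * rok G (μ.prod ν) := by
  have hinv : SMulInvariantMeasure G (X × Y) (μ.prod ν) := invariant_prod' μ ν
  have hcs : MeasurableConstSMul G (X × Y) := constSMul_prod'
  rw [← T.cond_prod μ ν n]
  exact (T.prod Y).fibre_eq (μ.prod ν) n

/-- The implication of Q2 for the pair and for the pair of the fibre and the second member. -/
theorem Tower.finite_iff (μ : Measure X) [IsProbabilityMeasure μ]
    [SMulInvariantMeasure G X μ]
    (ν : Measure Y) [IsProbabilityMeasure ν] [SMulInvariantMeasure G Y ν] (T : Tower G X)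
    (n : ℕ) :
    (rok G (μ.prod ν) ≠ ⊤ → rok G μ ≠ ⊤ ∨ rok G ν ≠ ⊤) ↔
      (rok (T.H n) ((ProbabilityTheory.cond μ (T.A n)).prod ν) ≠ ⊤ →
        rok (T.H n) (ProbabilityTheory.cond μ (T.A n)) ≠ ⊤ ∨ rok (T.H n) ν ≠ ⊤) := by
  have := T.fin n
  have hk0 : ((T.H n).index : ℝ≥0∞) ≠ 0 := by
    exact_mod_cast Subgroup.FiniteIndex.index_ne_zero
  have hkt : ((T.H n).index : ℝ≥0∞) ≠ ⊤ := ENNReal.natCast_ne_top _
  have hmul : ∀ a : ℝ≥0∞, ((T.H n).index : ℝ≥0∞) * a ≠ ⊤ ↔ a ≠ ⊤ := by
    intro a
    rw [Ne, Ne, ENNReal.mul_eq_top]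
    simp [hk0, hkt]
  have h1 : rok (T.H n) ν ≠ ⊤ ↔ rok G ν ≠ ⊤ := by
    constructor
    · intro h
      exact ne_top_of_le_ne_top h (rok_le_subgroup ν (T.H n))
    · intro h
      exact ne_top_of_le_ne_top ((hmul _).2 h) (rok_subgroup_le_index ν (T.H n))
  rw [T.rok_fibre_prod μ ν n, T.fibre_eq μ n, hmul, hmul, h1]

/-- Additivity for a pair whose first member has an infinite profinite factor is equivalent to
additivity for the finite index subgroup acting on the fibre and the second member, together with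
the index formula for the second member. -/
theorem Tower.additive_iff (μ : Measure X) [IsProbabilityMeasure μ]
    [SMulInvariantMeasure G X μ]
    (ν : Measure Y) [IsProbabilityMeasure ν] [SMulInvariantMeasure G Y ν] (T : Tower G X)
    (hμ : rok G μ ≠ ⊤) (n : ℕ) :
    rok G (μ.prod ν) = rok G μ + rok G ν ↔
      (rok (T.H n) ((ProbabilityTheory.cond μ (T.A n)).prod ν) =
        rok (T.H n) (ProbabilityTheory.cond μ (T.A n)) + rok (T.H n) ν ∧
       rok (T.H n) ν = ((T.H n).index : ℝ≥0∞) * rok G ν) := by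
  have := T.fin n
  have hk0 : ((T.H n).index : ℝ≥0∞) ≠ 0 := by
    exact_mod_cast Subgroup.FiniteIndex.index_ne_zero
  have hkt : ((T.H n).index : ℝ≥0∞) ≠ ⊤ := ENNReal.natCast_ne_top _
  have h1 := T.fibre_eq μ n
  have h2 := T.rok_fibre_prod μ ν n
  constructor
  · intro h
    have h3 := T.index_of_additive μ ν hμ h n
    exact ⟨by rw [h2, h1, h3, h, mul_add], h3⟩
  · rintro ⟨h4, h5⟩
    rw [h2, h1, h5, ← mul_add] at h4
    exact (ENNReal.mul_right_inj hk0 hkt).1 h4

/-- Profinite first member: Rokhlin entropy zero, exact formula for the product, and additivity is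
equivalent to the index formula. -/
theorem Tower.profinite_formula (T : Tower G X) (μ : Measure X) [IsProbabilityMeasure μ]
    [SMulInvariantMeasure G X μ] (hprof : T.Profinite μ)
    (ν : Measure Y) [IsProbabilityMeasure ν] [SMulInvariantMeasure G Y ν] (hY : rok G ν ≠ ⊤) :
    rok G μ = 0 ∧
    rok G (μ.prod ν) = ⨅ n, rok (T.H n) ν / ((T.H n).index : ℝ≥0∞) ∧
    (rok G (μ.prod ν) = rok G μ + rok G ν ↔
      ∀ n, rok (T.H n) ν = ((T.H n).index : ℝ≥0∞) * rok G ν) := by
  have hzero := T.rok_eq_zero μ hprof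
  have hformula : rok G (μ.prod ν) = ⨅ n, rok (T.H n) ν / ((T.H n).index : ℝ≥0∞) := by
    refine le_antisymm ?_ (T.iInf_le_rok_prod μ hprof ν hY)
    have := T.upper μ ν
    rwa [hzero, zero_add] at this
  refine ⟨hzero, hformula, ?_, ?_⟩
  · intro h
    exact T.index_of_additive μ ν (by rw [hzero]; exact ENNReal.zero_ne_top) h
  · intro h
    rw [hzero, zero_add, hformula]
    have : ∀ n, rok (T.H n) ν / ((T.H n).index : ℝ≥0∞) = rok G ν := by
      intro n
      have := T.fin n
      have hk0 : ((T.H n).index : ℝ≥0∞) ≠ 0 := by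
        exact_mod_cast Subgroup.FiniteIndex.index_ne_zero
      have hkt : ((T.H n).index : ℝ≥0∞) ≠ ⊤ := ENNReal.natCast_ne_top _
      rw [h n, mul_comm, ENNReal.mul_div_cancel_right hk0 hkt]
    simp only [this, iInf_const]

omit [Countable G] [MeasurableConstSMul G X] [MeasurableConstSMul G Y] in
/-- If a product is ergodic, so is its first member. -/
theorem ergodic_fst (μ : Measure X) [IsProbabilityMeasure μ] [SMulInvariantMeasure G X μ]
    (ν : Measure Y) [IsProbabilityMeasure ν] (hprod : ErgodicSMul G (X × Y) (μ.prod ν)) :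
    ErgodicSMul G X μ := by
  refine ⟨fun {s} hs h => ?_⟩
  have h1 : Filter.EventuallyConst (Prod.fst ⁻¹' s : Set (X × Y)) (ae (μ.prod ν)) := by
    refine hprod.aeconst_of_forall_preimage_smul_ae_eq (measurable_fst hs) fun g => ?_
    exact (Measure.quasiMeasurePreserving_fst (μ := μ) (ν := ν)).preimage_ae_eq (h g)
  rw [Filter.eventuallyConst_set'] at h1 ⊢
  rcases h1 with h1 | h1
  · left
    rw [ae_eq_empty] at h1 ⊢
    rwa [(measurePreserving_fst (μ := μ) (ν := ν)).measure_preimage hs.nullMeasurableSet] at h1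
  · right
    rw [ae_eq_univ] at h1 ⊢
    rw [← Set.preimage_compl,
      (measurePreserving_fst (μ := μ) (ν := ν)).measure_preimage
        hs.compl.nullMeasurableSet] at h1
    exact h1

end Pair

/-- The finite index formula for a subgroup implies it for all larger subgroups. -/
theorem index_formula_of_le {G Y : Type*} [Group G] [MeasurableSpace Y] [MulAction G Y]
    [MeasurableConstSMul G Y] (ν : Measure Y) [IsProbabilityMeasure ν]
    [SMulInvariantMeasure G Y ν] (K H : Subgroup G) (hKH : K ≤ H) (hK : K.FiniteIndex)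
    (hH : H.FiniteIndex) (h0 : rok K ν = (K.index : ℝ≥0∞) * rok G ν) :
    rok H ν = (H.index : ℝ≥0∞) * rok G ν := by
  have hk0 : (K.index : ℝ≥0∞) ≠ 0 := by
    exact_mod_cast Subgroup.FiniteIndex.index_ne_zero
  have hkt : (K.index : ℝ≥0∞) ≠ ⊤ := ENNReal.natCast_ne_top _
  have hH0 : (H.index : ℝ≥0∞) ≠ 0 := by
    exact_mod_cast Subgroup.FiniteIndex.index_ne_zero
  have hHt : (H.index : ℝ≥0∞) ≠ ⊤ := ENNReal.natCast_ne_top _
  refine le_antisymm (rok_subgroup_le_index ν H) ?_
  have h1 := rok_div_index_mono ν K H hKH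
  rw [h0, mul_comm, ENNReal.mul_div_cancel_right hk0 hkt,
    ENNReal.le_div_iff_mul_le (Or.inl hH0) (Or.inl hHt)] at h1
  rwa [mul_comm]

theorem exists_normal_of_residuallyFinite (G : Type*) [Group G] [Group.ResiduallyFinite G] :
    ∀ g : G, g ≠ 1 → ∃ N : Subgroup G, N.Normal ∧ N.FiniteIndex ∧ g ∉ N := by
  intro g hg
  obtain ⟨K, hK⟩ := Group.exists_finiteIndexNormalSubgroup_notMem g hg
  exact ⟨K.toSubgroup, K.isNormal', K.isFiniteIndex', hK⟩

/-- If Rokhlin entropy is additive for all pairs `(X, Y)` with `X` a free profinite action of the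
infinite countable residually finite group `G`, then `Y` satisfies the finite index formula. -/
theorem index_formula_of_additive (G : Type) [Group G] [Countable G] [Infinite G]
    [Group.ResiduallyFinite G]
    (Y : Type) [MeasurableSpace Y] [MulAction G Y]
    [MeasurableConstSMul G Y] (ν : Measure Y) [IsProbabilityMeasure ν]
    [SMulInvariantMeasure G Y ν]
    (hadd : ∀ (X : Type) [MeasurableSpace X] [StandardBorelSpace X] [MulAction G X]
      [MeasurableConstSMul G X] (μ : Measure X) [IsProbabilityMeasure μ]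
      [SMulInvariantMeasure G X μ], EssFree G μ → (∃ T : Tower G X, T.Profinite μ) →
      rok G (μ.prod ν) = rok G μ + rok G ν)
    (H : Subgroup G) (hH : H.FiniteIndex) : rok H ν = (H.index : ℝ≥0∞) * rok G ν := by
  obtain ⟨N, hN, hfin, hanti, htend, htriv, hle⟩ := 
    exists_chain G (exists_normal_of_residuallyFinite G) H hH
  obtain ⟨X, _, _, _, _, μ, _, _, T, hT, hprof, hXfree⟩ :=
    exists_profinite G N hN hfin hanti htend htriv
  have hadd' := hadd X μ (fun g hg => Filter.Eventually.of_forall (hXfree g hg)) ⟨T, hprof⟩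
  have hzero : rok G μ ≠ ⊤ := by
    rw [T.rok_eq_zero μ hprof]
    exact ENNReal.zero_ne_top
  have hle' : T.H 0 ≤ H := by
    rw [hT]
    exact hle
  exact index_formula_of_le ν (T.H 0) H hle' (T.fin 0) hH (T.index_of_additive μ ν hzero hadd' 0)

end Pool.Agent.RokProd
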